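import Pool.Agent.Run7.h736.Defs

open scoped ContDiff
open Set

namespace Run7.h736

noncomputable section

/-- the localized exact solution -/
def Uex (T x t : ℝ) : ℝ := (1 + Real.cos (x - t)) / (2 * (T - t))

lemma Uex_sol (T : ℝ) : IsClassicalSol T (Uex T) := by
  have h1 : ∀ t x : ℝ, HasDerivAt (fun y => Uex T y t) (-Real.sin (x - t) / (2 * (T - t))) x := by
    intro t x
    have h : HasDerivAt (fun y : ℝ => y - t) 1 x := (hasDerivAt_id x).sub_const t
    have := ((h.cos).const_add 1).div_const (2 * (T - t))
    refine HasDerivAt.congr_deriv this (by ring)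
  have h2 : ∀ t x : ℝ, HasDerivAt (fun y => -Real.sin (y - t) / (2 * (T - t)))
      (-Real.cos (x - t) / (2 * (T - t))) x := by
    intro t x
    have h : HasDerivAt (fun y : ℝ => y - t) 1 x := (hasDerivAt_id x).sub_const t
    have := ((h.sin).neg).div_const (2 * (T - t))
    refine HasDerivAt.congr_deriv this (by ring)
  have h3 : ∀ t x : ℝ, HasDerivAt (fun y => -Real.cos (y - t) / (2 * (T - t)))
      (Real.sin (x - t) / (2 * (T - t))) x := by
    intro t x
    have h : HasDerivAt (fun y : ℝ => y - t) 1 x := (hasDerivAt_id x).sub_const t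
    have := ((h.cos).neg).div_const (2 * (T - t))
    refine HasDerivAt.congr_deriv this (by ring)
  have e1 : ∀ t, deriv (fun y => Uex T y t) = fun y => -Real.sin (y - t) / (2 * (T - t)) :=
    fun t => funext fun x => (h1 t x).deriv
  have e2 : ∀ t, deriv (deriv (fun y => Uex T y t)) = fun y => -Real.cos (y - t) / (2 * (T - t)) :=
    fun t => by rw [e1]; exact funext fun x => (h2 t x).deriv
  have e3 : ∀ t, deriv (deriv (deriv (fun y => Uex T y t))) =
      fun y => Real.sin (y - t) / (2 * (T - t)) :=
    fun t => by rw [e2]; exact funext fun x => (h3 t x).deriv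
  refine ⟨?_, ?_, ?_⟩
  · unfold Uex
    apply ContDiffOn.div
    · exact (contDiff_const.add ((Real.contDiff_cos).comp (contDiff_fst.sub contDiff_snd))).contDiffOn
    · exact (contDiff_const.mul (contDiff_const.sub contDiff_snd)).contDiffOn
    · rintro ⟨x, t⟩ ⟨_, ht⟩
      have : t < T := ht.2
      have : 0 < T - t := by linarith
      positivity
  · intro t _ x
    unfold Uex
    rw [show x + 2 * Real.pi - t = (x - t) + 2 * Real.pi by ring, Real.cos_add_two_pi]
  · intro t ht x
    have hpos : 0 < T - t := by linarith [ht.2]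
    have e4 : iteratedDeriv 3 (fun y => Uex T y t) = deriv (deriv (deriv (fun y => Uex T y t))) := by
      rw [iteratedDeriv_succ, iteratedDeriv_succ, iteratedDeriv_succ, iteratedDeriv_zero]
    have ht' : HasDerivAt (fun s => Uex T x s)
        ((Real.sin (x - t) * (2 * (T - t)) + 2 * (1 + Real.cos (x - t))) / (2 * (T - t)) ^ 2) t := by
      have h : HasDerivAt (fun s : ℝ => x - s) (-1) t := by
        simpa using (hasDerivAt_id t).const_sub x
      have h' : HasDerivAt (fun s : ℝ => 2 * (T - s)) (-2) t := by
        have := ((hasDerivAt_id t).const_sub T).const_mul 2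
        refine HasDerivAt.congr_deriv this (by norm_num)
      have := ((h.cos).const_add 1).div h' (by positivity)
      refine HasDerivAt.congr_deriv this ?_
      ring
    rw [ht'.deriv, e4, e3, e1]
    unfold Uex
    field_simp
    nlinarith [Real.sin_sq_add_cos_sq (x - t)]

lemma Uex_range {T t : ℝ} (ht : t < T) :
    (∃ x, (T - t) * Uex T x t = 1) ∧ (∃ x, (T - t) * Uex T x t = 0) := by
  have hpos : 0 < T - t := by linarith
  refine ⟨⟨t, ?_⟩, ⟨t + Real.pi, ?_⟩⟩
  · unfold Uex; rw [sub_self, Real.cos_zero]; field_simp; norm_num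
  · unfold Uex; rw [add_sub_cancel_left, Real.cos_pi]; simp

end

end Run7.h736
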