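import Mathlib

open scoped ContDiff
open Set MeasureTheory

namespace Run7.h736

noncomputable section

/-- partial derivative in the first variable -/
def dx (F : ℝ × ℝ → ℝ) (p : ℝ × ℝ) : ℝ := fderiv ℝ F p (1, 0)
/-- partial derivative in the second variable -/
def dt (F : ℝ × ℝ → ℝ) (p : ℝ × ℝ) : ℝ := fderiv ℝ F p (0, 1)

variable {a b : ℝ}

/-- the open strip -/
def Om (a b : ℝ) : Set (ℝ × ℝ) := univ ×ˢ Ioo a b

lemma isOpen_Om : IsOpen (Om a b) := isOpen_univ.prod isOpen_Ioo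

lemma mem_Om {p : ℝ × ℝ} : p ∈ Om a b ↔ p.2 ∈ Ioo a b := by
  simp [Om]

lemma smooth_dx {F : ℝ × ℝ → ℝ} (hF : ContDiffOn ℝ ∞ F (Om a b)) :
    ContDiffOn ℝ ∞ (dx F) (Om a b) := by
  have h : ContDiffOn ℝ ∞ (fderiv ℝ F) (Om a b) :=
    hF.fderiv_of_isOpen isOpen_Om (by simp)
  exact h.clm_apply contDiffOn_const

lemma smooth_dt {F : ℝ × ℝ → ℝ} (hF : ContDiffOn ℝ ∞ F (Om a b)) :
    ContDiffOn ℝ ∞ (dt F) (Om a b) := by
  have h : ContDiffOn ℝ ∞ (fderiv ℝ F) (Om a b) :=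
    hF.fderiv_of_isOpen isOpen_Om (by simp)
  exact h.clm_apply contDiffOn_const

lemma differentiableAt_of_smooth {F : ℝ × ℝ → ℝ} (hF : ContDiffOn ℝ ∞ F (Om a b))
    {p : ℝ × ℝ} (hp : p ∈ Om a b) : DifferentiableAt ℝ F p :=
  ((hF.contDiffAt (isOpen_Om.mem_nhds hp)).differentiableAt (by simp))

lemma hasDerivAt_dx {F : ℝ × ℝ → ℝ} (hF : ContDiffOn ℝ ∞ F (Om a b))
    {x t : ℝ} (ht : t ∈ Ioo a b) : HasDerivAt (fun y => F (y, t)) (dx F (x, t)) x := by
  have h1 : HasFDerivAt F (fderiv ℝ F (x, t)) (x, t) :=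
    (differentiableAt_of_smooth hF (mem_Om.2 ht)).hasFDerivAt
  have h2 : HasDerivAt (fun y : ℝ => (y, t)) ((1 : ℝ), (0 : ℝ)) x :=
    (hasDerivAt_id x).prodMk (hasDerivAt_const x t)
  exact h1.comp_hasDerivAt x h2

lemma hasDerivAt_dt {F : ℝ × ℝ → ℝ} (hF : ContDiffOn ℝ ∞ F (Om a b))
    {x t : ℝ} (ht : t ∈ Ioo a b) : HasDerivAt (fun s => F (x, s)) (dt F (x, t)) t := by
  have h1 : HasFDerivAt F (fderiv ℝ F (x, t)) (x, t) :=
    (differentiableAt_of_smooth hF (mem_Om.2 ht)).hasFDerivAt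
  have h2 : HasDerivAt (fun s : ℝ => (x, s)) ((0 : ℝ), (1 : ℝ)) t :=
    (hasDerivAt_const t x).prodMk (hasDerivAt_id t)
  exact h1.comp_hasDerivAt t h2

lemma dt_dx_comm {F : ℝ × ℝ → ℝ} (hF : ContDiffOn ℝ ∞ F (Om a b))
    {p : ℝ × ℝ} (hp : p ∈ Om a b) : dt (dx F) p = dx (dt F) p := by
  have hA : ContDiffAt ℝ ∞ F p := hF.contDiffAt (isOpen_Om.mem_nhds hp)
  have hs : IsSymmSndFDerivAt ℝ F p := hA.isSymmSndFDerivAt (by
    rw [minSmoothness_of_isRCLikeNormedField]; exact ENat.LEInfty.out)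
  have h1 : ContDiffOn ℝ ∞ (fderiv ℝ F) (Om a b) :=
    hF.fderiv_of_isOpen isOpen_Om (by simp)
  have hd : DifferentiableAt ℝ (fderiv ℝ F) p :=
    (h1.contDiffAt (isOpen_Om.mem_nhds hp)).differentiableAt (by simp)
  have e1 : ∀ v : ℝ × ℝ, fderiv ℝ (fun q => fderiv ℝ F q v) p =
      (fderiv ℝ (fderiv ℝ F) p).flip v := by
    intro v
    have := hd.hasFDerivAt.clm_apply (hasFDerivAt_const v p)
    rw [this.fderiv]
    ext <;> simp
  unfold dt dx
  rw [e1, e1]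
  simp only [ContinuousLinearMap.flip_apply]
  exact hs (0, 1) (1, 0)

lemma dx_congr {F G : ℝ × ℝ → ℝ} (h : EqOn F G (Om a b)) {p : ℝ × ℝ} (hp : p ∈ Om a b) :
    dx F p = dx G p := by
  unfold dx
  rw [Filter.EventuallyEq.fderiv_eq (h.eventuallyEq_of_mem (isOpen_Om.mem_nhds hp))]

lemma dt_congr {F G : ℝ × ℝ → ℝ} (h : EqOn F G (Om a b)) {p : ℝ × ℝ} (hp : p ∈ Om a b) :
    dt F p = dt G p := by
  unfold dt
  rw [Filter.EventuallyEq.fderiv_eq (h.eventuallyEq_of_mem (isOpen_Om.mem_nhds hp))]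

lemma cont_slice {F : ℝ × ℝ → ℝ} (hF : ContinuousOn F (Om a b)) {t : ℝ} (ht : t ∈ Ioo a b) :
    Continuous (fun x => F (x, t)) := by
  have : ContinuousOn (fun x : ℝ => F (x, t)) univ :=
    hF.comp (by fun_prop) (fun x _ => mem_Om.2 ht)
  exact continuousOn_univ.1 this

/-- differentiation of an integral over a compact interval -/
lemma hasDerivAt_integral {F : ℝ × ℝ → ℝ} (hF : ContDiffOn ℝ ∞ F (Om a b))
    {t : ℝ} (ht : t ∈ Ioo a b) (c d : ℝ) :
    HasDerivAt (fun s => ∫ x in c..d, F (x, s)) (∫ x in c..d, dt F (x, t)) t := by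
  obtain ⟨δ, hδ, hball⟩ : ∃ δ > 0, Icc (t - δ) (t + δ) ⊆ Ioo a b := by
    refine ⟨min (t - a) (b - t) / 2, ?_, ?_⟩
    · have := ht.1; have := ht.2
      have : 0 < min (t - a) (b - t) := lt_min (by linarith) (by linarith)
      linarith
    · intro s hs
      have h1 : min (t - a) (b - t) ≤ t - a := min_le_left _ _
      have h2 : min (t - a) (b - t) ≤ b - t := min_le_right _ _
      have := ht.1; have := ht.2
      have : 0 < min (t - a) (b - t) := lt_min (by linarith) (by linarith)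
      constructor
      · linarith [hs.1]
      · linarith [hs.2]
  have hcont : ContinuousOn (dt F) (Om a b) := (smooth_dt hF).continuousOn
  have hK : IsCompact ((uIcc c d) ×ˢ (Icc (t - δ) (t + δ))) := isCompact_uIcc.prod isCompact_Icc
  have hsub : (uIcc c d) ×ˢ (Icc (t - δ) (t + δ)) ⊆ Om a b := by
    rintro ⟨x, s⟩ ⟨_, hs⟩
    exact mem_Om.2 (hball hs)
  obtain ⟨C, hC⟩ := hK.exists_bound_of_continuousOn (hcont.mono hsub)
  have hnhds : Ioo (t - δ) (t + δ) ∈ nhds t := Ioo_mem_nhds (by linarith) (by linarith)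
  refine (intervalIntegral.hasDerivAt_integral_of_dominated_loc_of_deriv_le
    (F := fun s x => F (x, s)) (F' := fun s x => dt F (x, s)) (bound := fun _ => C)
    (s := Ioo (t - δ) (t + δ)) hnhds ?_ ?_ ?_ ?_ ?_ ?_).2
  · filter_upwards [hnhds] with s hs
    exact (cont_slice hF.continuousOn (hball (Ioo_subset_Icc_self hs))).aestronglyMeasurable
  · exact (cont_slice hF.continuousOn ht).intervalIntegrable _ _
  · exact (cont_slice hcont ht).aestronglyMeasurable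
  · refine Filter.Eventually.of_forall fun x hx s hs => ?_
    exact hC (x, s) ⟨uIoc_subset_uIcc hx, Ioo_subset_Icc_self hs⟩
  · exact intervalIntegrable_const
  · refine Filter.Eventually.of_forall fun x hx s hs => ?_
    exact hasDerivAt_dt hF (hball (Ioo_subset_Icc_self hs))

end

end Run7.h736
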