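import Pool.Agent.Run7.h736.LinI

open Set Filter MeasureTheory
open scoped Topology

namespace Run7.h736

noncomputable section

/-- a function with `b' = -p/(T-t)` and `∫ p²/(T-t) < ∞` is `o(√|log(T-t)|)` -/
lemma slow_drift {b p : ℝ → ℝ} {t₁ T C : ℝ} (h01 : t₁ < T)
    (hd : ∀ t ∈ Ico t₁ T, HasDerivAt b (-p t / (T - t)) t) (hp : ContinuousOn p (Ico t₁ T))
    (hC : ∀ t ∈ Ico t₁ T, ∫ s in t₁..t, p s ^ 2 / (T - s) ≤ C) :
    Tendsto (fun t => b t / √|Real.log (T - t)|) (𝓝[<] T) (𝓝 0) := by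
  have hcont2 : ContinuousOn (fun s => p s ^ 2 / (T - s)) (Ico t₁ T) := by
    apply (hp.pow 2).div (by fun_prop)
    intro s hs
    have := hs.2
    linarith
  set J : ℝ → ℝ := fun t => ∫ s in t₁..t, p s ^ 2 / (T - s) with hJ
  have hJd : ∀ t ∈ Ioo t₁ T, HasDerivAt J (p t ^ 2 / (T - t)) t := by
    intro t ht
    apply intervalIntegral.integral_hasDerivAt_right
    · apply ContinuousOn.intervalIntegrable
      rw [uIcc_of_le ht.1.le]
      exact hcont2.mono fun r hr => ⟨hr.1, lt_of_le_of_lt hr.2 ht.2⟩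
    · exact ContinuousOn.stronglyMeasurableAtFilter isOpen_Ioo
        (hcont2.mono Ioo_subset_Ico_self) t ht
    · exact (hcont2.mono Ioo_subset_Ico_self).continuousAt (isOpen_Ioo.mem_nhds ht)
  set t₂ := (t₁ + T) / 2 with ht₂
  have h12 : t₁ < t₂ := by rw [ht₂]; linarith
  have h2T : t₂ < T := by rw [ht₂]; linarith
  have hsub : ∀ t ∈ Ico t₂ T, t ∈ Ioo t₁ T := fun t ht => ⟨by linarith [ht.1], ht.2⟩
  have hsub' : ∀ t ∈ Ico t₂ T, t ∈ Ico t₁ T := fun t ht => ⟨by linarith [ht.1], ht.2⟩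
  have hJm : MonotoneOn J (Ico t₂ T) := by
    apply monotoneOn_of_deriv_nonneg (convex_Ico _ _)
    · exact fun t ht => (hJd t (hsub t ht)).continuousAt.continuousWithinAt
    · intro t ht
      rw [interior_Ico] at ht
      exact (hJd t (hsub t (Ioo_subset_Ico_self ht))).differentiableAt.differentiableWithinAt
    · intro t ht
      rw [interior_Ico] at ht
      rw [(hJd t (hsub t (Ioo_subset_Ico_self ht))).deriv]
      exact div_nonneg (sq_nonneg _) (by linarith [ht.2])
  obtain ⟨LJ, hLJ⟩ := Lin.mono_lim h2T hJm fun t ht => hC t (hsub' t ht)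
  have hJle : ∀ t ∈ Ico t₂ T, J t ≤ LJ := by
    intro t ht
    refine ge_of_tendsto hLJ ?_
    have hev2 : ∀ᶠ s in 𝓝[<] T, s ∈ Ico t T := Ico_mem_nhdsLT ht.2
    filter_upwards [hev2] with s hs
    exact hJm ht ⟨ht.1.trans hs.1, hs.2⟩ hs.1
  -- the comparison inequality
  have cmp : ∀ t₀ ∈ Ico t₂ T, ∀ t ∈ Ico t₀ T, ∀ l : ℝ, 0 < l →
      |b t - b t₀| ≤ l / 2 * (J t - J t₀) + 1 / (2 * l) * (Real.log (T - t₀) - Real.log (T - t)) := by
    intro t₀ ht₀ t ht l hl
    have hsub2 : ∀ s ∈ Ico t₀ T, s ∈ Ico t₂ T := fun s hs => ⟨ht₀.1.trans hs.1, hs.2⟩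
    have hgen : ∀ σ : ℝ, |σ| = 1 → AntitoneOn (fun s => σ * b s - l / 2 * J s +
        1 / (2 * l) * Real.log (T - s)) (Ico t₀ T) := by
      intro σ hσ
      have hdd : ∀ s ∈ Ico t₀ T, HasDerivAt (fun s => σ * b s - l / 2 * J s +
          1 / (2 * l) * Real.log (T - s))
          (σ * (-p s / (T - s)) - l / 2 * (p s ^ 2 / (T - s)) + 1 / (2 * l) * (-1 / (T - s))) s := by
        intro s hs
        have he : HasDerivAt (fun s => T - s) (-1) s := by
          simpa using (hasDerivAt_id s).const_sub T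
        have hne : T - s ≠ 0 := by linarith [hs.2, sub_pos.2 hs.2]
        exact (((hd s (hsub' s (hsub2 s hs))).const_mul σ).sub
          ((hJd s (hsub s (hsub2 s hs))).const_mul (l / 2))).add ((he.log hne).const_mul _)
      apply antitoneOn_of_deriv_nonpos (convex_Ico _ _)
      · exact fun s hs => (hdd s hs).continuousAt.continuousWithinAt
      · intro s hs
        rw [interior_Ico] at hs
        exact (hdd s (Ioo_subset_Ico_self hs)).differentiableAt.differentiableWithinAt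
      · intro s hs
        rw [interior_Ico] at hs
        rw [(hdd s (Ioo_subset_Ico_self hs)).deriv]
        have hTs : 0 < T - s := by linarith [hs.2]
        have e : σ * (-p s / (T - s)) - l / 2 * (p s ^ 2 / (T - s)) + 1 / (2 * l) * (-1 / (T - s)) =
          -((l ^ 2 * p s ^ 2 + 2 * l * (σ * p s) + 1) / (2 * l * (T - s))) := by
          field_simp
          ring
        rw [e]
        have hσ2 : σ ^ 2 = 1 := by rw [← sq_abs, hσ]; norm_num
        have : 0 ≤ l ^ 2 * p s ^ 2 + 2 * l * (σ * p s) + 1 := by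
          have : l ^ 2 * p s ^ 2 + 2 * l * (σ * p s) + 1 = (l * p s + σ) ^ 2 := by
            rw [add_sq, hσ2]; ring
          rw [this]; positivity
        have : 0 ≤ (l ^ 2 * p s ^ 2 + 2 * l * (σ * p s) + 1) / (2 * l * (T - s)) := by positivity
        linarith
    have h1 := hgen 1 (by norm_num) ⟨le_rfl, ht₀.2⟩ ht ht.1
    have h2 := hgen (-1) (by norm_num) ⟨le_rfl, ht₀.2⟩ ht ht.1
    simp only at h1 h2
    rw [abs_le]
    constructor <;> nlinarith
  rw [Metric.tendsto_nhds]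
  intro η hη
  -- choose t₀ with small remaining dissipation
  have hev : ∀ᶠ t in 𝓝[<] T, LJ - (η / 4) ^ 2 < J t :=
    hLJ.eventually_const_lt (by have : 0 < (η / 4) ^ 2 := by positivity
                                linarith)
  have hev2 : ∀ᶠ s in 𝓝[<] T, s ∈ Ico t₂ T := Ico_mem_nhdsLT h2T
  obtain ⟨t₀, ht₀a, ht₀⟩ := (hev.and hev2).exists
  set ℓ : ℝ → ℝ := fun t => |Real.log (T - t)| with hℓ
  have hlog : Tendsto ℓ (𝓝[<] T) atTop := by
    have h6 : Tendsto (fun t : ℝ => T - t) (𝓝[<] T) (𝓝[>] 0) := by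
      apply tendsto_nhdsWithin_of_tendsto_nhds_of_eventually_within
      · have : Tendsto (fun t : ℝ => T - t) (𝓝 T) (𝓝 (T - T)) :=
          (continuous_const.sub continuous_id).tendsto T
        rw [sub_self] at this
        exact this.mono_left nhdsWithin_le_nhds
      · filter_upwards [self_mem_nhdsWithin] with t ht
        have : t < T := ht
        exact sub_pos.2 this
    exact tendsto_abs_atBot_atTop.comp (Real.tendsto_log_nhdsGT_zero.comp h6)
  set M := |b t₀| with hM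
  set L0 := |Real.log (T - t₀)| with hL0
  have ev1 : ∀ᶠ t in 𝓝[<] T, max (max (L0 + 1) 1) ((4 * M / η) ^ 2) < ℓ t :=
    hlog.eventually_gt_atTop _
  have ev3 : ∀ᶠ t in 𝓝[<] T, t ∈ Ico t₀ T := Ico_mem_nhdsLT ht₀.2
  filter_upwards [ev1, ev3] with t ht1 ht3
  have hTt : 0 < T - t := by linarith [ht3.2]
  have a1 : L0 + 1 < ℓ t := lt_of_le_of_lt ((le_max_left _ _).trans (le_max_left _ _)) ht1
  have a2 : 1 < ℓ t := lt_of_le_of_lt ((le_max_right _ _).trans (le_max_left _ _)) ht1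
  have a3 : (4 * M / η) ^ 2 < ℓ t := lt_of_le_of_lt (le_max_right _ _) ht1
  set R := √(ℓ t) with hR
  have hR1 : 1 < R := by
    rw [hR]; exact Real.lt_sqrt_of_sq_lt (by linarith)
  have hR0 : 0 < R := by linarith
  have hR2 : R ^ 2 = ℓ t := Real.sq_sqrt (by linarith)
  have hRM : 4 * M / η < R := Real.lt_sqrt_of_sq_lt a3
  have hcmp := cmp t₀ ht₀ t ht3 (4 * R / η) (by positivity)
  have hJ1 : J t - J t₀ ≤ (η / 4) ^ 2 := by
    have := hJle t ⟨ht₀.1.trans ht3.1, ht3.2⟩
    linarith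
  have hJ0 : 0 ≤ J t - J t₀ := by
    have := hJm ht₀ ⟨ht₀.1.trans ht3.1, ht3.2⟩ ht3.1
    linarith
  have hlog2 : Real.log (T - t₀) - Real.log (T - t) ≤ 2 * R ^ 2 := by
    have h1 := le_abs_self (Real.log (T - t₀))
    have h2 := neg_abs_le (Real.log (T - t))
    rw [hR2]
    change _ ≤ 2 * |Real.log (T - t)|
    have h3 : |Real.log (T - t₀)| + 1 < |Real.log (T - t)| := a1
    linarith
  have hb1 : |b t - b t₀| ≤ η * R / 8 + η * R / 4 := by
    refine hcmp.trans ?_
    have i1 : 4 * R / η / 2 * (J t - J t₀) ≤ 4 * R / η / 2 * (η / 4) ^ 2 :=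
      mul_le_mul_of_nonneg_left hJ1 (by positivity)
    have i2 : 1 / (2 * (4 * R / η)) * (Real.log (T - t₀) - Real.log (T - t)) ≤
        1 / (2 * (4 * R / η)) * (2 * R ^ 2) := mul_le_mul_of_nonneg_left hlog2 (by positivity)
    have i3 : 4 * R / η / 2 * (η / 4) ^ 2 = η * R / 8 := by field_simp; norm_num
    have i4 : 1 / (2 * (4 * R / η)) * (2 * R ^ 2) = η * R / 4 := by field_simp
    linarith
  have hb2 : |b t| ≤ M + (η * R / 8 + η * R / 4) := by
    have : |b t| ≤ |b t - b t₀| + |b t₀| := by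
      have := abs_add_le (b t - b t₀) (b t₀)
      simpa using this
    linarith
  rw [Real.dist_eq, sub_zero, abs_div, abs_of_pos (show 0 < √|Real.log (T - t)| from hR0),
    div_lt_iff₀ (show 0 < √|Real.log (T - t)| from hR0)]
  change |b t| < η * R
  have hM4 : M < η * R / 4 := by
    rw [div_lt_iff₀ hη] at hRM
    linarith
  have : 0 < η * R := by positivity
  linarith

end

end Run7.h736
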