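import Mathlib

open scoped ContDiff

namespace Run7.h736

/-- the exact blow-up solution `U(x,t) = (T-t)⁻¹ cos²((x-t)/2)` -/
noncomputable def Upat (T x t : ℝ) : ℝ := 1 / (T - t) * Real.cos ((x - t) / 2) ^ 2

/-- `r` is a smooth real solution on `ℝ × [0,T)`, `2π`-periodic in `x`, of the linearisation
`r_t = r_xxx + 2 U_x r_x + 2 U r` of `u_t = u_xxx + (u_x)² + u²` at the exact solution `U`. -/
structure IsLinearisedSol (T : ℝ) (r : ℝ → ℝ → ℝ) : Prop where
  smooth : ContDiffOn ℝ ∞ (fun p : ℝ × ℝ => r p.1 p.2) (Set.univ ×ˢ Set.Ico 0 T)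
  periodic : ∀ t ∈ Set.Ico 0 T, ∀ x, r (x + 2 * Real.pi) t = r x t
  pde : ∀ t ∈ Set.Ioo 0 T, ∀ x,
    deriv (fun s => r x s) t =
      iteratedDeriv 3 (fun y => r y t) x +
        2 * deriv (fun y => Upat T y t) x * deriv (fun y => r y t) x + 2 * Upat T x t * r x t

end Run7.h736
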