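import Pool.Agent.Run7.h736.Fin2
import Pool.Agent.Run7.h736.Drift
import Pool.Agent.Run7.h736.LinDefs

open scoped ContDiff Topology
open Set MeasureTheory Filter

namespace Run7.h736

noncomputable section

lemma Upat_eq (T x t : ℝ) : Upat T x t = (1 + Real.cos (x - t)) / (2 * (T - t)) := by
  unfold Upat
  have h := Real.cos_sq ((x - t) / 2)
  rw [h]
  have e : 2 * ((x - t) / 2) = x - t := by ring
  rw [e, mul_comm 2 (T - t), ← div_div]
  ring

lemma Upat_deriv (T x t : ℝ) :
    HasDerivAt (fun y => Upat T y t) (-Real.sin (x - t) / (2 * (T - t))) x := by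
  have e : (fun y => Upat T y t) = fun y => (1 + Real.cos (y - t)) / (2 * (T - t)) :=
    funext fun y => Upat_eq T y t
  rw [e]
  have h : HasDerivAt (fun y : ℝ => y - t) 1 x := (hasDerivAt_id x).sub_const t
  have := ((h.cos).const_add 1).div_const (2 * (T - t))
  refine HasDerivAt.congr_deriv this (by ring)

/-- passage to the moving frame -/
def shift (F : ℝ × ℝ → ℝ) (p : ℝ × ℝ) : ℝ := F (p.1 + p.2, p.2)

section

variable {a b : ℝ} {F : ℝ × ℝ → ℝ}

lemma smooth_shift (hF : ContDiffOn ℝ ∞ F (Om a b)) : ContDiffOn ℝ ∞ (shift F) (Om a b) := by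
  have h1 : ContDiff ℝ ∞ (fun p : ℝ × ℝ => (p.1 + p.2, p.2)) :=
    (contDiff_fst.add contDiff_snd).prodMk contDiff_snd
  exact hF.comp h1.contDiffOn fun p hp => mem_Om.2 (mem_Om.1 hp)

lemma dx_shift (hF : ContDiffOn ℝ ∞ F (Om a b)) {p : ℝ × ℝ} (hp : p ∈ Om a b) :
    dx (shift F) p = shift (dx F) p := by
  obtain ⟨x, t⟩ := p
  have ht : t ∈ Ioo a b := mem_Om.1 hp
  have h1 := hasDerivAt_dx (smooth_shift hF) (x := x) ht
  have h2 : HasDerivAt (fun y => F (y, t)) (dx F (x + t, t)) (x + t) := hasDerivAt_dx hF ht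
  have h3 : HasDerivAt (fun y => F (y + t, t)) (dx F (x + t, t)) x := h2.comp_add_const x t
  exact h1.unique h3

lemma dt_shift (hF : ContDiffOn ℝ ∞ F (Om a b)) {p : ℝ × ℝ} (hp : p ∈ Om a b) :
    dt (shift F) p = shift (dt F) p + shift (dx F) p := by
  obtain ⟨x, t⟩ := p
  have ht : t ∈ Ioo a b := mem_Om.1 hp
  have h1 := hasDerivAt_dt (smooth_shift hF) (x := x) ht
  have hp' : (x + t, t) ∈ Om a b := mem_Om.2 ht
  have h2 : HasFDerivAt F (fderiv ℝ F (x + t, t)) (x + t, t) :=
    (differentiableAt_of_smooth hF hp').hasFDerivAt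
  have h3 : HasDerivAt (fun s : ℝ => (x + s, s)) ((1 : ℝ), (1 : ℝ)) t := by
    have h4 : HasDerivAt (fun s : ℝ => x + s) 1 t := by simpa using (hasDerivAt_id t).const_add x
    exact h4.prodMk (hasDerivAt_id t)
  have h5 : HasDerivAt (fun s : ℝ => F (x + s, s)) (fderiv ℝ F (x + t, t) (1, 1)) t :=
    h2.comp_hasDerivAt_of_eq t h3 rfl
  rw [h1.unique h5]
  have e : ((1 : ℝ), (1 : ℝ)) = (0, 1) + (1, 0) := by simp
  rw [e, map_add]
  rfl

end

lemma IsLinearisedSol.toLSol {T : ℝ} {r : ℝ → ℝ → ℝ} (h : IsLinearisedSol T r) :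
    LSol T (shift (fun p => r p.1 p.2)) := by
  set F : ℝ × ℝ → ℝ := fun p => r p.1 p.2 with hF
  have hsm : ContDiffOn ℝ ∞ F (Om 0 T) :=
    h.smooth.mono (prod_mono le_rfl Ioo_subset_Ico_self)
  have hs := smooth_shift hsm
  have hsm1 := smooth_dx hsm
  have hsm2 := smooth_dx hsm1
  refine ⟨⟨hs, fun t ht x => ?_⟩, ?_⟩
  · have := h.periodic t (Ioo_subset_Ico_self ht) (x + t)
    unfold shift
    simp only [hF]
    rw [← this]
    ring_nf
  · rintro ⟨x, t⟩ hp
    have ht : t ∈ Ioo 0 T := mem_Om.1 hp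
    have e1 : EqOn (dx (shift F)) (shift (dx F)) (Om 0 T) := fun p hp => dx_shift hsm hp
    have e2 : EqOn (dx (dx (shift F))) (shift (dx (dx F))) (Om 0 T) := fun p hp => by
      rw [dx_congr e1 hp, dx_shift hsm1 hp]
    have e3 : EqOn (dx (dx (dx (shift F)))) (shift (dx (dx (dx F)))) (Om 0 T) := fun p hp => by
      rw [dx_congr e2 hp, dx_shift hsm2 hp]
    rw [dt_shift hsm hp, e1 hp, e3 hp]
    have hpde := h.pde t ht (x + t)
    have h1 : ∀ y, HasDerivAt (fun y => r y t) (dx F (y, t)) y := fun y => hasDerivAt_dx hsm ht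
    have h2 : ∀ y, HasDerivAt (fun y => dx F (y, t)) (dx (dx F) (y, t)) y :=
      fun y => hasDerivAt_dx hsm1 ht
    have h3 : ∀ y, HasDerivAt (fun y => dx (dx F) (y, t)) (dx (dx (dx F)) (y, t)) y :=
      fun y => hasDerivAt_dx hsm2 ht
    have d1 : deriv (fun y => r y t) = fun y => dx F (y, t) := funext fun y => (h1 y).deriv
    have d2 : deriv (deriv (fun y => r y t)) = fun y => dx (dx F) (y, t) := by
      rw [d1]; exact funext fun y => (h2 y).deriv
    have d3 : deriv (deriv (deriv (fun y => r y t))) = fun y => dx (dx (dx F)) (y, t) := by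
      rw [d2]; exact funext fun y => (h3 y).deriv
    have d4 : iteratedDeriv 3 (fun y => r y t) = deriv (deriv (deriv (fun y => r y t))) := by
      rw [iteratedDeriv_succ, iteratedDeriv_succ, iteratedDeriv_succ, iteratedDeriv_zero]
    have ht' : HasDerivAt (fun s => r (x + t) s) (dt F (x + t, t)) t := hasDerivAt_dt hsm ht
    rw [ht'.deriv, d4, d3, d1, (Upat_deriv T (x + t) t).deriv, Upat_eq] at hpde
    unfold shift
    simp only
    rw [hpde]
    have e : x + t - t = x := by ring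
    rw [e]
    have hTt : T - t ≠ 0 := by have := ht.2; linarith [sub_pos.2 this]
    simp only [hF]
    field_simp
    ring

/-- the translation mode drifts at most like `o(√|log(T-t)|)` -/
lemma LSol.drift {T : ℝ} {G : ℝ × ℝ → ℝ} (h : LSol T G) (hT : 0 < T) :
    Tendsto (fun t => (-2 * bm T G 1 t) / √|Real.log (T - t)|) (𝓝[<] T) (𝓝 0) := by
  obtain ⟨C, hC, hb⟩ := h.modes.bounds hT
  have hmem : ∀ t ∈ Ico (T / 2) T, t ∈ Ioo 0 T := fun t ht => ⟨by linarith [ht.1], ht.2⟩
  have hcb : ContinuousOn (bm T G 2) (Ioo 0 T) := fun t ht =>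
    (h.hasDerivAt_bm 2 ht).continuousAt.continuousWithinAt
  refine slow_drift (p := fun t => 3 * bm T G 2 t) (t₁ := T / 2) (C := 60 * C) (by linarith)
    (fun t ht => h.hasDerivAt_b (hmem t ht))
    ((continuousOn_const.mul hcb).mono fun t ht => hmem t ht) (fun t ht => ?_)
  have hsub : ∀ s ∈ Icc (T / 2) t, s ∈ Ioo 0 T := fun s hs =>
    ⟨by linarith [hs.1], by linarith [hs.2, ht.2]⟩
  have hle : ∫ s in (T / 2)..t, (3 * bm T G 2 s) ^ 2 / (T - s) ≤
      ∫ s in (T / 2)..t, 60 * (Lin.Sd (fun n => am T G (n : ℤ)) (fun n => bm T G (n : ℤ)) 1 s /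
        (T - s)) := by
    apply intervalIntegral.integral_mono_on ht.1
    · apply ContinuousOn.intervalIntegrable
      rw [uIcc_of_le ht.1]
      apply ContinuousOn.div (((continuousOn_const.mul hcb).pow 2).mono hsub) (by fun_prop)
      intro s hs
      have := (hsub s hs).2
      linarith [sub_pos.2 this]
    · apply ContinuousOn.intervalIntegrable
      rw [uIcc_of_le ht.1]
      exact (continuousOn_const.mul (h.modes.cont_Sd 1)).mono hsub
    · intro s hs
      have he : 0 < T - s := by linarith [(hsub s hs).2]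
      rw [← mul_div_assoc]
      apply div_le_div_of_nonneg_right _ he.le
      simp only [Lin.Sd, Lin.Y, Lin.mu, Finset.sum_range_one]
      norm_num
      nlinarith [sq_nonneg (am T G 2 s), sq_nonneg (bm T G 2 s)]
  refine hle.trans ?_
  rw [intervalIntegral.integral_const_mul]
  exact mul_le_mul_of_nonneg_left (hb t ht 1).2 (by norm_num)

end

end Run7.h736
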