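import Mathlib

open scoped ContDiff

namespace Run7.h736

/-- `u` is a smooth real solution on `ℝ × [0,T)`, `2π`-periodic in `x`, of
`u_t = u_xxx + (u_x)^2 + u^2`. -/
structure IsClassicalSol (T : ℝ) (u : ℝ → ℝ → ℝ) : Prop where
  smooth : ContDiffOn ℝ ∞ (fun p : ℝ × ℝ => u p.1 p.2) (Set.univ ×ˢ Set.Ico 0 T)
  periodic : ∀ t ∈ Set.Ico 0 T, ∀ x, u (x + 2 * Real.pi) t = u x t
  pde : ∀ t ∈ Set.Ioo 0 T, ∀ x,
    deriv (fun s => u x s) t =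
      iteratedDeriv 3 (fun y => u y t) x + (deriv (fun y => u y t) x) ^ 2 + (u x t) ^ 2

end Run7.h736
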