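import Mathlib

open scoped Topology
open Set MeasureTheory Filter

namespace Run7.h736

noncomputable section

lemma fourier_coe_two_pi (n : ℤ) (x : ℝ) :
    (fourier n (x : AddCircle (2 * Real.pi)) : ℂ) =
      (Real.cos (n * x) : ℂ) + (Real.sin (n * x) : ℂ) * Complex.I := by
  rw [fourier_coe_apply]
  have e : (2 * (Real.pi : ℂ) * Complex.I * n * x / ((2 * Real.pi : ℝ) : ℂ)) =
      (((n : ℝ) * x : ℝ) : ℂ) * Complex.I := by
    have hpi : (Real.pi : ℂ) ≠ 0 := by exact_mod_cast Real.pi_ne_zero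
    push_cast
    field_simp
  rw [e, Complex.exp_mul_I]
  push_cast
  ring

/-- distance of a smooth periodic function to its low modes -/
lemma fourier_ineq {f : ℝ → ℝ} (hf : Continuous f) (hper : Function.Periodic f (2 * Real.pi))
    {P S : ℤ → ℝ} (hP : ∀ n, P n = ∫ x in (0:ℝ)..(2 * Real.pi), f x * Real.cos (n * x))
    (hS : ∀ n, S n = ∫ x in (0:ℝ)..(2 * Real.pi), f x * Real.sin (n * x))
    {w : ℤ → ℝ} (hw : Summable w) (hw0 : ∀ n, 0 ≤ w n)
    (hwb : ∀ n : ℤ, n ∉ ({-1, 0, 1} : Finset ℤ) → (|P n| + |S n|) / (2 * Real.pi) ≤ w n) (x : ℝ) :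
    |f x - (P 0 + 2 * P 1 * Real.cos x + 2 * S 1 * Real.sin x) / (2 * Real.pi)| ≤ ∑' n, w n := by
  have : Fact (0 < 2 * Real.pi) := ⟨by positivity⟩
  have hpi : (0 : ℝ) < 2 * Real.pi := by positivity
  set fc : ℝ → ℂ := fun x => (f x : ℂ) with hfc
  have hfcc : Continuous fc := Complex.continuous_ofReal.comp hf
  have hper' : Function.Periodic fc (2 * Real.pi) := fun y => by simp only [hfc]; rw [hper y]
  let F : C(AddCircle (2 * Real.pi), ℂ) :=
    ⟨hper'.lift, continuous_coinduced_dom.mpr hfcc⟩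
  have hFx : ∀ y : ℝ, F (y : AddCircle (2 * Real.pi)) = (f y : ℂ) := fun y => rfl
  have hcoef : ∀ n : ℤ, fourierCoeff F n =
      ((P n : ℂ) - (S n : ℂ) * Complex.I) / ((2 * Real.pi : ℝ) : ℂ) := by
    intro n
    rw [fourierCoeff_eq_intervalIntegral (F : AddCircle (2 * Real.pi) → ℂ) n 0, zero_add]
    have e : ∀ y : ℝ, (fourier (-n) (y : AddCircle (2 * Real.pi)) : ℂ) • F (y : AddCircle _) =
        ((f y * Real.cos (n * y) : ℝ) : ℂ) - ((f y * Real.sin (n * y) : ℝ) : ℂ) * Complex.I := by
      intro y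
      rw [fourier_coe_two_pi, hFx, smul_eq_mul]
      have e1 : ((-n : ℤ) : ℝ) * y = -(n * y) := by push_cast; ring
      rw [e1, Real.cos_neg, Real.sin_neg]
      push_cast
      ring
    rw [intervalIntegral.integral_congr (g := fun y : ℝ =>
      ((f y * Real.cos (n * y) : ℝ) : ℂ) - ((f y * Real.sin (n * y) : ℝ) : ℂ) * Complex.I)
      (fun y _ => e y)]
    have c1 : Continuous (fun y : ℝ => ((f y * Real.cos (n * y) : ℝ) : ℂ)) := by fun_prop
    have c2 : Continuous (fun y : ℝ => ((f y * Real.sin (n * y) : ℝ) : ℂ) * Complex.I) := by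
      fun_prop
    rw [intervalIntegral.integral_sub (c1.intervalIntegrable _ _) (c2.intervalIntegrable _ _),
      intervalIntegral.integral_mul_const, intervalIntegral.integral_ofReal,
      intervalIntegral.integral_ofReal, ← hP, ← hS]
    rw [Complex.real_smul]
    push_cast
    ring
  have hnorm : ∀ n : ℤ, ‖fourierCoeff F n‖ ≤ (|P n| + |S n|) / (2 * Real.pi) := by
    intro n
    rw [hcoef, norm_div, Complex.norm_real, Real.norm_of_nonneg hpi.le]
    apply div_le_div_of_nonneg_right _ hpi.le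
    refine (norm_sub_le _ _).trans ?_
    rw [norm_mul, Complex.norm_I, mul_one, Complex.norm_real, Complex.norm_real]
    exact le_of_eq rfl
  -- summability of the coefficients
  have hsum : Summable (fourierCoeff F) := by
    have h1 : Summable (fun n => w n + if n ∈ ({-1, 0, 1} : Finset ℤ) then
        ‖fourierCoeff F n‖ else 0) := by
      apply hw.add
      apply summable_of_ne_finset_zero (s := ({-1, 0, 1} : Finset ℤ))
      intro n hn
      rw [if_neg hn]
    refine Summable.of_norm_bounded h1 fun n => ?_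
    by_cases hn : n ∈ ({-1, 0, 1} : Finset ℤ)
    · rw [if_pos hn]
      linarith [hw0 n]
    · rw [if_neg hn, add_zero]
      exact (hnorm n).trans (hwb n hn)
  have hS1 := has_pointwise_sum_fourier_series_of_summable hsum (x : AddCircle (2 * Real.pi))
  rw [hFx] at hS1
  have hS2 : HasSum (fun n : ℤ => if n ∈ ({-1, 0, 1} : Finset ℤ) then
      fourierCoeff F n • (fourier n (x : AddCircle (2 * Real.pi)) : ℂ) else 0)
      (∑ n ∈ ({-1, 0, 1} : Finset ℤ), if n ∈ ({-1, 0, 1} : Finset ℤ) then
      fourierCoeff F n • (fourier n (x : AddCircle (2 * Real.pi)) : ℂ) else 0) := by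
    apply hasSum_sum_of_ne_finset_zero
    intro n hn
    rw [if_neg hn]
  have hS3 := hS1.sub hS2
  -- value of the low part
  have hPm : P (-1) = P 1 := by
    rw [hP, hP]
    congr 1; funext y
    push_cast
    rw [neg_mul, Real.cos_neg]
  have hSm : S (-1) = -S 1 := by
    rw [hS, hS, ← intervalIntegral.integral_neg]
    congr 1; funext y
    push_cast
    rw [neg_mul, Real.sin_neg]
    ring
  have hS0 : S 0 = 0 := by
    rw [hS]
    simp
  have hlow : (∑ n ∈ ({-1, 0, 1} : Finset ℤ), if n ∈ ({-1, 0, 1} : Finset ℤ) then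
      fourierCoeff F n • (fourier n (x : AddCircle (2 * Real.pi)) : ℂ) else 0) =
      (((P 0 + 2 * P 1 * Real.cos x + 2 * S 1 * Real.sin x) / (2 * Real.pi) : ℝ) : ℂ) := by
    rw [Finset.sum_insert (by decide), Finset.sum_insert (by decide), Finset.sum_singleton]
    simp only [Finset.mem_insert, Finset.mem_singleton, true_or, or_true, if_true]
    rw [hcoef, hcoef, hcoef, fourier_coe_two_pi, fourier_coe_two_pi, fourier_coe_two_pi, hPm, hSm,
      hS0]
    have e1 : (((-1 : ℤ) : ℝ) * x) = -x := by push_cast; ring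
    have e2 : (((0 : ℤ) : ℝ) * x) = 0 := by push_cast; ring
    have e3 : (((1 : ℤ) : ℝ) * x) = x := by push_cast; ring
    rw [e1, e2, e3, Real.cos_neg, Real.sin_neg, Real.cos_zero, Real.sin_zero]
    have hI : Complex.I * Complex.I = -1 := Complex.I_mul_I
    push_cast
    simp only [smul_eq_mul]
    have hpic : (Real.pi : ℂ) ≠ 0 := by exact_mod_cast Real.pi_ne_zero
    field_simp
    ring_nf
    rw [Complex.I_sq]
    ring
  rw [hlow, ← Complex.ofReal_sub] at hS3
  have h4 : ‖((f x - (P 0 + 2 * P 1 * Real.cos x + 2 * S 1 * Real.sin x) / (2 * Real.pi) : ℝ) : ℂ)‖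
      ≤ ∑' n, w n := by
    rw [← hS3.tsum_eq]
    refine tsum_of_norm_bounded hw.hasSum fun n => ?_
    by_cases hn : n ∈ ({-1, 0, 1} : Finset ℤ)
    · rw [if_pos hn, sub_self, norm_zero]
      exact hw0 n
    · rw [if_neg hn, sub_zero, norm_smul]
      have h5 : ‖(fourier n (x : AddCircle (2 * Real.pi)) : ℂ)‖ = 1 := by
        rw [fourier_coe_apply]
        have e : (2 * (Real.pi : ℂ) * Complex.I * n * x / ((2 * Real.pi : ℝ) : ℂ)) =
            (((n : ℝ) * x : ℝ) : ℂ) * Complex.I := by
          have hpi : (Real.pi : ℂ) ≠ 0 := by exact_mod_cast Real.pi_ne_zero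
          push_cast
          field_simp
        rw [e, Complex.norm_exp_ofReal_mul_I]
      rw [h5, mul_one]
      exact (hnorm n).trans (hwb n hn)
  rwa [Complex.norm_real] at h4

end

end Run7.h736
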