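import Pool.Agent.Run7.h736.Fou2
import Pool.Agent.Run7.h736.Inv

open scoped ContDiff Topology
open Set MeasureTheory Filter

namespace Run7.h736

noncomputable section

/-- if `q' = p → 0` then `q = α + o(T-t)` -/
lemma limit_rate {q p : ℝ → ℝ} {t₀ T : ℝ} (h0 : t₀ < T)
    (hd : ∀ t ∈ Ioo t₀ T, HasDerivAt q (p t) t) (hp : Tendsto p (𝓝[<] T) (𝓝 0)) :
    ∃ α : ℝ, Tendsto (fun t => (q t - α) / (T - t)) (𝓝[<] T) (𝓝 0) := by
  -- for every `η > 0` the function `q + η t` is eventually monotone, `q - η t` antitone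
  have key : ∀ η : ℝ, 0 < η → ∃ t₁ ∈ Ioo t₀ T, MonotoneOn (fun t => q t + η * t) (Ico t₁ T) ∧
      AntitoneOn (fun t => q t - η * t) (Ico t₁ T) := by
    intro η hη
    have h1 : ∀ᶠ t in 𝓝[<] T, |p t| < η := by
      have := hp.abs
      rw [abs_zero] at this
      exact this.eventually_lt_const hη
    obtain ⟨l, hl, hlev⟩ := (mem_nhdsLT_iff_exists_Ioo_subset' h0).1 h1
    set t₁ := (max l t₀ + T) / 2 with ht₁
    have hmx : max l t₀ < T := max_lt hl h0
    have h2 : t₁ < T := by rw [ht₁]; linarith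
    have h3 : max l t₀ < t₁ := by rw [ht₁]; linarith
    have h3l : l < t₁ := lt_of_le_of_lt (le_max_left _ _) h3
    have h30 : t₀ < t₁ := lt_of_le_of_lt (le_max_right _ _) h3
    have hmem : ∀ t ∈ Ico t₁ T, t ∈ Ioo t₀ T := fun t ht => ⟨by linarith [ht.1], ht.2⟩
    have hpb : ∀ t ∈ Ico t₁ T, |p t| < η := fun t ht => hlev ⟨by linarith [ht.1], ht.2⟩
    have hd1 : ∀ t ∈ Ico t₁ T, HasDerivAt (fun t => q t + η * t) (p t + η) t := by
      intro t ht
      have := (hd t (hmem t ht)).add ((hasDerivAt_id t).const_mul η)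
      refine HasDerivAt.congr_deriv this (by ring)
    have hd2 : ∀ t ∈ Ico t₁ T, HasDerivAt (fun t => q t - η * t) (p t - η) t := by
      intro t ht
      have := (hd t (hmem t ht)).sub ((hasDerivAt_id t).const_mul η)
      refine HasDerivAt.congr_deriv this (by ring)
    refine ⟨t₁, ⟨h30, h2⟩, ?_, ?_⟩
    · apply monotoneOn_of_deriv_nonneg (convex_Ico _ _)
      · exact fun t ht => (hd1 t ht).continuousAt.continuousWithinAt
      · intro t ht
        rw [interior_Ico] at ht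
        exact (hd1 t (Ioo_subset_Ico_self ht)).differentiableAt.differentiableWithinAt
      · intro t ht
        rw [interior_Ico] at ht
        rw [(hd1 t (Ioo_subset_Ico_self ht)).deriv]
        linarith [(abs_lt.1 (hpb t (Ioo_subset_Ico_self ht))).1]
    · apply antitoneOn_of_deriv_nonpos (convex_Ico _ _)
      · exact fun t ht => (hd2 t ht).continuousAt.continuousWithinAt
      · intro t ht
        rw [interior_Ico] at ht
        exact (hd2 t (Ioo_subset_Ico_self ht)).differentiableAt.differentiableWithinAt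
      · intro t ht
        rw [interior_Ico] at ht
        rw [(hd2 t (Ioo_subset_Ico_self ht)).deriv]
        linarith [(abs_lt.1 (hpb t (Ioo_subset_Ico_self ht))).2]
  obtain ⟨t₁, ht₁, hm, ha⟩ := key 1 one_pos
  obtain ⟨L, hL⟩ := Lin.mono_lim (C := q t₁ - 1 * t₁ + 2 * T + 2 * |T|) ht₁.2 hm fun t ht => by
    have h1 := ha ⟨le_rfl, ht₁.2⟩ ht ht.1
    simp only at h1 ⊢
    have h2 := ht.2
    have h3 := abs_nonneg T
    linarith
  have hid : Tendsto (fun t : ℝ => t) (𝓝[<] T) (𝓝 T) := nhdsWithin_le_nhds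
  have hq : Tendsto q (𝓝[<] T) (𝓝 (L - T)) := by
    refine (hL.sub hid).congr fun t => ?_
    ring
  refine ⟨L - T, ?_⟩
  rw [Metric.tendsto_nhds]
  intro η hη
  obtain ⟨t₂, ht₂, hm2, ha2⟩ := key (η / 2) (by linarith)
  have hev : ∀ᶠ t in 𝓝[<] T, t ∈ Ico t₂ T := Ico_mem_nhdsLT ht₂.2
  filter_upwards [hev] with t ht
  have hTt : 0 < T - t := by linarith [ht.2]
  -- pass to the limit in the monotonicity
  have hev2 : ∀ᶠ s in 𝓝[<] T, s ∈ Ico t T := Ico_mem_nhdsLT ht.2
  have u1 : q t + η / 2 * t ≤ (L - T) + η / 2 * T := by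
    refine ge_of_tendsto (hq.add (hid.const_mul (η / 2))) ?_
    filter_upwards [hev2] with s hs
    exact hm2 ht ⟨ht.1.trans hs.1, hs.2⟩ hs.1
  have u2 : (L - T) - η / 2 * T ≤ q t - η / 2 * t := by
    refine le_of_tendsto (hq.sub (hid.const_mul (η / 2))) ?_
    filter_upwards [hev2] with s hs
    exact ha2 ht ⟨ht.1.trans hs.1, hs.2⟩ hs.1
  rw [Real.dist_eq, sub_zero, abs_div, abs_of_pos hTt, div_lt_iff₀ hTt, abs_lt]
  constructor <;> nlinarith

/-- if `h' = -(h+p)/(T-t)` with `p → 0` then `h → 0` -/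
lemma stable_mode {h p : ℝ → ℝ} {t₀ T : ℝ} (h0 : t₀ < T)
    (hd : ∀ t ∈ Ioo t₀ T, HasDerivAt h (-(h t + p t) / (T - t)) t)
    (hp : Tendsto p (𝓝[<] T) (𝓝 0)) : Tendsto h (𝓝[<] T) (𝓝 0) := by
  rw [Metric.tendsto_nhds]
  intro η hη
  have h1 : ∀ᶠ t in 𝓝[<] T, |p t| < η / 2 := by
    have := hp.abs
    rw [abs_zero] at this
    exact this.eventually_lt_const (by linarith)
  obtain ⟨l, hl, hlev⟩ := (mem_nhdsLT_iff_exists_Ioo_subset' h0).1 h1
  set t₁ := (max l t₀ + T) / 2 with ht₁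
  have hmx : max l t₀ < T := max_lt hl h0
  have h2 : t₁ < T := by rw [ht₁]; linarith
  have h3 : max l t₀ < t₁ := by rw [ht₁]; linarith
  have h3l : l < t₁ := lt_of_le_of_lt (le_max_left _ _) h3
  have h30 : t₀ < t₁ := lt_of_le_of_lt (le_max_right _ _) h3
  have hmem : ∀ t ∈ Ico t₁ T, t ∈ Ioo t₀ T := fun t ht => ⟨by linarith [ht.1], ht.2⟩
  have hpb : ∀ t ∈ Ico t₁ T, |p t| < η / 2 := fun t ht => hlev ⟨by linarith [ht.1], ht.2⟩
  have hT1 : 0 < T - t₁ := by linarith
  have hinv : ∀ t ∈ Ico t₁ T, HasDerivAt (fun s => (T - s)⁻¹) ((T - t)⁻¹ ^ 2) t := by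
    intro t ht
    have hTt : T - t ≠ 0 := by have := ht.2; linarith [sub_pos.2 this]
    have e1 : HasDerivAt (fun s => T - s) (-1) t := by
      simpa using (hasDerivAt_id t).const_sub T
    refine HasDerivAt.congr_deriv (e1.inv hTt) ?_
    field_simp
  -- `(h ∓ η/2)/(T-t)` is monotone
  have hA : AntitoneOn (fun t => (h t - η / 2) * (T - t)⁻¹) (Ico t₁ T) := by
    have hdd : ∀ t ∈ Ico t₁ T, HasDerivAt (fun t => (h t - η / 2) * (T - t)⁻¹)
        (-(p t + η / 2) * (T - t)⁻¹ ^ 2) t := by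
      intro t ht
      have hTt : T - t ≠ 0 := by have := ht.2; linarith [sub_pos.2 this]
      have := ((hd t (hmem t ht)).sub_const (η / 2)).mul (hinv t ht)
      refine HasDerivAt.congr_deriv this ?_
      field_simp
      ring
    apply antitoneOn_of_deriv_nonpos (convex_Ico _ _)
    · exact fun t ht => (hdd t ht).continuousAt.continuousWithinAt
    · intro t ht
      rw [interior_Ico] at ht
      exact (hdd t (Ioo_subset_Ico_self ht)).differentiableAt.differentiableWithinAt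
    · intro t ht
      rw [interior_Ico] at ht
      rw [(hdd t (Ioo_subset_Ico_self ht)).deriv]
      have := (abs_lt.1 (hpb t (Ioo_subset_Ico_self ht))).1
      exact mul_nonpos_of_nonpos_of_nonneg (by linarith) (sq_nonneg _)
  have hM : MonotoneOn (fun t => (h t + η / 2) * (T - t)⁻¹) (Ico t₁ T) := by
    have hdd : ∀ t ∈ Ico t₁ T, HasDerivAt (fun t => (h t + η / 2) * (T - t)⁻¹)
        ((η / 2 - p t) * (T - t)⁻¹ ^ 2) t := by
      intro t ht
      have hTt : T - t ≠ 0 := by have := ht.2; linarith [sub_pos.2 this]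
      have := ((hd t (hmem t ht)).add_const (η / 2)).mul (hinv t ht)
      refine HasDerivAt.congr_deriv this ?_
      field_simp
      ring
    apply monotoneOn_of_deriv_nonneg (convex_Ico _ _)
    · exact fun t ht => (hdd t ht).continuousAt.continuousWithinAt
    · intro t ht
      rw [interior_Ico] at ht
      exact (hdd t (Ioo_subset_Ico_self ht)).differentiableAt.differentiableWithinAt
    · intro t ht
      rw [interior_Ico] at ht
      rw [(hdd t (Ioo_subset_Ico_self ht)).deriv]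
      have := (abs_lt.1 (hpb t (Ioo_subset_Ico_self ht))).2
      exact mul_nonneg (by linarith) (sq_nonneg _)
  have hlin : ∀ c : ℝ, Tendsto (fun t : ℝ => c * (T - t)) (𝓝[<] T) (𝓝 0) := by
    intro c
    have h5 : Tendsto (fun t : ℝ => c * (T - t)) (𝓝 T) (𝓝 (c * (T - T))) :=
      (continuous_const.mul (continuous_const.sub continuous_id)).tendsto T
    rw [sub_self, mul_zero] at h5
    exact h5.mono_left nhdsWithin_le_nhds
  have ev1 : ∀ᶠ t in 𝓝[<] T, (h t₁ - η / 2) * (T - t₁)⁻¹ * (T - t) < η / 2 :=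
    (hlin _).eventually_lt_const (by linarith)
  have ev2 : ∀ᶠ t in 𝓝[<] T, -(η / 2) < (h t₁ + η / 2) * (T - t₁)⁻¹ * (T - t) :=
    (hlin _).eventually_const_lt (by linarith)
  have ev3 : ∀ᶠ t in 𝓝[<] T, t ∈ Ico t₁ T := Ico_mem_nhdsLT h2
  filter_upwards [ev1, ev2, ev3] with t ht1 ht2 ht3
  have hTt : 0 < T - t := by linarith [ht3.2]
  have c1 := hA ⟨le_rfl, h2⟩ ht3 ht3.1
  have c2 := hM ⟨le_rfl, h2⟩ ht3 ht3.1
  simp only at c1 c2
  have d1 := mul_le_mul_of_nonneg_right c1 hTt.le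
  have d2 := mul_le_mul_of_nonneg_right c2 hTt.le
  rw [mul_assoc (h t - η / 2), inv_mul_cancel₀ hTt.ne', mul_one] at d1
  rw [mul_assoc (h t + η / 2), inv_mul_cancel₀ hTt.ne', mul_one] at d2
  rw [Real.dist_eq, sub_zero, abs_lt]
  constructor <;> linarith

end

end Run7.h736
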