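import Pool.Agent.Run7.h736.Fin

open scoped ContDiff Topology
open Set MeasureTheory Filter

namespace Run7.h736

noncomputable section

lemma abs_sum_le {x a b C : ℝ} (hx : 2 ≤ x) (h : Lin.mu x * (a ^ 2 + b ^ 2) ≤ C) :
    |a| + |b| ≤ √(8 / 3 * C) * x ^ (-(3 / 2) : ℝ) := by
  have hx0 : 0 < x := by linarith
  have h1 : 3 / 4 * x ^ 3 ≤ Lin.mu x := by
    unfold Lin.mu
    nlinarith [mul_nonneg hx0.le (show 0 ≤ x ^ 2 - 4 by nlinarith)]
  have h2 : 3 / 4 * x ^ 3 * (a ^ 2 + b ^ 2) ≤ C :=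
    (mul_le_mul_of_nonneg_right h1 (by positivity)).trans h
  have hC : 0 ≤ C := le_trans (by positivity) h2
  have h3 : (|a| + |b|) ^ 2 ≤ 2 * (a ^ 2 + b ^ 2) := by
    have := sq_abs a
    have := sq_abs b
    nlinarith [sq_nonneg (|a| - |b|)]
  have h4 : (√(8 / 3 * C) * x ^ (-(3 / 2) : ℝ)) ^ 2 = 8 / 3 * C / x ^ 3 := by
    rw [mul_pow, Real.sq_sqrt (by positivity), ← Real.rpow_natCast (x ^ (-(3 / 2) : ℝ)) 2,
      ← Real.rpow_mul hx0.le]
    have e : (-(3 / 2) : ℝ) * ((2 : ℕ) : ℝ) = -((3 : ℕ) : ℝ) := by norm_num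
    rw [e, Real.rpow_neg hx0.le, Real.rpow_natCast]
    rfl
  have h5 : 2 * (a ^ 2 + b ^ 2) ≤ 8 / 3 * C / x ^ 3 := by
    rw [le_div_iff₀ (by positivity)]
    nlinarith
  have h6 : (|a| + |b|) ^ 2 ≤ (√(8 / 3 * C) * x ^ (-(3 / 2) : ℝ)) ^ 2 := by
    rw [h4]; exact h3.trans h5
  exact (le_abs_self _).trans (abs_le_of_sq_le_sq h6 (by positivity))

lemma Pc_neg (G : ℝ × ℝ → ℝ) (n : ℤ) (t : ℝ) : Pc G (-n) t = Pc G n t := by
  unfold Pc
  congr 1; funext x
  push_cast
  rw [neg_mul, Real.cos_neg]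

lemma Sc_neg (G : ℝ × ℝ → ℝ) (n : ℤ) (t : ℝ) : Sc G (-n) t = -Sc G n t := by
  unfold Sc
  rw [← intervalIntegral.integral_neg]
  congr 1; funext x
  push_cast
  rw [neg_mul, Real.sin_neg]
  ring

lemma abs_am_natAbs (T : ℝ) (G : ℝ × ℝ → ℝ) (n : ℤ) (t : ℝ) :
    |am T G n t| = |am T G (n.natAbs : ℤ) t| := by
  rcases Int.natAbs_eq n with h | h
  · rw [← h]
  · conv_lhs => rw [h]
    unfold am
    rw [Pc_neg]

lemma abs_bm_natAbs (T : ℝ) (G : ℝ × ℝ → ℝ) (n : ℤ) (t : ℝ) :
    |bm T G n t| = |bm T G (n.natAbs : ℤ) t| := by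
  rcases Int.natAbs_eq n with h | h
  · rw [← h]
  · conv_lhs => rw [h]
    unfold bm
    rw [Sc_neg, ← abs_neg]
    congr 1
    ring

/-- the weights of the high modes -/
def wn (T : ℝ) (G : ℝ × ℝ → ℝ) (t : ℝ) (n : ℤ) : ℝ :=
  if n ∈ ({-1, 0, 1} : Finset ℤ) then 0 else |am T G n t| + |bm T G n t|

lemma wn_nonneg (T : ℝ) (G : ℝ × ℝ → ℝ) (t : ℝ) (n : ℤ) : 0 ≤ wn T G t n := by
  unfold wn
  split_ifs
  · exact le_rfl
  · positivity

lemma natAbs_of_not_mem {n : ℤ} (hn : n ∉ ({-1, 0, 1} : Finset ℤ)) :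
    ∃ k : ℕ, n.natAbs = k + 2 := by
  simp only [Finset.mem_insert, Finset.mem_singleton, not_or] at hn
  refine ⟨n.natAbs - 2, ?_⟩
  omega

namespace LSol

variable {T : ℝ} {G : ℝ × ℝ → ℝ}

lemma exists_bound (h : LSol T G) (hT : 0 < T) : ∃ C : ℝ, 0 ≤ C ∧ ∀ t ∈ Ico (T / 2) T,
    ∀ n : ℤ, wn T G t n ≤ C * |(n : ℝ)| ^ (-(3 / 2) : ℝ) := by
  obtain ⟨C, hC, hb⟩ := h.modes.bounds hT
  refine ⟨√(8 / 3 * C), Real.sqrt_nonneg _, fun t ht n => ?_⟩
  unfold wn
  split_ifs with hn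
  · exact mul_nonneg (Real.sqrt_nonneg _) (Real.rpow_nonneg (abs_nonneg _) _)
  · obtain ⟨k, hk⟩ := natAbs_of_not_mem hn
    have h1 : Lin.Y (fun n => am T G (n : ℤ)) (fun n => bm T G (n : ℤ)) k t ≤ C := by
      refine le_trans ?_ (hb t ht (k + 1)).1
      exact Finset.single_le_sum (f := fun k => Lin.Y (fun n => am T G (n : ℤ))
        (fun n => bm T G (n : ℤ)) k t) (fun i _ => Lin.Y_nonneg i t)
        (Finset.mem_range.2 (Nat.lt_succ_self k))
    have hk0 := Nat.cast_nonneg (α := ℝ) k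
    have h2 := abs_sum_le (x := (k : ℝ) + 2) (by linarith) h1
    have e : |(n : ℝ)| = (k : ℝ) + 2 := by
      have : ((n.natAbs : ℤ) : ℝ) = |(n : ℝ)| := by
        rw [Int.natCast_natAbs, Int.cast_abs]
      rw [← this, hk]
      push_cast; ring
    rw [abs_am_natAbs, abs_bm_natAbs, hk, e]
    exact h2

lemma tendsto_wn (h : LSol T G) (hT : 0 < T) (n : ℤ) :
    Tendsto (fun t => wn T G t n) (𝓝[<] T) (𝓝 0) := by
  unfold wn
  split_ifs with hn
  · exact tendsto_const_nhds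
  · obtain ⟨k, hk⟩ := natAbs_of_not_mem hn
    have hY := h.modes.Y_tendsto hT k
    have hk0 := Nat.cast_nonneg (α := ℝ) k
    have hmu : 1 ≤ Lin.mu ((k : ℝ) + 2) := by
      unfold Lin.mu
      nlinarith [mul_nonneg hk0 hk0, mul_nonneg (mul_nonneg hk0 hk0) hk0]
    have hYl : Tendsto (fun t => √(2 * Lin.Y (fun n => am T G (n : ℤ))
        (fun n => bm T G (n : ℤ)) k t)) (𝓝[<] T) (𝓝 0) := by
      have := (hY.const_mul 2).sqrt
      simpa using this
    refine squeeze_zero (fun t => by positivity) (fun t => ?_) hYl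
    rw [abs_am_natAbs, abs_bm_natAbs, hk]
    apply Real.le_sqrt_of_sq_le
    have h1 : Lin.Y (fun n => am T G (n : ℤ)) (fun n => bm T G (n : ℤ)) k t =
      Lin.mu ((k : ℝ) + 2) * (am T G ((k + 2 : ℕ) : ℤ) t ^ 2 + bm T G ((k + 2 : ℕ) : ℤ) t ^ 2) := rfl
    rw [h1]
    set A := am T G ((k + 2 : ℕ) : ℤ) t
    set B := bm T G ((k + 2 : ℕ) : ℤ) t
    have h3 : (|A| + |B|) ^ 2 ≤ 2 * (A ^ 2 + B ^ 2) := by
      have := sq_abs A
      have := sq_abs B
      nlinarith [sq_nonneg (|A| - |B|)]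
    have h4 : A ^ 2 + B ^ 2 ≤ Lin.mu ((k : ℝ) + 2) * (A ^ 2 + B ^ 2) :=
      le_mul_of_one_le_left (by positivity) hmu
    linarith

lemma summable_wn (h : LSol T G) (hT : 0 < T) {t : ℝ} (ht : t ∈ Ico (T / 2) T) :
    Summable (wn T G t) := by
  obtain ⟨C, hC, hb⟩ := h.exists_bound hT
  refine Summable.of_nonneg_of_le (wn_nonneg T G t) (hb t ht) ?_
  exact (Real.summable_abs_int_rpow (by norm_num)).mul_left C

lemma tendsto_tsum (h : LSol T G) (hT : 0 < T) :
    Tendsto (fun t => ∑' n, wn T G t n) (𝓝[<] T) (𝓝 0) := by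
  obtain ⟨C, hC, hb⟩ := h.exists_bound hT
  have hs : Summable (fun n : ℤ => C * |(n : ℝ)| ^ (-(3 / 2) : ℝ)) :=
    (Real.summable_abs_int_rpow (by norm_num)).mul_left C
  have := tendsto_tsum_of_dominated_convergence (𝓕 := 𝓝[<] T) (f := fun t n => wn T G t n)
    (g := fun _ => (0 : ℝ)) hs (fun n => h.tendsto_wn hT n) (by
      have hev : ∀ᶠ t in 𝓝[<] T, t ∈ Ico (T / 2) T := Ico_mem_nhdsLT (by linarith)
      filter_upwards [hev] with t ht n
      rw [Real.norm_of_nonneg (wn_nonneg T G t n)]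
      exact hb t ht n)
  simpa using this

/-- the high modes are uniformly small -/
lemma high_le (h : LSol T G) (hT : 0 < T) {t : ℝ} (ht : t ∈ Ico (T / 2) T) (x : ℝ) :
    |(T - t) * G (x, t) - (am T G 0 t + 2 * am T G 1 t * Real.cos x -
      2 * bm T G 1 t * Real.sin x)| ≤ ∑' n, wn T G t n := by
  have htI : t ∈ Ioo 0 T := ⟨by linarith [ht.1], ht.2⟩
  have hc := h.sp.cont htI
  have hcf : Continuous (fun x => (T - t) * G (x, t)) := continuous_const.mul hc
  have hpi : (0 : ℝ) < 2 * Real.pi := by positivity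
  have key := fourier_ineq (f := fun x => (T - t) * G (x, t)) hcf
    (fun y => by simp only [h.sp.per t htI y])
    (P := fun n => (T - t) * Pc G n t) (S := fun n => (T - t) * Sc G n t)
    (fun n => by
      simp only [Pc]
      rw [← intervalIntegral.integral_const_mul]
      congr 1; funext y; ring)
    (fun n => by
      simp only [Sc]
      rw [← intervalIntegral.integral_const_mul]
      congr 1; funext y; ring)
    (h.summable_wn hT ht) (wn_nonneg T G t) (fun n hn => by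
      unfold wn am bm
      rw [if_neg hn, abs_neg, abs_div, abs_div, abs_of_pos hpi, add_div]) x
  refine le_trans (le_of_eq ?_) key
  congr 1
  unfold am bm
  field_simp
  ring

/-- asymptotics of the linearised flow in the moving frame -/
theorem main (h : LSol T G) (hT : 0 < T) : ∃ α : ℝ,
    Tendsto (fun t => ⨆ x, |(T - t) * G (x, t) - α / (T - t) * ((1 + Real.cos x) / 2) -
      (-2 * bm T G 1 t) * Real.sin x|) (𝓝[<] T) (𝓝 0) := by
  have hpi : (0 : ℝ) < 2 * Real.pi := by positivity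
  -- the second mode tends to zero
  have hw2 := h.tendsto_wn hT 2
  have e2 : ∀ t, wn T G t 2 = |am T G 2 t| + |bm T G 2 t| := fun t => by
    unfold wn; rw [if_neg (by decide)]
  simp only [e2] at hw2
  have ha2 : Tendsto (fun t => am T G 2 t) (𝓝[<] T) (𝓝 0) := by
    rw [tendsto_zero_iff_abs_tendsto_zero]
    exact squeeze_zero (fun t => abs_nonneg _) (fun t => le_add_of_nonneg_right (abs_nonneg _)) hw2
  have ham0 : ∀ t ∈ Ioo 0 T, HasDerivAt (am T G 0) (2 * am T G 1 t / (T - t)) t := by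
    intro t ht
    have := h.hasDerivAt_am 0 ht
    refine HasDerivAt.congr_deriv this ?_
    have e : am T G (0 - 1) t = am T G 1 t := by
      unfold am
      rw [zero_sub, Pc_neg]
    rw [e]
    simp only [zero_add]
    push_cast
    ring
  have ham1 : ∀ t ∈ Ioo 0 T, HasDerivAt (am T G 1)
      ((1 / 2 * am T G 0 t + 3 / 2 * am T G 2 t) / (T - t)) t := by
    intro t ht
    have := h.hasDerivAt_am 1 ht
    refine HasDerivAt.congr_deriv this ?_
    have e1 : (1 : ℤ) - 1 = 0 := rfl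
    have e2 : (1 : ℤ) + 1 = 2 := rfl
    rw [e1, e2]
    push_cast
    ring
  -- the unstable mode
  obtain ⟨α, hα⟩ := limit_rate (q := fun t => (T - t) * (am T G 0 t + 2 * am T G 1 t))
    (p := fun t => 3 * am T G 2 t) (t₀ := 0) hT (fun t ht => by
      have hTt : T - t ≠ 0 := by have := ht.2; linarith [sub_pos.2 this]
      have e1 : HasDerivAt (fun s => T - s) (-1) t := by
        simpa using (hasDerivAt_id t).const_sub T
      have := e1.mul ((ham0 t ht).add ((ham1 t ht).const_mul 2))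
      refine HasDerivAt.congr_deriv this ?_
      simp only [Pi.add_apply]
      field_simp
      ring) (by simpa using ha2.const_mul 3)
  -- the stable mode
  have hst := stable_mode (h := fun t => am T G 0 t - 2 * am T G 1 t)
    (p := fun t => 3 * am T G 2 t) (t₀ := 0) hT (fun t ht => by
      have hTt : T - t ≠ 0 := by have := ht.2; linarith [sub_pos.2 this]
      have := (ham0 t ht).sub ((ham1 t ht).const_mul 2)
      refine HasDerivAt.congr_deriv this ?_
      field_simp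
      ring) (by simpa using ha2.const_mul 3)
  refine ⟨α, ?_⟩
  have hbound : Tendsto (fun t => (∑' n, wn T G t n) +
      |((T - t) * (am T G 0 t + 2 * am T G 1 t) - α) / (T - t)| +
      |am T G 0 t - 2 * am T G 1 t|) (𝓝[<] T) (𝓝 0) := by
    have := ((h.tendsto_tsum hT).add hα.abs).add hst.abs
    simpa using this
  have hev : ∀ᶠ t in 𝓝[<] T, t ∈ Ico (T / 2) T := Ico_mem_nhdsLT (by linarith)
  refine squeeze_zero' (Eventually.of_forall fun t => ?_) ?_ hbound
  · exact Real.iSup_nonneg fun x => abs_nonneg _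
  · filter_upwards [hev] with t ht
    apply ciSup_le
    intro x
    have hTt : 0 < T - t := by linarith [ht.2]
    have h1 := h.high_le hT ht x
    have hc1 := Real.neg_one_le_cos x
    have hc2 := Real.cos_le_one x
    set g := ((T - t) * (am T G 0 t + 2 * am T G 1 t) - α) / (T - t) with hg
    set hh := am T G 0 t - 2 * am T G 1 t with hhh
    have e : (T - t) * G (x, t) - α / (T - t) * ((1 + Real.cos x) / 2) -
        (-2 * bm T G 1 t) * Real.sin x =
        ((T - t) * G (x, t) - (am T G 0 t + 2 * am T G 1 t * Real.cos x -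
          2 * bm T G 1 t * Real.sin x)) + g * ((1 + Real.cos x) / 2) +
          hh * ((1 - Real.cos x) / 2) := by
      rw [hg, hhh]
      field_simp
      ring
    rw [e]
    have h2 : |g * ((1 + Real.cos x) / 2)| ≤ |g| := by
      rw [abs_mul, abs_of_nonneg (show 0 ≤ (1 + Real.cos x) / 2 by linarith)]
      exact mul_le_of_le_one_right (abs_nonneg _) (by linarith)
    have h3 : |hh * ((1 - Real.cos x) / 2)| ≤ |hh| := by
      rw [abs_mul, abs_of_nonneg (show 0 ≤ (1 - Real.cos x) / 2 by linarith)]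
      exact mul_le_of_le_one_right (abs_nonneg _) (by linarith)
    refine (abs_add_le _ _).trans ?_
    refine add_le_add ((abs_add_le _ _).trans ?_) h3
    exact add_le_add h1 h2

lemma hasDerivAt_b (h : LSol T G) {t : ℝ} (ht : t ∈ Ioo 0 T) :
    HasDerivAt (fun t => -2 * bm T G 1 t) (-(3 * bm T G 2 t) / (T - t)) t := by
  have := (h.hasDerivAt_bm 1 ht).const_mul (-2 : ℝ)
  refine HasDerivAt.congr_deriv this ?_
  have e0 : bm T G 0 t = 0 := by
    unfold bm Sc
    simp
  have e1 : (1 : ℤ) - 1 = 0 := rfl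
  have e2 : (1 : ℤ) + 1 = 2 := rfl
  rw [e1, e2, e0]
  push_cast
  ring

lemma tendsto_bm2 (h : LSol T G) (hT : 0 < T) :
    Tendsto (fun t => bm T G 2 t) (𝓝[<] T) (𝓝 0) := by
  have hw2 := h.tendsto_wn hT 2
  have e2 : ∀ t, wn T G t 2 = |am T G 2 t| + |bm T G 2 t| := fun t => by
    unfold wn; rw [if_neg (by decide)]
  simp only [e2] at hw2
  rw [tendsto_zero_iff_abs_tendsto_zero]
  exact squeeze_zero (fun t => abs_nonneg _) (fun t => le_add_of_nonneg_left (abs_nonneg _)) hw2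

end LSol

end

end Run7.h736
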