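import Pool.Agent.Run7.h736.LinH

open Set Filter MeasureTheory
open scoped Topology

namespace Run7.h736.Lin

noncomputable section

lemma mono_lim {f : ℝ → ℝ} {t₁ T C : ℝ} (h : t₁ < T) (hm : MonotoneOn f (Ico t₁ T))
    (hb : ∀ t ∈ Ico t₁ T, f t ≤ C) : ∃ L : ℝ, Tendsto f (𝓝[<] T) (𝓝 L) := by
  set g : ℝ → ℝ := fun t => f (max t₁ t) with hg
  have hmem : ∀ t ∈ Iio T, max t₁ t ∈ Ico t₁ T := fun t ht => ⟨le_max_left _ _, max_lt h ht⟩
  have h1 : MonotoneOn g (Iio T) := by
    intro x hx y hy hxy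
    exact hm (hmem x hx) (hmem y hy) (max_le_max le_rfl hxy)
  have h2 : BddAbove (g '' Iio T) := by
    refine ⟨C, ?_⟩
    rintro _ ⟨x, hx, rfl⟩
    exact hb _ (hmem x hx)
  refine ⟨_, (h1.tendsto_nhdsLT h2).congr' ?_⟩
  have h3 : ∀ᶠ t in 𝓝[<] T, t ∈ Ico t₁ T := Ico_mem_nhdsLT h
  filter_upwards [h3] with t ht
  rw [hg]
  simp only
  rw [max_eq_right ht.1]

/-- Barbalat's lemma in logarithmic time -/
lemma barbalat {g g' : ℝ → ℝ} {t₁ T K B C : ℝ} (h : t₁ < T) (hK : 0 ≤ K) (hB : 0 < B)
    (hd : ∀ t ∈ Ico t₁ T, HasDerivAt g (g' t) t) (hg0 : ∀ t ∈ Ico t₁ T, 0 ≤ g t)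
    (hgB : ∀ t ∈ Ico t₁ T, g t ≤ B) (hg' : ∀ t ∈ Ico t₁ T, |g' t| ≤ K / (T - t))
    (hC : ∀ t ∈ Ico t₁ T, ∫ s in t₁..t, g s / (T - s) ≤ C) :
    Tendsto g (𝓝[<] T) (𝓝 0) := by
  have hcont : ContinuousOn g (Ico t₁ T) := fun t ht => (hd t ht).continuousAt.continuousWithinAt
  have hcont2 : ContinuousOn (fun s => g s / (T - s)) (Ico t₁ T) := by
    apply hcont.div (by fun_prop)
    intro s hs
    have := hs.2
    linarith
  set J : ℝ → ℝ := fun t => ∫ s in t₁..t, g s / (T - s) with hJ
  -- derivative of J inside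
  have hJd : ∀ t ∈ Ioo t₁ T, HasDerivAt J (g t / (T - t)) t := by
    intro t ht
    apply intervalIntegral.integral_hasDerivAt_right
    · apply ContinuousOn.intervalIntegrable
      rw [uIcc_of_le ht.1.le]
      exact hcont2.mono fun r hr => ⟨hr.1, lt_of_le_of_lt hr.2 ht.2⟩
    · exact ContinuousOn.stronglyMeasurableAtFilter isOpen_Ioo
        (hcont2.mono Ioo_subset_Ico_self) t ht
    · exact (hcont2.mono Ioo_subset_Ico_self).continuousAt (isOpen_Ioo.mem_nhds ht)
  set t₂ := (t₁ + T) / 2 with ht₂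
  have h12 : t₁ < t₂ := by rw [ht₂]; linarith
  have h2T : t₂ < T := by rw [ht₂]; linarith
  have hsub : ∀ t ∈ Ico t₂ T, t ∈ Ioo t₁ T := fun t ht => ⟨by linarith [ht.1], ht.2⟩
  have hsub' : ∀ t ∈ Ico t₂ T, t ∈ Ico t₁ T := fun t ht => ⟨by linarith [ht.1], ht.2⟩
  -- J is monotone
  have hJm : MonotoneOn J (Ico t₂ T) := by
    apply monotoneOn_of_deriv_nonneg (convex_Ico _ _)
    · exact fun t ht => (hJd t (hsub t ht)).continuousAt.continuousWithinAt
    · intro t ht
      rw [interior_Ico] at ht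
      exact (hJd t (hsub t (Ioo_subset_Ico_self ht))).differentiableAt.differentiableWithinAt
    · intro t ht
      rw [interior_Ico] at ht
      have ht' := Ioo_subset_Ico_self ht
      rw [(hJd t (hsub t ht')).deriv]
      exact div_nonneg (hg0 t (hsub' t ht')) (by linarith [ht.2])
  obtain ⟨LJ, hLJ⟩ := mono_lim h2T hJm fun t ht => hC t (hsub' t ht)
  have hHd : ∀ t ∈ Ico t₂ T, HasDerivAt (fun t => g t ^ 2 + 2 * K * J t)
      (2 * g t * g' t + 2 * K * (g t / (T - t))) t := by
    intro t ht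
    have h1 : HasDerivAt (fun t => g t ^ 2) (2 * g t * g' t) t := by
      refine HasDerivAt.congr_deriv ((hd t (hsub' t ht)).pow 2) ?_
      push_cast; ring
    exact h1.add ((hJd t (hsub t ht)).const_mul (2 * K))
  have hHm : MonotoneOn (fun t => g t ^ 2 + 2 * K * J t) (Ico t₂ T) := by
    apply monotoneOn_of_deriv_nonneg (convex_Ico _ _)
    · exact fun t ht => (hHd t ht).continuousAt.continuousWithinAt
    · intro t ht
      rw [interior_Ico] at ht
      exact (hHd t (Ioo_subset_Ico_self ht)).differentiableAt.differentiableWithinAt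
    · intro t ht
      rw [interior_Ico] at ht
      have ht' := Ioo_subset_Ico_self ht
      rw [(hHd t ht').deriv]
      have h1 := hg0 t (hsub' t ht')
      have h2 := (abs_le.1 (hg' t (hsub' t ht'))).1
      have h3 := mul_le_mul_of_nonneg_left h2 h1
      have h4 : g t * (K / (T - t)) = K * (g t / (T - t)) := by ring
      nlinarith
  obtain ⟨LH, hLH⟩ := mono_lim (C := B ^ 2 + 2 * K * C) h2T hHm fun t ht => by
    have h1 := hg0 t (hsub' t ht)
    have h2 := hgB t (hsub' t ht)
    have h3 := mul_le_mul_of_nonneg_left (hC t (hsub' t ht)) (show 0 ≤ 2 * K by positivity)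
    have h4 : g t ^ 2 ≤ B ^ 2 := pow_le_pow_left₀ h1 h2 2
    simp only [hJ]
    linarith
  have hsq : Tendsto (fun t => g t ^ 2) (𝓝[<] T) (𝓝 (LH - 2 * K * LJ)) := by
    have := hLH.sub (hLJ.const_mul (2 * K))
    refine this.congr fun t => ?_
    ring
  set L := LH - 2 * K * LJ with hL
  have hL0 : 0 ≤ L := ge_of_tendsto' hsq fun t => sq_nonneg _
  rcases hL0.eq_or_lt with h0 | hpos
  · -- limit of g² is zero
    rw [← h0] at hsq
    have := hsq.sqrt
    rw [Real.sqrt_zero] at this
    refine this.congr' ?_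
    have h3 : ∀ᶠ t in 𝓝[<] T, t ∈ Ico t₁ T := Ico_mem_nhdsLT h
    filter_upwards [h3] with t ht
    exact Real.sqrt_sq (hg0 t ht)
  · exfalso
    set c := L / (2 * B) with hc
    have hc0 : 0 < c := by positivity
    have h3 : ∀ᶠ t in 𝓝[<] T, L / 2 < g t ^ 2 := hsq.eventually_const_lt (by linarith)
    obtain ⟨l, hl, hlev⟩ := (mem_nhdsLT_iff_exists_Ioo_subset' h2T).1 h3
    set t₃ := (max l t₂ + T) / 2 with ht₃
    have hmx : max l t₂ < T := max_lt hl h2T
    have h3T : t₃ < T := by rw [ht₃]; linarith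
    have hl3 : max l t₂ < t₃ := by rw [ht₃]; linarith
    have hl3' : l < t₃ := lt_of_le_of_lt (le_max_left _ _) hl3
    have h23 : t₂ < t₃ := lt_of_le_of_lt (le_max_right _ _) hl3
    have hge : ∀ t ∈ Ico t₃ T, c ≤ g t := by
      intro t ht
      have h4 : L / 2 < g t ^ 2 := hlev ⟨by linarith [ht.1], ht.2⟩
      have ht1 : t ∈ Ico t₁ T := ⟨by linarith [ht.1], ht.2⟩
      have h5 := hg0 t ht1
      have h6 := hgB t ht1
      rw [hc, div_le_iff₀ (by positivity)]
      nlinarith
    have hKd : ∀ t ∈ Ico t₃ T, HasDerivAt (fun t => J t + c * Real.log (T - t))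
        (g t / (T - t) + c * (-1 / (T - t))) t := by
      intro t ht
      have ht1 : t ∈ Ico t₂ T := ⟨by linarith [ht.1], ht.2⟩
      have he : HasDerivAt (fun s => T - s) (-1) t := by
        simpa using (hasDerivAt_id t).const_sub T
      have hne : T - t ≠ 0 := by linarith [ht.2, sub_pos.2 ht.2]
      exact (hJd t (hsub t ht1)).add ((he.log hne).const_mul c)
    have hKm : MonotoneOn (fun t => J t + c * Real.log (T - t)) (Ico t₃ T) := by
      apply monotoneOn_of_deriv_nonneg (convex_Ico _ _)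
      · exact fun t ht => (hKd t ht).continuousAt.continuousWithinAt
      · intro t ht
        rw [interior_Ico] at ht
        exact (hKd t (Ioo_subset_Ico_self ht)).differentiableAt.differentiableWithinAt
      · intro t ht
        rw [interior_Ico] at ht
        have ht' := Ioo_subset_Ico_self ht
        rw [(hKd t ht').deriv]
        have h4 := hge t ht'
        have h5 : 0 < T - t := by linarith [ht.2]
        have e : g t / (T - t) + c * (-1 / (T - t)) = (g t - c) / (T - t) := by ring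
        rw [e]
        exact div_nonneg (by linarith) h5.le
    -- choose t very close to T
    set R := (C - J t₃ - c * Real.log (T - t₃)) / c + 1 with hR
    have htend : ∀ᶠ t in 𝓝[<] T, Real.log (T - t) < -R := by
      have h6 : Tendsto (fun t : ℝ => T - t) (𝓝[<] T) (𝓝[>] 0) := by
        apply tendsto_nhdsWithin_of_tendsto_nhds_of_eventually_within
        · have : Tendsto (fun t : ℝ => T - t) (𝓝 T) (𝓝 (T - T)) :=
            (continuous_const.sub continuous_id).tendsto T
          rw [sub_self] at this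
          exact this.mono_left nhdsWithin_le_nhds
        · filter_upwards [self_mem_nhdsWithin] with t ht
          have : t < T := ht
          exact sub_pos.2 this
      exact (Real.tendsto_log_nhdsGT_zero.comp h6).eventually_lt_atBot (-R)
    have h7 : ∀ᶠ t in 𝓝[<] T, t ∈ Ico t₃ T := Ico_mem_nhdsLT h3T
    obtain ⟨t, ht1, ht2⟩ := (htend.and h7).exists
    have h8 := hKm ⟨le_rfl, h3T⟩ ht2 ht2.1
    simp only at h8
    have h9 : J t ≤ C := hC t ⟨by linarith [ht2.1], ht2.2⟩
    have h10 : c * Real.log (T - t) < c * (-R) := mul_lt_mul_of_pos_left ht1 hc0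
    have h11 : c * (-R) = -(C - J t₃ - c * Real.log (T - t₃)) - c := by
      rw [hR]; field_simp; ring
    linarith

namespace Modes

variable {T : ℝ} {a b : ℕ → ℝ → ℝ}

lemma G_le {k : ℕ} (t : ℝ) :
    |G a b (k + 1) t| ≤ ((k : ℝ) + 3) * (Y a b k t + Y a b (k + 1) t) := by
  have hk := Nat.cast_nonneg (α := ℝ) k
  have hx : (2 : ℝ) ≤ (k : ℝ) + 2 := by linarith
  have h := cross1 hx (N1 := a (k + 2) t ^ 2 + b (k + 2) t ^ 2)
    (N2 := a (k + 3) t ^ 2 + b (k + 3) t ^ 2) (by positivity) (by positivity)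
    (cs_dot (a (k + 2) t) (b (k + 2) t) (a (k + 3) t) (b (k + 3) t))
  have e1 : G a b (k + 1) t = m1 ((k : ℝ) + 2) *
      (a (k + 2) t * a (k + 3) t + b (k + 2) t * b (k + 3) t) := by
    unfold G
    congr 2
    push_cast; ring
  have e2 : Y a b (k + 1) t = mu ((k : ℝ) + 2 + 1) * (a (k + 3) t ^ 2 + b (k + 3) t ^ 2) := by
    unfold Y
    congr 2
    push_cast; ring
  have hY1 := Y_nonneg (a := a) (b := b) k t
  have hY2 := Y_nonneg (a := a) (b := b) (k + 1) t
  rw [e1]
  refine h.trans ?_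
  rw [← e2]
  change 1 / 2 * ((k : ℝ) + 2 + 1 / 2) * (Y a b k t + Y a b (k + 1) t) ≤ _
  nlinarith

/-- every high mode tends to zero -/
lemma Y_tendsto (h : Modes T a b) (hT : 0 < T) (k : ℕ) :
    Tendsto (Y a b k) (𝓝[<] T) (𝓝 0) := by
  obtain ⟨C, hC, hb⟩ := h.bounds hT
  have hYC : ∀ t ∈ Ico (T / 2) T, ∀ j, Y a b j t ≤ C := by
    intro t ht j
    refine le_trans ?_ (hb t ht (j + 1)).1
    exact Finset.single_le_sum (f := fun k => Y a b k t) (fun i _ => Y_nonneg i t)
      (Finset.mem_range.2 (Nat.lt_succ_self j))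
  have hmem : ∀ t ∈ Ico (T / 2) T, t ∈ Ioo 0 T := fun t ht => ⟨by linarith [ht.1], ht.2⟩
  have hk := Nat.cast_nonneg (α := ℝ) k
  set K := 2 * (((k : ℝ) + 3) * (2 * C)) with hKdef
  have hGb : ∀ t ∈ Ico (T / 2) T, ∀ j : ℕ, j ≤ k + 1 →
      |G a b j t| ≤ ((k : ℝ) + 3) * (2 * C) := by
    intro t ht j hj
    rcases Nat.eq_zero_or_pos j with rfl | hpos
    · rw [G_zero, abs_zero]; positivity
    · obtain ⟨i, rfl⟩ : ∃ i, j = i + 1 := ⟨j - 1, by omega⟩
      refine (G_le t).trans ?_
      have h1 := hYC t ht i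
      have h2 := hYC t ht (i + 1)
      have h3 : (i : ℝ) ≤ k := by exact_mod_cast (by omega : i ≤ k)
      have h4 := Y_nonneg (a := a) (b := b) i t
      have h5 := Y_nonneg (a := a) (b := b) (i + 1) t
      exact mul_le_mul (by linarith) (by linarith) (by linarith) (by positivity)
  refine barbalat (K := K) (B := C + 1) (C := 10 * ((k : ℝ) + 2) ^ 2 * C)
    (t₁ := T / 2) (by linarith) (by positivity) (by linarith)
    (fun t ht => h.hasDerivAt_Y k (hmem t ht)) (fun t _ => Y_nonneg k t)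
    (fun t ht => by linarith [hYC t ht k]) (fun t ht => ?_) (fun t ht => ?_)
  · have he : 0 < T - t := by linarith [ht.2]
    rw [abs_div, abs_of_pos he]
    apply div_le_div_of_nonneg_right _ he.le
    have h1 := hGb t ht (k + 1) le_rfl
    have h2 := hGb t ht k (by omega)
    have h3 := abs_sub (G a b (k + 1) t) (G a b k t)
    rw [hKdef]
    linarith
  · have h1 := (hb t ht (k + 1)).2
    have hle : ∫ s in (T / 2)..t, Y a b k s / (T - s) ≤
        ∫ s in (T / 2)..t, 10 * ((k : ℝ) + 2) ^ 2 * (Sd a b (k + 1) s / (T - s)) := by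
      have hsub : ∀ s ∈ Icc (T / 2) t, s ∈ Ioo 0 T := fun s hs =>
        ⟨by linarith [hs.1], by linarith [hs.2, ht.2]⟩
      apply intervalIntegral.integral_mono_on ht.1
      · apply ContinuousOn.intervalIntegrable
        rw [uIcc_of_le ht.1]
        apply ContinuousOn.div ((h.cont_Y k).mono hsub) (by fun_prop)
        intro s hs
        have := (hsub s hs).2
        linarith [sub_pos.2 this]
      · apply ContinuousOn.intervalIntegrable
        rw [uIcc_of_le ht.1]
        exact (continuousOn_const.mul (h.cont_Sd (k + 1))).mono hsub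
      · intro s hs
        have he : 0 < T - s := by linarith [(hsub s hs).2]
        rw [← mul_div_assoc]
        apply div_le_div_of_nonneg_right _ he.le
        have h2 : Y a b k s / (10 * ((k : ℝ) + 2) ^ 2) ≤ Sd a b (k + 1) s :=
          Finset.single_le_sum (f := fun k => Y a b k s / (10 * ((k : ℝ) + 2) ^ 2))
            (fun i _ => div_nonneg (Y_nonneg i s) (by positivity))
            (Finset.mem_range.2 (Nat.lt_succ_self k))
        rw [div_le_iff₀ (by positivity)] at h2
        linarith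
    refine hle.trans ?_
    rw [intervalIntegral.integral_const_mul]
    exact mul_le_mul_of_nonneg_left h1 (by positivity)

end Modes

end

end Run7.h736.Lin
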