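import Pool.Agent.Run7.h736.Sol
import Pool.Agent.Run7.h736.LinI

open scoped ContDiff Topology
open Set MeasureTheory Filter

namespace Run7.h736

noncomputable section

/-- cosine moments -/
def Pc (G : ℝ × ℝ → ℝ) (n : ℤ) (t : ℝ) : ℝ :=
  ∫ x in (0:ℝ)..(2 * Real.pi), G (x, t) * Real.cos (n * x)
/-- sine moments -/
def Sc (G : ℝ × ℝ → ℝ) (n : ℤ) (t : ℝ) : ℝ :=
  ∫ x in (0:ℝ)..(2 * Real.pi), G (x, t) * Real.sin (n * x)

/-- smooth and `2π`-periodic on the strip -/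
structure SP (a b : ℝ) (G : ℝ × ℝ → ℝ) : Prop where
  sm : ContDiffOn ℝ ∞ G (Om a b)
  per : ∀ t ∈ Ioo a b, ∀ x, G (x + 2 * Real.pi, t) = G (x, t)

lemma cos_per (n : ℤ) (x : ℝ) : Real.cos (n * (x + 2 * Real.pi)) = Real.cos (n * x) := by
  rw [mul_add]
  exact Real.cos_add_int_mul_two_pi _ n

lemma sin_per (n : ℤ) (x : ℝ) : Real.sin (n * (x + 2 * Real.pi)) = Real.sin (n * x) := by
  rw [mul_add]
  exact Real.sin_add_int_mul_two_pi _ n

lemma hasDerivAt_cosn (n : ℤ) (x : ℝ) :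
    HasDerivAt (fun x : ℝ => Real.cos (n * x)) (-(n * Real.sin (n * x))) x := by
  have h : HasDerivAt (fun x : ℝ => (n : ℝ) * x) n x := by
    simpa using (hasDerivAt_id x).const_mul (n : ℝ)
  refine HasDerivAt.congr_deriv h.cos (by ring)

lemma hasDerivAt_sinn (n : ℤ) (x : ℝ) :
    HasDerivAt (fun x : ℝ => Real.sin (n * x)) (n * Real.cos (n * x)) x := by
  have h : HasDerivAt (fun x : ℝ => (n : ℝ) * x) n x := by
    simpa using (hasDerivAt_id x).const_mul (n : ℝ)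
  refine HasDerivAt.congr_deriv h.sin (by ring)

namespace SP

variable {a b : ℝ} {G : ℝ × ℝ → ℝ}

lemma dx' (h : SP a b G) : SP a b (dx G) := by
  refine ⟨smooth_dx h.sm, fun t ht x => ?_⟩
  have h1 : HasDerivAt (fun y => G (y, t)) (dx G (x, t)) x := hasDerivAt_dx h.sm ht
  have h2 : HasDerivAt (fun y => G (y + 2 * Real.pi, t)) (dx G (x + 2 * Real.pi, t)) x := by
    have h3 : HasDerivAt (fun y => G (y, t)) (dx G (x + 2 * Real.pi, t)) (x + 2 * Real.pi) :=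
      hasDerivAt_dx h.sm ht
    exact h3.comp_add_const x (2 * Real.pi)
  have h4 : (fun y => G (y + 2 * Real.pi, t)) = fun y => G (y, t) := by
    funext y; exact h.per t ht y
  rw [h4] at h2
  exact h2.unique h1

lemma cont (h : SP a b G) {t : ℝ} (ht : t ∈ Ioo a b) : Continuous (fun x => G (x, t)) :=
  cont_slice h.sm.continuousOn ht

lemma ccos (n : ℤ) : Continuous (fun x : ℝ => Real.cos (n * x)) := by fun_prop
lemma csin (n : ℤ) : Continuous (fun x : ℝ => Real.sin (n * x)) := by fun_prop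

lemma Pc_dx (h : SP a b G) (n : ℤ) {t : ℝ} (ht : t ∈ Ioo a b) :
    Pc (dx G) n t = n * Sc G n t := by
  have c0 := h.cont ht
  have c1 := h.dx'.cont ht
  have i1 : Continuous (fun x => dx G (x, t) * Real.cos (n * x)) := c1.mul (ccos n)
  have i2 : Continuous (fun x => (n : ℝ) * (G (x, t) * Real.sin (n * x))) :=
    continuous_const.mul (c0.mul (csin n))
  have h1 : ∫ x in (0:ℝ)..(2 * Real.pi), (dx G (x, t) * Real.cos (n * x) -
      n * (G (x, t) * Real.sin (n * x))) = 0 := by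
    refine integral_deriv_zero (h := fun x => G (x, t) * Real.cos (n * x)) (fun x => ?_)
      (i1.sub i2) (fun x => ?_)
    · refine HasDerivAt.congr_deriv ((hasDerivAt_dx h.sm ht).mul (hasDerivAt_cosn n x)) ?_
      ring
    · simp only [h.per t ht x, cos_per]
  rw [intervalIntegral.integral_sub (i1.intervalIntegrable _ _) (i2.intervalIntegrable _ _),
    intervalIntegral.integral_const_mul] at h1
  unfold Pc Sc
  linarith

lemma Sc_dx (h : SP a b G) (n : ℤ) {t : ℝ} (ht : t ∈ Ioo a b) :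
    Sc (dx G) n t = -(n * Pc G n t) := by
  have c0 := h.cont ht
  have c1 := h.dx'.cont ht
  have i1 : Continuous (fun x => dx G (x, t) * Real.sin (n * x)) := c1.mul (csin n)
  have i2 : Continuous (fun x => (n : ℝ) * (G (x, t) * Real.cos (n * x))) :=
    continuous_const.mul (c0.mul (ccos n))
  have h1 : ∫ x in (0:ℝ)..(2 * Real.pi), (dx G (x, t) * Real.sin (n * x) +
      n * (G (x, t) * Real.cos (n * x))) = 0 := by
    refine integral_deriv_zero (h := fun x => G (x, t) * Real.sin (n * x)) (fun x => ?_)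
      (i1.add i2) (fun x => ?_)
    · refine HasDerivAt.congr_deriv ((hasDerivAt_dx h.sm ht).mul (hasDerivAt_sinn n x)) ?_
      ring
    · simp only [h.per t ht x, sin_per]
  rw [intervalIntegral.integral_add (i1.intervalIntegrable _ _) (i2.intervalIntegrable _ _),
    intervalIntegral.integral_const_mul] at h1
  unfold Pc Sc
  linarith

lemma bdd (h : SP a b G) {t₁ t₂ : ℝ} (h1 : a < t₁) (h2 : t₂ < b) :
    ∃ C : ℝ, 0 ≤ C ∧ ∀ t ∈ Icc t₁ t₂, ∀ n : ℤ, |Pc G n t| ≤ C ∧ |Sc G n t| ≤ C := by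
  have hpi : (0:ℝ) ≤ 2 * Real.pi := by positivity
  have hK : IsCompact ((Icc (0:ℝ) (2 * Real.pi)) ×ˢ (Icc t₁ t₂)) :=
    isCompact_Icc.prod isCompact_Icc
  have hsub : (Icc (0:ℝ) (2 * Real.pi)) ×ˢ (Icc t₁ t₂) ⊆ Om a b := by
    rintro ⟨x, t⟩ ⟨_, ht⟩
    exact mem_Om.2 ⟨lt_of_lt_of_le h1 ht.1, lt_of_le_of_lt ht.2 h2⟩
  obtain ⟨C, hC⟩ := hK.exists_bound_of_continuousOn (h.sm.continuousOn.mono hsub)
  have hC' : ∀ t ∈ Icc t₁ t₂, ∀ x ∈ Icc (0:ℝ) (2 * Real.pi), |G (x, t)| ≤ max C 0 :=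
    fun t ht x hx => (hC (x, t) ⟨hx, ht⟩).trans (le_max_left _ _)
  refine ⟨max C 0 * (2 * Real.pi), by positivity, fun t ht n => ⟨?_, ?_⟩⟩
  · have := intervalIntegral.norm_integral_le_of_norm_le_const (a := (0:ℝ)) (b := 2 * Real.pi)
      (f := fun x => G (x, t) * Real.cos (n * x)) (C := max C 0) (fun x hx => by
        rw [uIoc_of_le hpi] at hx
        rw [Real.norm_eq_abs, abs_mul]
        calc |G (x, t)| * |Real.cos (n * x)| ≤ max C 0 * 1 :=
              mul_le_mul (hC' t ht x ⟨hx.1.le, hx.2⟩) (Real.abs_cos_le_one _) (abs_nonneg _)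
                (le_max_right _ _)
          _ = max C 0 := mul_one _)
    rw [sub_zero, abs_of_nonneg hpi] at this
    exact this
  · have := intervalIntegral.norm_integral_le_of_norm_le_const (a := (0:ℝ)) (b := 2 * Real.pi)
      (f := fun x => G (x, t) * Real.sin (n * x)) (C := max C 0) (fun x hx => by
        rw [uIoc_of_le hpi] at hx
        rw [Real.norm_eq_abs, abs_mul]
        calc |G (x, t)| * |Real.sin (n * x)| ≤ max C 0 * 1 :=
              mul_le_mul (hC' t ht x ⟨hx.1.le, hx.2⟩) (Real.abs_sin_le_one _) (abs_nonneg _)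
                (le_max_right _ _)
          _ = max C 0 := mul_one _)
    rw [sub_zero, abs_of_nonneg hpi] at this
    exact this

lemma Pc_six (h : SP a b G) (n : ℤ) {t : ℝ} (ht : t ∈ Ioo a b) :
    (n : ℝ) ^ 6 * Pc G n t = -Pc (dx (dx (dx (dx (dx (dx G)))))) n t := by
  have h1 := h.dx'; have h2 := h1.dx'; have h3 := h2.dx'; have h4 := h3.dx'; have h5 := h4.dx'
  rw [h5.Pc_dx n ht, h4.Sc_dx n ht, h3.Pc_dx n ht, h2.Sc_dx n ht, h1.Pc_dx n ht, h.Sc_dx n ht]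
  ring

lemma Sc_six (h : SP a b G) (n : ℤ) {t : ℝ} (ht : t ∈ Ioo a b) :
    (n : ℝ) ^ 6 * Sc G n t = -Sc (dx (dx (dx (dx (dx (dx G)))))) n t := by
  have h1 := h.dx'; have h2 := h1.dx'; have h3 := h2.dx'; have h4 := h3.dx'; have h5 := h4.dx'
  rw [h5.Sc_dx n ht, h4.Pc_dx n ht, h3.Sc_dx n ht, h2.Pc_dx n ht, h1.Sc_dx n ht, h.Pc_dx n ht]
  ring

lemma decay (h : SP a b G) {t₁ t₂ : ℝ} (h1 : a < t₁) (h2 : t₂ < b) :
    ∃ C : ℝ, 0 ≤ C ∧ ∀ n : ℕ, ∀ t ∈ Icc t₁ t₂,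
      |Pc G n t| ≤ C * (((n : ℝ) + 1) ^ (6 : ℕ))⁻¹ ∧
      |Sc G n t| ≤ C * (((n : ℝ) + 1) ^ (6 : ℕ))⁻¹ := by
  obtain ⟨C0, hC0, hb0⟩ := h.bdd h1 h2
  obtain ⟨C6, hC6, hb6⟩ := h.dx'.dx'.dx'.dx'.dx'.dx'.bdd h1 h2
  have key : ∀ (n : ℕ) (y : ℝ), |y| ≤ C0 → (n : ℝ) ^ 6 * |y| ≤ C6 →
      |y| ≤ (C0 + 64 * C6) * (((n : ℝ) + 1) ^ (6 : ℕ))⁻¹ := by
    intro n y hy0 hy6
    rw [← div_eq_mul_inv, le_div_iff₀ (by positivity)]
    rcases Nat.eq_zero_or_pos n with rfl | hn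
    · simp only [Nat.cast_zero, zero_add, one_pow, mul_one]
      linarith
    · have hn' : (1 : ℝ) ≤ n := by exact_mod_cast hn
      have h3 : ((n : ℝ) + 1) ^ 6 ≤ (2 * n) ^ 6 := pow_le_pow_left₀ (by positivity) (by linarith) 6
      have h4 : |y| * ((n : ℝ) + 1) ^ 6 ≤ |y| * (2 * n) ^ 6 :=
        mul_le_mul_of_nonneg_left h3 (abs_nonneg _)
      have h5 : |y| * (2 * n) ^ 6 = 64 * ((n : ℝ) ^ 6 * |y|) := by ring
      linarith
  refine ⟨C0 + 64 * C6, by positivity, fun n t ht => ?_⟩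
  have htI : t ∈ Ioo a b := ⟨lt_of_lt_of_le h1 ht.1, lt_of_le_of_lt ht.2 h2⟩
  have e1 := h.Pc_six n htI
  have e2 := h.Sc_six n htI
  constructor
  · apply key n _ (hb0 t ht n).1
    have := (hb6 t ht n).1
    rw [← abs_neg, ← e1, abs_mul, abs_of_nonneg (by positivity)] at this
    exact_mod_cast this
  · apply key n _ (hb0 t ht n).2
    have := (hb6 t ht n).2
    rw [← abs_neg, ← e2, abs_mul, abs_of_nonneg (by positivity)] at this
    exact_mod_cast this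

lemma hasDerivAt_Pc (h : SP a b G) (n : ℤ) {t : ℝ} (ht : t ∈ Ioo a b) :
    HasDerivAt (Pc G n) (Pc (dt G) n t) t := by
  have hs : ContDiffOn ℝ ∞ (fun p : ℝ × ℝ => G p * Real.cos (n * p.1)) (Om a b) :=
    h.sm.mul ((Real.contDiff_cos.comp (contDiff_const.mul contDiff_fst)).contDiffOn)
  have h1 := hasDerivAt_integral hs ht 0 (2 * Real.pi)
  refine HasDerivAt.congr_deriv h1 ?_
  unfold Pc
  congr 1
  funext x
  have g1 := hasDerivAt_dt hs (x := x) ht
  have g2 := (hasDerivAt_dt h.sm (x := x) ht).mul_const (Real.cos (n * x))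
  exact g1.unique g2

lemma hasDerivAt_Sc (h : SP a b G) (n : ℤ) {t : ℝ} (ht : t ∈ Ioo a b) :
    HasDerivAt (Sc G n) (Sc (dt G) n t) t := by
  have hs : ContDiffOn ℝ ∞ (fun p : ℝ × ℝ => G p * Real.sin (n * p.1)) (Om a b) :=
    h.sm.mul ((Real.contDiff_sin.comp (contDiff_const.mul contDiff_fst)).contDiffOn)
  have h1 := hasDerivAt_integral hs ht 0 (2 * Real.pi)
  refine HasDerivAt.congr_deriv h1 ?_
  unfold Sc
  congr 1
  funext x
  have g1 := hasDerivAt_dt hs (x := x) ht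
  have g2 := (hasDerivAt_dt h.sm (x := x) ht).mul_const (Real.sin (n * x))
  exact g1.unique g2

end SP

lemma prod_cc (n : ℤ) (x : ℝ) : 2 * (Real.cos x * Real.cos (n * x)) =
    Real.cos (((n - 1 : ℤ) : ℝ) * x) + Real.cos (((n + 1 : ℤ) : ℝ) * x) := by
  push_cast
  have e1 : ((n : ℝ) - 1) * x = n * x - x := by ring
  have e2 : ((n : ℝ) + 1) * x = n * x + x := by ring
  rw [e1, e2, Real.cos_sub, Real.cos_add]; ring

lemma prod_ss (n : ℤ) (x : ℝ) : 2 * (Real.sin x * Real.sin (n * x)) =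
    Real.cos (((n - 1 : ℤ) : ℝ) * x) - Real.cos (((n + 1 : ℤ) : ℝ) * x) := by
  push_cast
  have e1 : ((n : ℝ) - 1) * x = n * x - x := by ring
  have e2 : ((n : ℝ) + 1) * x = n * x + x := by ring
  rw [e1, e2, Real.cos_sub, Real.cos_add]; ring

lemma prod_cs (n : ℤ) (x : ℝ) : 2 * (Real.cos x * Real.sin (n * x)) =
    Real.sin (((n - 1 : ℤ) : ℝ) * x) + Real.sin (((n + 1 : ℤ) : ℝ) * x) := by
  push_cast
  have e1 : ((n : ℝ) - 1) * x = n * x - x := by ring
  have e2 : ((n : ℝ) + 1) * x = n * x + x := by ring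
  rw [e1, e2, Real.sin_sub, Real.sin_add]; ring

lemma prod_sc (n : ℤ) (x : ℝ) : 2 * (Real.sin x * Real.cos (n * x)) =
    Real.sin (((n + 1 : ℤ) : ℝ) * x) - Real.sin (((n - 1 : ℤ) : ℝ) * x) := by
  push_cast
  have e1 : ((n : ℝ) - 1) * x = n * x - x := by ring
  have e2 : ((n : ℝ) + 1) * x = n * x + x := by ring
  rw [e1, e2, Real.sin_sub, Real.sin_add]; ring

end

end Run7.h736
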