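import Pool.Agent.Run7.h736.Fou

open scoped ContDiff Topology
open Set MeasureTheory Filter

namespace Run7.h736

noncomputable section

/-- solution of the linearised equation in the moving frame `x ↦ x + t` -/
structure LSol (T : ℝ) (G : ℝ × ℝ → ℝ) : Prop where
  sp : SP 0 T G
  eq : ∀ p ∈ Om 0 T, dt G p = dx (dx (dx G)) p + dx G p -
    Real.sin p.1 / (T - p.2) * dx G p + (1 + Real.cos p.1) / (T - p.2) * G p

/-- real part of the rescaled Fourier coefficient -/
def am (T : ℝ) (G : ℝ × ℝ → ℝ) (n : ℤ) (t : ℝ) : ℝ := (T - t) * Pc G n t / (2 * Real.pi)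
/-- imaginary part of the rescaled Fourier coefficient -/
def bm (T : ℝ) (G : ℝ × ℝ → ℝ) (n : ℤ) (t : ℝ) : ℝ := -((T - t) * Sc G n t / (2 * Real.pi))

lemma cont_qc {g0 g1 g3 : ℝ → ℝ} (c0 : Continuous g0) (c1 : Continuous g1) (c3 : Continuous g3)
    (n : ℤ) (e : ℝ) : Continuous (fun x => g3 x * Real.cos (n * x) + g1 x * Real.cos (n * x) +
        ((n : ℝ) ^ 3 - n) * (g0 x * Real.sin (n * x)) - 1 / e *
        (Real.cos x * Real.cos (n * x) * g0 x - n * (Real.sin x * Real.sin (n * x)) * g0 x +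
          Real.sin x * Real.cos (n * x) * g1 x)) := by fun_prop

lemma cont_qs {g0 g1 g3 : ℝ → ℝ} (c0 : Continuous g0) (c1 : Continuous g1) (c3 : Continuous g3)
    (n : ℤ) (e : ℝ) : Continuous (fun x => g3 x * Real.sin (n * x) + g1 x * Real.sin (n * x) -
        ((n : ℝ) ^ 3 - n) * (g0 x * Real.cos (n * x)) - 1 / e *
        (Real.cos x * Real.sin (n * x) * g0 x + n * (Real.sin x * Real.cos (n * x)) * g0 x +
          Real.sin x * Real.sin (n * x) * g1 x)) := by fun_prop

namespace LSol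

variable {T : ℝ} {G : ℝ × ℝ → ℝ}

lemma Pc_dt (h : LSol T G) (n : ℤ) {t : ℝ} (ht : t ∈ Ioo 0 T) :
    Pc (dt G) n t = -((n : ℝ) ^ 3 - n) * Sc G n t + 1 / (T - t) *
      ((2 - n) / 2 * Pc G (n - 1) t + (n + 2) / 2 * Pc G (n + 1) t + Pc G n t) := by
  have he : T - t ≠ 0 := by have := ht.2; linarith [sub_pos.2 this]
  have h1 := h.sp.dx'
  have h2 := h1.dx'
  have h3 := h2.dx'
  have c0 : Continuous (fun x => G (x, t)) := h.sp.cont ht
  have c1 : Continuous (fun x => dx G (x, t)) := h1.cont ht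
  have c3 : Continuous (fun x => dx (dx (dx G)) (x, t)) := h3.cont ht
  have cc := SP.ccos n
  have cs := SP.csin n
  have cc1 := SP.ccos (n - 1)
  have cc2 := SP.ccos (n + 1)
  have q1 : Continuous (fun x => (dx (dx (dx G)) (x, t) * Real.cos (n * x) +
        dx G (x, t) * Real.cos (n * x) +
        ((n : ℝ) ^ 3 - n) * (G (x, t) * Real.sin (n * x)) - 1 / (T - t) *
        (Real.cos x * Real.cos (n * x) * G (x, t) - n * (Real.sin x * Real.sin (n * x)) * G (x, t) +
          Real.sin x * Real.cos (n * x) * dx G (x, t)))) := cont_qc c0 c1 c3 n (T - t)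
  have hz : ∫ x in (0:ℝ)..(2 * Real.pi),
      (dx (dx (dx G)) (x, t) * Real.cos (n * x) + dx G (x, t) * Real.cos (n * x) +
        ((n : ℝ) ^ 3 - n) * (G (x, t) * Real.sin (n * x)) - 1 / (T - t) *
        (Real.cos x * Real.cos (n * x) * G (x, t) - n * (Real.sin x * Real.sin (n * x)) * G (x, t) +
          Real.sin x * Real.cos (n * x) * dx G (x, t))) = 0 := by
    refine integral_deriv_zero (h := fun x => dx (dx G) (x, t) * Real.cos (n * x) +
      n * (dx G (x, t) * Real.sin (n * x)) - (n : ℝ) ^ 2 * (G (x, t) * Real.cos (n * x)) +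
      G (x, t) * Real.cos (n * x) - 1 / (T - t) * (Real.sin x * Real.cos (n * x) * G (x, t)))
      (fun x => ?_) ?_ (fun x => ?_)
    · have d0 := hasDerivAt_dx h.sp.sm (x := x) ht
      have d1 := hasDerivAt_dx h1.sm (x := x) ht
      have d2 := hasDerivAt_dx h2.sm (x := x) ht
      have dc := hasDerivAt_cosn n x
      have ds := hasDerivAt_sinn n x
      have := ((((d2.mul dc).add ((d1.mul ds).const_mul (n : ℝ))).sub
        ((d0.mul dc).const_mul ((n : ℝ) ^ 2))).add (d0.mul dc)).sub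
        ((((Real.hasDerivAt_sin x).mul dc).mul d0).const_mul (1 / (T - t)))
      refine HasDerivAt.congr_deriv this ?_
      simp only [Pi.mul_apply]
      ring
    · exact q1
    · simp only [h.sp.per t ht x, h1.per t ht x, h2.per t ht x, cos_per, sin_per,
        Real.sin_add_two_pi]
  -- the integrand
  have e : ∀ x, dt G (x, t) * Real.cos (n * x) =
      (dx (dx (dx G)) (x, t) * Real.cos (n * x) + dx G (x, t) * Real.cos (n * x) +
        ((n : ℝ) ^ 3 - n) * (G (x, t) * Real.sin (n * x)) - 1 / (T - t) *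
        (Real.cos x * Real.cos (n * x) * G (x, t) - n * (Real.sin x * Real.sin (n * x)) * G (x, t) +
          Real.sin x * Real.cos (n * x) * dx G (x, t))) +
      (-((n : ℝ) ^ 3 - n) * (G (x, t) * Real.sin (n * x)) +
        1 / (T - t) * ((2 - n) / 2 * (G (x, t) * Real.cos (((n - 1 : ℤ) : ℝ) * x)) +
          (n + 2) / 2 * (G (x, t) * Real.cos (((n + 1 : ℤ) : ℝ) * x)) +
          G (x, t) * Real.cos (n * x))) := by
    intro x
    rw [h.eq (x, t) (mem_Om.2 ht)]
    have p1 := prod_cc n x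
    have p2 := prod_ss n x
    have p3 : (2 - (n : ℝ)) / 2 * (G (x, t) * Real.cos (((n - 1 : ℤ) : ℝ) * x)) +
          (n + 2) / 2 * (G (x, t) * Real.cos (((n + 1 : ℤ) : ℝ) * x)) =
        G (x, t) * ((Real.cos (((n - 1 : ℤ) : ℝ) * x) + Real.cos (((n + 1 : ℤ) : ℝ) * x)) -
          n / 2 * (Real.cos (((n - 1 : ℤ) : ℝ) * x) - Real.cos (((n + 1 : ℤ) : ℝ) * x))) := by
      ring
    rw [p3, ← p1, ← p2]
    field_simp
    ring
  unfold Pc Sc
  rw [show (fun x => dt G (x, t) * Real.cos (n * x)) = _ from funext e]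
  have r1 : Continuous (fun x => G (x, t) * Real.sin (n * x)) := c0.mul cs
  have r2 : Continuous (fun x => G (x, t) * Real.cos (((n - 1 : ℤ) : ℝ) * x)) := c0.mul cc1
  have r3 : Continuous (fun x => G (x, t) * Real.cos (((n + 1 : ℤ) : ℝ) * x)) := c0.mul cc2
  have r4 : Continuous (fun x => G (x, t) * Real.cos (n * x)) := c0.mul cc
  have r5 : Continuous (fun x => (2 - (n : ℝ)) / 2 * (G (x, t) * Real.cos (((n - 1 : ℤ) : ℝ) * x))) :=
    continuous_const.mul r2
  have r6 : Continuous (fun x => ((n : ℝ) + 2) / 2 * (G (x, t) * Real.cos (((n + 1 : ℤ) : ℝ) * x))) :=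
    continuous_const.mul r3
  have r7 : Continuous (fun x => (2 - (n : ℝ)) / 2 * (G (x, t) * Real.cos (((n - 1 : ℤ) : ℝ) * x)) +
    ((n : ℝ) + 2) / 2 * (G (x, t) * Real.cos (((n + 1 : ℤ) : ℝ) * x))) := r5.add r6
  have r8 : Continuous (fun x => (2 - (n : ℝ)) / 2 * (G (x, t) * Real.cos (((n - 1 : ℤ) : ℝ) * x)) +
    ((n : ℝ) + 2) / 2 * (G (x, t) * Real.cos (((n + 1 : ℤ) : ℝ) * x)) +
    G (x, t) * Real.cos (n * x)) := r7.add r4
  have r9 : Continuous (fun x => -((n : ℝ) ^ 3 - n) * (G (x, t) * Real.sin (n * x))) :=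
    continuous_const.mul r1
  have r10 : Continuous (fun x => 1 / (T - t) *
    ((2 - (n : ℝ)) / 2 * (G (x, t) * Real.cos (((n - 1 : ℤ) : ℝ) * x)) +
    ((n : ℝ) + 2) / 2 * (G (x, t) * Real.cos (((n + 1 : ℤ) : ℝ) * x)) +
    G (x, t) * Real.cos (n * x))) := continuous_const.mul r8
  have r11 : Continuous (fun x => -((n : ℝ) ^ 3 - n) * (G (x, t) * Real.sin (n * x)) +
    1 / (T - t) * ((2 - (n : ℝ)) / 2 * (G (x, t) * Real.cos (((n - 1 : ℤ) : ℝ) * x)) +
    ((n : ℝ) + 2) / 2 * (G (x, t) * Real.cos (((n + 1 : ℤ) : ℝ) * x)) +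
    G (x, t) * Real.cos (n * x))) := r9.add r10
  rw [intervalIntegral.integral_add (q1.intervalIntegrable _ _) (r11.intervalIntegrable _ _), hz,
    zero_add,
    intervalIntegral.integral_add (r9.intervalIntegrable _ _) (r10.intervalIntegrable _ _),
    intervalIntegral.integral_const_mul, intervalIntegral.integral_const_mul,
    intervalIntegral.integral_add (r7.intervalIntegrable _ _) (r4.intervalIntegrable _ _),
    intervalIntegral.integral_add (r5.intervalIntegrable _ _) (r6.intervalIntegrable _ _),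
    intervalIntegral.integral_const_mul, intervalIntegral.integral_const_mul]

lemma Sc_dt (h : LSol T G) (n : ℤ) {t : ℝ} (ht : t ∈ Ioo 0 T) :
    Sc (dt G) n t = ((n : ℝ) ^ 3 - n) * Pc G n t + 1 / (T - t) *
      ((2 - n) / 2 * Sc G (n - 1) t + (n + 2) / 2 * Sc G (n + 1) t + Sc G n t) := by
  have he : T - t ≠ 0 := by have := ht.2; linarith [sub_pos.2 this]
  have h1 := h.sp.dx'
  have h2 := h1.dx'
  have h3 := h2.dx'
  have c0 : Continuous (fun x => G (x, t)) := h.sp.cont ht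
  have c1 : Continuous (fun x => dx G (x, t)) := h1.cont ht
  have c3 : Continuous (fun x => dx (dx (dx G)) (x, t)) := h3.cont ht
  have cc := SP.ccos n
  have cs := SP.csin n
  have cc1 := SP.csin (n - 1)
  have cc2 := SP.csin (n + 1)
  have q1 : Continuous (fun x => (dx (dx (dx G)) (x, t) * Real.sin (n * x) +
        dx G (x, t) * Real.sin (n * x) -
        ((n : ℝ) ^ 3 - n) * (G (x, t) * Real.cos (n * x)) - 1 / (T - t) *
        (Real.cos x * Real.sin (n * x) * G (x, t) + n * (Real.sin x * Real.cos (n * x)) * G (x, t) +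
          Real.sin x * Real.sin (n * x) * dx G (x, t)))) := cont_qs c0 c1 c3 n (T - t)
  have hz : ∫ x in (0:ℝ)..(2 * Real.pi),
      (dx (dx (dx G)) (x, t) * Real.sin (n * x) + dx G (x, t) * Real.sin (n * x) -
        ((n : ℝ) ^ 3 - n) * (G (x, t) * Real.cos (n * x)) - 1 / (T - t) *
        (Real.cos x * Real.sin (n * x) * G (x, t) + n * (Real.sin x * Real.cos (n * x)) * G (x, t) +
          Real.sin x * Real.sin (n * x) * dx G (x, t))) = 0 := by
    refine integral_deriv_zero (h := fun x => dx (dx G) (x, t) * Real.sin (n * x) -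
      n * (dx G (x, t) * Real.cos (n * x)) - (n : ℝ) ^ 2 * (G (x, t) * Real.sin (n * x)) +
      G (x, t) * Real.sin (n * x) - 1 / (T - t) * (Real.sin x * Real.sin (n * x) * G (x, t)))
      (fun x => ?_) ?_ (fun x => ?_)
    · have d0 := hasDerivAt_dx h.sp.sm (x := x) ht
      have d1 := hasDerivAt_dx h1.sm (x := x) ht
      have d2 := hasDerivAt_dx h2.sm (x := x) ht
      have dc := hasDerivAt_cosn n x
      have ds := hasDerivAt_sinn n x
      have := ((((d2.mul ds).sub ((d1.mul dc).const_mul (n : ℝ))).sub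
        ((d0.mul ds).const_mul ((n : ℝ) ^ 2))).add (d0.mul ds)).sub
        ((((Real.hasDerivAt_sin x).mul ds).mul d0).const_mul (1 / (T - t)))
      refine HasDerivAt.congr_deriv this ?_
      simp only [Pi.mul_apply]
      ring
    · exact q1
    · simp only [h.sp.per t ht x, h1.per t ht x, h2.per t ht x, cos_per, sin_per,
        Real.sin_add_two_pi]
  have e : ∀ x, dt G (x, t) * Real.sin (n * x) =
      (dx (dx (dx G)) (x, t) * Real.sin (n * x) + dx G (x, t) * Real.sin (n * x) -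
        ((n : ℝ) ^ 3 - n) * (G (x, t) * Real.cos (n * x)) - 1 / (T - t) *
        (Real.cos x * Real.sin (n * x) * G (x, t) + n * (Real.sin x * Real.cos (n * x)) * G (x, t) +
          Real.sin x * Real.sin (n * x) * dx G (x, t))) +
      (((n : ℝ) ^ 3 - n) * (G (x, t) * Real.cos (n * x)) +
        1 / (T - t) * ((2 - n) / 2 * (G (x, t) * Real.sin (((n - 1 : ℤ) : ℝ) * x)) +
          (n + 2) / 2 * (G (x, t) * Real.sin (((n + 1 : ℤ) : ℝ) * x)) +
          G (x, t) * Real.sin (n * x))) := by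
    intro x
    rw [h.eq (x, t) (mem_Om.2 ht)]
    have p1 := prod_cs n x
    have p2 := prod_sc n x
    have p3 : (2 - (n : ℝ)) / 2 * (G (x, t) * Real.sin (((n - 1 : ℤ) : ℝ) * x)) +
          (n + 2) / 2 * (G (x, t) * Real.sin (((n + 1 : ℤ) : ℝ) * x)) =
        G (x, t) * ((Real.sin (((n - 1 : ℤ) : ℝ) * x) + Real.sin (((n + 1 : ℤ) : ℝ) * x)) +
          n / 2 * (Real.sin (((n + 1 : ℤ) : ℝ) * x) - Real.sin (((n - 1 : ℤ) : ℝ) * x))) := by
      ring
    rw [p3, ← p1, ← p2]
    field_simp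
    ring
  unfold Pc Sc
  rw [show (fun x => dt G (x, t) * Real.sin (n * x)) = _ from funext e]
  have r1 : Continuous (fun x => G (x, t) * Real.cos (n * x)) := c0.mul cc
  have r2 : Continuous (fun x => G (x, t) * Real.sin (((n - 1 : ℤ) : ℝ) * x)) := c0.mul cc1
  have r3 : Continuous (fun x => G (x, t) * Real.sin (((n + 1 : ℤ) : ℝ) * x)) := c0.mul cc2
  have r4 : Continuous (fun x => G (x, t) * Real.sin (n * x)) := c0.mul cs
  have r5 : Continuous (fun x => (2 - (n : ℝ)) / 2 * (G (x, t) * Real.sin (((n - 1 : ℤ) : ℝ) * x))) :=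
    continuous_const.mul r2
  have r6 : Continuous (fun x => ((n : ℝ) + 2) / 2 * (G (x, t) * Real.sin (((n + 1 : ℤ) : ℝ) * x))) :=
    continuous_const.mul r3
  have r7 : Continuous (fun x => (2 - (n : ℝ)) / 2 * (G (x, t) * Real.sin (((n - 1 : ℤ) : ℝ) * x)) +
    ((n : ℝ) + 2) / 2 * (G (x, t) * Real.sin (((n + 1 : ℤ) : ℝ) * x))) := r5.add r6
  have r8 : Continuous (fun x => (2 - (n : ℝ)) / 2 * (G (x, t) * Real.sin (((n - 1 : ℤ) : ℝ) * x)) +
    ((n : ℝ) + 2) / 2 * (G (x, t) * Real.sin (((n + 1 : ℤ) : ℝ) * x)) +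
    G (x, t) * Real.sin (n * x)) := r7.add r4
  have r9 : Continuous (fun x => ((n : ℝ) ^ 3 - n) * (G (x, t) * Real.cos (n * x))) :=
    continuous_const.mul r1
  have r10 : Continuous (fun x => 1 / (T - t) *
    ((2 - (n : ℝ)) / 2 * (G (x, t) * Real.sin (((n - 1 : ℤ) : ℝ) * x)) +
    ((n : ℝ) + 2) / 2 * (G (x, t) * Real.sin (((n + 1 : ℤ) : ℝ) * x)) +
    G (x, t) * Real.sin (n * x))) := continuous_const.mul r8
  have r11 : Continuous (fun x => ((n : ℝ) ^ 3 - n) * (G (x, t) * Real.cos (n * x)) +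
    1 / (T - t) * ((2 - (n : ℝ)) / 2 * (G (x, t) * Real.sin (((n - 1 : ℤ) : ℝ) * x)) +
    ((n : ℝ) + 2) / 2 * (G (x, t) * Real.sin (((n + 1 : ℤ) : ℝ) * x)) +
    G (x, t) * Real.sin (n * x))) := r9.add r10
  rw [intervalIntegral.integral_add (q1.intervalIntegrable _ _) (r11.intervalIntegrable _ _), hz,
    zero_add,
    intervalIntegral.integral_add (r9.intervalIntegrable _ _) (r10.intervalIntegrable _ _),
    intervalIntegral.integral_const_mul, intervalIntegral.integral_const_mul,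
    intervalIntegral.integral_add (r7.intervalIntegrable _ _) (r4.intervalIntegrable _ _),
    intervalIntegral.integral_add (r5.intervalIntegrable _ _) (r6.intervalIntegrable _ _),
    intervalIntegral.integral_const_mul, intervalIntegral.integral_const_mul]

lemma hasDerivAt_am (h : LSol T G) (n : ℤ) {t : ℝ} (ht : t ∈ Ioo 0 T) :
    HasDerivAt (am T G n) (((2 - (n : ℝ)) / 2 * am T G (n - 1) t + ((n : ℝ) + 2) / 2 *
      am T G (n + 1) t + (T - t) * ((n : ℝ) ^ 3 - n) * bm T G n t) / (T - t)) t := by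
  have he : T - t ≠ 0 := by have := ht.2; linarith [sub_pos.2 this]
  have hpi : (2 * Real.pi) ≠ 0 := by positivity
  have h1 : HasDerivAt (fun s => T - s) (-1) t := by
    simpa using (hasDerivAt_id t).const_sub T
  have h2 := (h1.mul (h.sp.hasDerivAt_Pc n ht)).div_const (2 * Real.pi)
  refine HasDerivAt.congr_deriv h2 ?_
  rw [h.Pc_dt n ht]
  simp only [am, bm]
  field_simp
  ring

lemma hasDerivAt_bm (h : LSol T G) (n : ℤ) {t : ℝ} (ht : t ∈ Ioo 0 T) :
    HasDerivAt (bm T G n) (((2 - (n : ℝ)) / 2 * bm T G (n - 1) t + ((n : ℝ) + 2) / 2 *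
      bm T G (n + 1) t - (T - t) * ((n : ℝ) ^ 3 - n) * am T G n t) / (T - t)) t := by
  have he : T - t ≠ 0 := by have := ht.2; linarith [sub_pos.2 this]
  have hpi : (2 * Real.pi) ≠ 0 := by positivity
  have h1 : HasDerivAt (fun s => T - s) (-1) t := by
    simpa using (hasDerivAt_id t).const_sub T
  have h2 := ((h1.mul (h.sp.hasDerivAt_Sc n ht)).div_const (2 * Real.pi)).neg
  refine HasDerivAt.congr_deriv h2 ?_
  rw [h.Sc_dt n ht]
  simp only [am, bm]
  field_simp
  ring

lemma modes (h : LSol T G) :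
    Lin.Modes T (fun n => am T G (n : ℤ)) (fun n => bm T G (n : ℤ)) := by
  refine ⟨fun k t ht => ?_, fun k t ht => ?_, fun t₁ t₂ h1 h2 => ?_⟩
  · have := h.hasDerivAt_am ((k + 2 : ℕ) : ℤ) ht
    have e1 : (((k + 2 : ℕ) : ℤ) - 1) = ((k + 1 : ℕ) : ℤ) := by push_cast; ring
    have e2 : (((k + 2 : ℕ) : ℤ) + 1) = ((k + 3 : ℕ) : ℤ) := by push_cast; ring
    have e3 : (((k + 2 : ℕ) : ℤ) : ℝ) = (k : ℝ) + 2 := by push_cast; ring
    rw [e1, e2, e3] at this
    exact this
  · have := h.hasDerivAt_bm ((k + 2 : ℕ) : ℤ) ht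
    have e1 : (((k + 2 : ℕ) : ℤ) - 1) = ((k + 1 : ℕ) : ℤ) := by push_cast; ring
    have e2 : (((k + 2 : ℕ) : ℤ) + 1) = ((k + 3 : ℕ) : ℤ) := by push_cast; ring
    have e3 : (((k + 2 : ℕ) : ℤ) : ℝ) = (k : ℝ) + 2 := by push_cast; ring
    rw [e1, e2, e3] at this
    exact this
  · obtain ⟨C, hC, hd⟩ := h.sp.decay h1 h2
    refine ⟨max T 0 * C, by positivity, fun n t ht => ?_⟩
    have h0 : |T - t| ≤ max T 0 := by
      rw [abs_of_nonneg (by linarith [ht.2])]
      exact (by linarith [ht.1] : T - t ≤ T).trans (le_max_left _ _)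
    have hpi : (1 : ℝ) ≤ 2 * Real.pi := by linarith [Real.pi_gt_three]
    have key : ∀ y : ℝ, |y| ≤ C * (((n : ℝ) + 1) ^ 6)⁻¹ →
        |(T - t) * y / (2 * Real.pi)| ≤ max T 0 * C * (((n : ℝ) + 1) ^ 6)⁻¹ := by
      intro y hy
      rw [abs_div, abs_mul, abs_of_pos (show (0:ℝ) < 2 * Real.pi by positivity)]
      calc |T - t| * |y| / (2 * Real.pi) ≤ |T - t| * |y| := div_le_self (by positivity) hpi
        _ ≤ max T 0 * (C * (((n : ℝ) + 1) ^ 6)⁻¹) :=
            mul_le_mul h0 hy (abs_nonneg _) (le_max_right _ _)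
        _ = _ := by ring
    refine ⟨key _ (hd n t ht).1, ?_⟩
    have := key _ (hd n t ht).2
    unfold bm
    rw [abs_neg]
    exact this

end LSol

end

end Run7.h736
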