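import Mathlib

open Set MeasureTheory

namespace Run7.h736

/-- Cauchy–Schwarz on an interval -/
lemma sq_integral_abs_le {a b : ℝ} (hab : a ≤ b) {g : ℝ → ℝ} (hg : ContinuousOn g (Icc a b)) :
    (∫ x in a..b, |g x|) ^ 2 ≤ (b - a) * ∫ x in a..b, (g x) ^ 2 := by
  rcases hab.eq_or_lt with rfl | hlt
  · simp
  have hu : uIcc a b = Icc a b := uIcc_of_le hab
  have i1 : IntervalIntegrable (fun x => |g x|) volume a b :=
    (hg.abs.mono (by rw [hu])).intervalIntegrable
  have i2 : IntervalIntegrable (fun x => (g x) ^ 2) volume a b :=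
    ((hg.pow 2).mono (by rw [hu])).intervalIntegrable
  set I := ∫ x in a..b, |g x| with hI
  set J := ∫ x in a..b, (g x) ^ 2 with hJ
  set l := I / (b - a) with hl
  have h0 : 0 ≤ ∫ x in a..b, (|g x| - l) ^ 2 :=
    intervalIntegral.integral_nonneg hab fun x _ => sq_nonneg _
  have h1 : ∫ x in a..b, (|g x| - l) ^ 2 = J - 2 * l * I + l ^ 2 * (b - a) := by
    have e : (fun x => (|g x| - l) ^ 2) = fun x => ((g x) ^ 2 - (2 * l) * |g x|) + l ^ 2 := by
      funext x
      have := sq_abs (g x)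
      ring_nf
      rw [this]
      ring
    rw [e, intervalIntegral.integral_add (i2.sub (i1.const_mul _)) intervalIntegrable_const,
      intervalIntegral.integral_sub i2 (i1.const_mul _), intervalIntegral.integral_const_mul,
      intervalIntegral.integral_const]
    simp only [smul_eq_mul]
    ring
  rw [h1] at h0
  have hpos : 0 < b - a := by linarith
  have hlI : l * (b - a) = I := by rw [hl]; field_simp
  have : l ^ 2 * (b - a) = l * I := by rw [← hlI]; ring
  rw [this] at h0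
  have h2 : l * I ≤ J := by linarith
  calc I ^ 2 = (l * I) * (b - a) := by rw [← hlI]; ring
    _ ≤ J * (b - a) := mul_le_mul_of_nonneg_right h2 hpos.le
    _ = (b - a) * J := by ring

lemma integral_abs_le_sqrt {a b : ℝ} (hab : a ≤ b) {g : ℝ → ℝ} (hg : ContinuousOn g (Icc a b)) :
    (∫ x in a..b, |g x|) ≤ √((b - a) * ∫ x in a..b, (g x) ^ 2) :=
  Real.le_sqrt_of_sq_le (sq_integral_abs_le hab hg)

/-- a function with `f' ≥ f²` on `(a,T)` satisfies `(T-t) f ≤ 1`. -/
lemma riccati_bound {f f' : ℝ → ℝ} {a T : ℝ}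
    (hf : ∀ t ∈ Ioo a T, HasDerivAt f (f' t) t) (hge : ∀ t ∈ Ioo a T, (f t) ^ 2 ≤ f' t) :
    ∀ t ∈ Ioo a T, (T - t) * f t ≤ 1 := by
  intro t ht
  by_contra hcon
  push Not at hcon
  have hTt : 0 < T - t := by linarith [ht.2]
  have hft : 0 < f t := by
    by_contra h
    push Not at h
    have : (T - t) * f t ≤ 0 := mul_nonpos_of_nonneg_of_nonpos hTt.le h
    linarith
  have hmem : ∀ s ∈ Ico t T, s ∈ Ioo a T := fun s hs => ⟨lt_of_lt_of_le ht.1 hs.1, hs.2⟩
  have hmono : MonotoneOn f (Ico t T) := by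
    apply monotoneOn_of_deriv_nonneg (convex_Ico t T)
    · exact fun s hs => (hf s (hmem s hs)).continuousAt.continuousWithinAt
    · intro s hs
      rw [interior_Ico] at hs
      exact (hf s (hmem s (Ioo_subset_Ico_self hs))).differentiableAt.differentiableWithinAt
    · intro s hs
      rw [interior_Ico] at hs
      have hs' := hmem s (Ioo_subset_Ico_self hs)
      rw [(hf s hs').deriv]
      exact le_trans (sq_nonneg _) (hge s hs')
  have hpos : ∀ s ∈ Ico t T, 0 < f s := fun s hs =>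
    lt_of_lt_of_le hft (hmono ⟨le_rfl, ht.2⟩ hs hs.1)
  have hmono2 : MonotoneOn (fun s => -(f s)⁻¹ - s) (Ico t T) := by
    have hd : ∀ s ∈ Ico t T, HasDerivAt (fun s => -(f s)⁻¹ - s) (-(-(f' s) / (f s) ^ 2) - 1) s := by
      intro s hs
      have h1 := ((hf s (hmem s hs)).inv (hpos s hs).ne').neg.sub (hasDerivAt_id s)
      exact h1
    apply monotoneOn_of_deriv_nonneg (convex_Ico t T)
    · exact fun s hs => (hd s hs).continuousAt.continuousWithinAt
    · intro s hs
      rw [interior_Ico] at hs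
      exact (hd s (Ioo_subset_Ico_self hs)).differentiableAt.differentiableWithinAt
    · intro s hs
      rw [interior_Ico] at hs
      have hs' := Ioo_subset_Ico_self hs
      rw [(hd s hs').deriv]
      have h1 := hge s (hmem s hs')
      have h2 : 0 < (f s) ^ 2 := by have := hpos s hs'; positivity
      rw [neg_div, neg_neg]
      have : 1 ≤ f' s / (f s) ^ 2 := by rw [le_div_iff₀ h2]; linarith
      linarith
  -- choose s close to T
  have h1 : (f t)⁻¹ < T - t := by
    rw [inv_lt_iff_one_lt_mul₀ hft]; linarith [mul_comm (f t) (T - t)]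
  set s := (t + (f t)⁻¹ + T) / 2 with hs
  have hs1 : t + (f t)⁻¹ < s := by rw [hs]; linarith
  have hs2 : s < T := by rw [hs]; linarith
  have hs0 : t ≤ s := by have : 0 < (f t)⁻¹ := inv_pos.2 hft; linarith
  have h3 := hmono2 ⟨le_rfl, ht.2⟩ ⟨hs0, hs2⟩ hs0
  simp only at h3
  have h4 : 0 < (f s)⁻¹ := inv_pos.2 (hpos s ⟨hs0, hs2⟩)
  linarith

/-- Gronwall in integrating factor form -/
lemma gronwall {f f' β : ℝ → ℝ} {a T : ℝ}
    (hf : ∀ t ∈ Ioo a T, HasDerivAt f (f' t) t) (hβ : ContinuousOn β (Ioo a T))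
    (hle : ∀ t ∈ Ioo a T, f' t ≤ β t * f t) {t₁ t₂ : ℝ} (h₁ : a < t₁) (h₁₂ : t₁ ≤ t₂) (h₂ : t₂ < T) :
    f t₂ ≤ f t₁ * Real.exp (∫ s in t₁..t₂, β s) := by
  have hsub : Icc t₁ t₂ ⊆ Ioo a T := fun s hs => ⟨lt_of_lt_of_le h₁ hs.1, lt_of_le_of_lt hs.2 h₂⟩
  have hd : ∀ s ∈ Icc t₁ t₂, HasDerivAt (fun s => f s * Real.exp (-∫ r in t₁..s, β r))
      (f' s * Real.exp (-∫ r in t₁..s, β r) +
        f s * (Real.exp (-∫ r in t₁..s, β r) * (-β s))) s := by
    intro s hs
    have hsI := hsub hs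
    have hi : HasDerivAt (fun s => ∫ r in t₁..s, β r) (β s) s := by
      apply intervalIntegral.integral_hasDerivAt_right
      · apply ContinuousOn.intervalIntegrable
        rw [uIcc_of_le hs.1]
        exact hβ.mono fun r hr => hsub ⟨hr.1, hr.2.trans hs.2⟩
      · exact ContinuousOn.stronglyMeasurableAtFilter isOpen_Ioo hβ s hsI
      · exact hβ.continuousAt (isOpen_Ioo.mem_nhds hsI)
    exact (hf s hsI).mul hi.neg.exp
  have hanti : AntitoneOn (fun s => f s * Real.exp (-∫ r in t₁..s, β r)) (Icc t₁ t₂) := by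
    apply antitoneOn_of_deriv_nonpos (convex_Icc t₁ t₂)
    · exact fun s hs => (hd s hs).continuousAt.continuousWithinAt
    · intro s hs
      rw [interior_Icc] at hs
      exact (hd s (Ioo_subset_Icc_self hs)).differentiableAt.differentiableWithinAt
    · intro s hs
      rw [interior_Icc] at hs
      have hs' := Ioo_subset_Icc_self hs
      rw [(hd s hs').deriv]
      have h1 := hle s (hsub hs')
      have h2 : 0 < Real.exp (-∫ r in t₁..s, β r) := Real.exp_pos _
      nlinarith
  have := hanti ⟨le_rfl, h₁₂⟩ ⟨h₁₂, le_rfl⟩ h₁₂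
  simp only [intervalIntegral.integral_same, neg_zero, Real.exp_zero, mul_one] at this
  have h2 : 0 < Real.exp (∫ r in t₁..t₂, β r) := Real.exp_pos _
  calc f t₂ = (f t₂ * Real.exp (-∫ r in t₁..t₂, β r)) * Real.exp (∫ r in t₁..t₂, β r) := by
        rw [mul_assoc, ← Real.exp_add]; simp
    _ ≤ f t₁ * Real.exp (∫ r in t₁..t₂, β r) := mul_le_mul_of_nonneg_right this h2.le

end Run7.h736
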