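import Mathlib

namespace Run7.h736.Lin

noncomputable section

/-! Coefficient functions. `x` is the frequency, `e = T - t`. -/

def mu (x : ℝ) : ℝ := (x - 1) * x * (x + 1)
def m1 (x : ℝ) : ℝ := (x - 1) * x * (x + 1) * (x + 2)
def m2 (x : ℝ) : ℝ := (x - 1) * x * (x + 1) * (x + 2) * (x + 3)
def m3 (x : ℝ) : ℝ := (x - 1) * x * (x + 1) * (x + 2) * (x + 3) * (x + 4)
def AA (x : ℝ) : ℝ := (x - 1) * (x + 2)
def ga (x : ℝ) : ℝ := 2 / 9 * (x + 1 / 2) / (x ^ 2 + x + 1)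
def de (x : ℝ) : ℝ := 1 / 18 / ((x + 1) ^ 2 + 3)
def om (x : ℝ) : ℝ := ga (x - 1) - ga x
def ot (x : ℝ) : ℝ := 2 * (de (x - 1) - de x)
def al (e x : ℝ) : ℝ := e ^ 2 * (x ^ 4 - x ^ 2)
def be (e x : ℝ) : ℝ := 2 / 3 * e * (x + 1 / 2)
def th (e x : ℝ) : ℝ := 3 * e * x ^ 3
def Dl (e x : ℝ) : ℝ := 3 * x * (x + 1) * e
def nu (x : ℝ) : ℝ := 1 / 2 * (AA x * ga x - AA (x - 1) * ga (x - 1)) -
  1 / 4 * (AA (x - 1) * om (x - 1) + AA x * om (x + 1))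
def nt (x : ℝ) : ℝ := 1 / 2 * (AA (x + 1) * de (x + 1) - AA (x - 1) * de (x - 2) +
  AA x * (de (x - 1) - de x))
def Ea (e x : ℝ) : ℝ := 2 * al e x - om x * th e x ^ 2
def Eb (e x : ℝ) : ℝ := al e (x + 1) - al e x - be e x * Dl e x - ot x * th e x * th e (x + 1)
def Ec (e x : ℝ) : ℝ := be e x + ga x * Dl e x - om x * th e x - om (x + 1) * th e (x + 1)
def Ed (e x : ℝ) : ℝ := 1 / 2 * (be e (x + 1) - be e x) + de x * (Dl e x + Dl e (x + 1)) -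
  1 / 2 * ot (x + 1) * th e (x + 2) - 1 / 2 * ot x * th e x

/-- `𝓛_n` (real and imaginary parts): arguments `z_{n-1}, z_n, z_{n+1}` -/
def La (e x a0 a2 b1 : ℝ) : ℝ := (x + 2) / 2 * a2 - (x - 2) / 2 * a0 + th e x * b1
def Lb (e x b0 b2 a1 : ℝ) : ℝ := (x + 2) / 2 * b2 - (x - 2) / 2 * b0 - th e x * a1

/-- density `V_n`, arguments `z_n, z_{n+1}, z_{n+2}` -/
def Vf (e x a1 b1 a2 b2 a3 b3 : ℝ) : ℝ :=
  mu x * al e x * (a1 ^ 2 + b1 ^ 2) + m1 x * be e x * (b1 * a2 - a1 * b2) +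
    m1 x * ga x * (a1 * a2 + b1 * b2) + m2 x * de x * (a1 * a3 + b1 * b3)

/-- dissipation density `D_n`, arguments `z_{n-1}, z_n, z_{n+1}, z_{n+2}` -/
def Df (e x a0 b0 a1 b1 a2 b2 a3 b3 : ℝ) : ℝ :=
  om x * mu x * (La e x a0 a2 b1 ^ 2 + Lb e x b0 b2 a1 ^ 2) +
  ot x * m1 x * (La e x a0 a2 b1 * La e (x + 1) a1 a3 b2 +
    Lb e x b0 b2 a1 * Lb e (x + 1) b1 b3 a2) +
  (nu x + Ea e x) * mu x * (a1 ^ 2 + b1 ^ 2) + (nt x + Eb e x) * m1 x * (a1 * a2 + b1 * b2) +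
  Ec e x * m1 x * (b1 * a2 - a1 * b2) + Ed e x * m2 x * (b1 * a3 - a1 * b3)

/-- flux `F_n`, arguments `z_{n-1}, z_n, z_{n+1}, z_{n+2}` -/
def Ff (e x a0 b0 a1 b1 a2 b2 a3 b3 : ℝ) : ℝ :=
  al e x * m1 (x - 1) * (a0 * a1 + b0 * b1) + 1 / 2 * be e x * m2 (x - 1) * (b0 * a2 - a0 * b2) +
  1 / 2 * ga x * m2 (x - 1) * (a0 * a2 + b0 * b2) +
  1 / 2 * de x * m3 (x - 1) * (a0 * a3 + b0 * b3) +
  1 / 2 * AA (x - 1) * ga (x - 1) * mu x * (a1 ^ 2 + b1 ^ 2) +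
  1 / 2 * AA (x - 1) * de (x - 1) * m1 x * (a1 * a2 + b1 * b2) +
  1 / 4 * om (x - 1) * AA (x - 1) * mu x * (a1 ^ 2 + b1 ^ 2) -
  1 / 4 * om x * AA (x - 1) * mu (x - 1) * (a0 ^ 2 + b0 ^ 2) +
  1 / 2 * om x * m2 (x - 1) * (a0 * a2 + b0 * b2) -
  om x * th e x * m1 (x - 1) * (b0 * a1 - a0 * b1) +
  1 / 4 * ot (x - 1) * AA (x - 1) * m1 x * (a1 * a2 + b1 * b2) -
  1 / 4 * ot x * AA x * m1 (x - 1) * (a0 * a1 + b0 * b1) +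
  1 / 4 * ot x * m3 (x - 1) * (a0 * a3 + b0 * b3) -
  1 / 2 * ot x * th e (x + 1) * m2 (x - 1) * (b0 * a2 - a0 * b2)

/-- exact local balance law -/
lemma local_identity (e x a0 b0 a1 b1 a2 b2 a3 b3 a4 b4 da1 db1 da2 db2 da3 db3 : ℝ)
    (ha1 : da1 = (2 - x) / 2 * a0 + (x + 2) / 2 * a2 + e * (x ^ 3 - x) * b1)
    (hb1 : db1 = (2 - x) / 2 * b0 + (x + 2) / 2 * b2 - e * (x ^ 3 - x) * a1)
    (ha2 : da2 = (1 - x) / 2 * a1 + (x + 3) / 2 * a3 + e * ((x + 1) ^ 3 - (x + 1)) * b2)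
    (hb2 : db2 = (1 - x) / 2 * b1 + (x + 3) / 2 * b3 - e * ((x + 1) ^ 3 - (x + 1)) * a2)
    (ha3 : da3 = (0 - x) / 2 * a2 + (x + 4) / 2 * a4 + e * ((x + 2) ^ 3 - (x + 2)) * b3)
    (hb3 : db3 = (0 - x) / 2 * b2 + (x + 4) / 2 * b4 - e * ((x + 2) ^ 3 - (x + 2)) * a3) :
    mu x * (-2 * al e x * (a1 ^ 2 + b1 ^ 2) + al e x * (2 * (a1 * da1 + b1 * db1))) +
    m1 x * (-be e x * (b1 * a2 - a1 * b2) +
      be e x * (db1 * a2 + b1 * da2 - da1 * b2 - a1 * db2)) +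
    m1 x * ga x * (da1 * a2 + a1 * da2 + db1 * b2 + b1 * db2) +
    m2 x * de x * (da1 * a3 + a1 * da3 + db1 * b3 + b1 * db3) =
    -Df e x a0 b0 a1 b1 a2 b2 a3 b3 + Ff e (x + 1) a1 b1 a2 b2 a3 b3 a4 b4 -
      Ff e x a0 b0 a1 b1 a2 b2 a3 b3 := by
  have e1 : x + 1 - 1 = x := by ring
  have e2 : x + 1 + 1 = x + 2 := by ring
  have e3 : x - 1 - 1 = x - 2 := by ring
  have e4 : x + 1 - 2 = x - 1 := by ring
  subst ha1 hb1 ha2 hb2 ha3 hb3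
  simp only [Df, Ff, La, Lb, nu, nt, Ea, Eb, Ec, Ed, om, ot, e1, e2, e3]
  generalize ga (x - 1) = gm1
  generalize ga (x - 2) = gm2
  generalize ga (x + 1) = gp1
  generalize ga x = g0
  generalize de (x - 2) = dm2
  generalize de (x - 1) = dm1
  generalize de (x + 1) = dp1
  generalize de x = d0
  simp only [al, be, th, Dl, mu, m1, m2, m3, AA]
  ring

end

end Run7.h736.Lin
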