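import Pool.Agent.Run7.h736.LinA

namespace Run7.h736.Lin

noncomputable section

/-! Scalar inequalities for the coefficient functions, `x ≥ 2`. -/

lemma om_eq (x : ℝ) : om x = 2 / 9 * (x ^ 2 - 1) / ((x ^ 2 - x + 1) * (x ^ 2 + x + 1)) := by
  have h1 : x ^ 2 + x + 1 ≠ 0 := by nlinarith [sq_nonneg (x + 1 / 2)]
  have h2 : x ^ 2 - x + 1 ≠ 0 := by nlinarith [sq_nonneg (x - 1 / 2)]
  have h3 : (x - 1) ^ 2 + (x - 1) + 1 = x ^ 2 - x + 1 := by ring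
  unfold om ga
  rw [h3, div_sub_div _ _ h2 h1, div_eq_div_iff (mul_ne_zero h2 h1) (mul_ne_zero h2 h1)]
  ring

lemma ot_eq (x : ℝ) : ot x = 1 / 9 * (2 * x + 1) / ((x ^ 2 + 3) * ((x + 1) ^ 2 + 3)) := by
  have h1 : (x + 1) ^ 2 + 3 ≠ 0 := by positivity
  have h2 : x ^ 2 + 3 ≠ 0 := by positivity
  have h3 : x - 1 + 1 = x := by ring
  unfold ot de
  rw [h3]
  field_simp
  ring

lemma ot_nonneg {x : ℝ} (hx : 0 ≤ x) : 0 ≤ ot x := by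
  rw [ot_eq]; positivity

section

variable {x : ℝ}

lemma S7 (hx : 2 ≤ x) :
    0 ≤ om x - 1 / 2 * (x + 1 / 2) * ot x - 1 / 2 * (x - 1 / 2) * ot (x - 1) := by
  obtain ⟨m, rfl⟩ : ∃ m, x = m + 2 := ⟨x - 2, by ring⟩
  have hm : 0 ≤ m := by linarith
  rw [om_eq, ot_eq, ot_eq]
  have h1 : (m + 2) ^ 2 - (m + 2) + 1 = m ^ 2 + 3 * m + 3 := by ring
  have h2 : (m + 2) ^ 2 + (m + 2) + 1 = m ^ 2 + 5 * m + 7 := by ring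
  have h3 : (m + 2) ^ 2 + 3 = m ^ 2 + 4 * m + 7 := by ring
  have h4 : (m + 2 + 1) ^ 2 + 3 = m ^ 2 + 6 * m + 12 := by ring
  have h5 : (m + 2 - 1) ^ 2 + 3 = m ^ 2 + 2 * m + 4 := by ring
  have h6 : (m + 2 - 1 + 1) ^ 2 + 3 = m ^ 2 + 4 * m + 7 := by ring
  rw [h1, h2, h3, h4, h5, h6]
  have key : 2 / 9 * ((m + 2) ^ 2 - 1) / ((m ^ 2 + 3 * m + 3) * (m ^ 2 + 5 * m + 7)) -
      1 / 2 * (m + 2 + 1 / 2) * (1 / 9 * (2 * (m + 2) + 1) /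
        ((m ^ 2 + 4 * m + 7) * (m ^ 2 + 6 * m + 12))) -
      1 / 2 * (m + 2 - 1 / 2) * (1 / 9 * (2 * (m + 2 - 1) + 1) /
        ((m ^ 2 + 2 * m + 4) * (m ^ 2 + 4 * m + 7))) =
      (1848 + 4524 * m ^ 1 + 4315 * m ^ 2 + 2296 * m ^ 3 + 727 * m ^ 4 + 132 * m ^ 5 +
        11 * m ^ 6) / (18 * ((m ^ 2 + 3 * m + 3) * (m ^ 2 + 5 * m + 7) * (m ^ 2 + 4 * m + 7) *
          (m ^ 2 + 6 * m + 12) * (m ^ 2 + 2 * m + 4))) := by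
    field_simp
    ring
  rw [key]
  positivity

lemma nt_eq (m : ℝ) (hm : 0 ≤ m) : nt (m + 2) =
    (1220 + 1688 * m ^ 1 + 970 * m ^ 2 + 296 * m ^ 3 + 50 * m ^ 4 + 4 * m ^ 5) /
    (9 * ((m ^ 2 + 8 * m + 19) * (m ^ 2 + 6 * m + 12) * (m ^ 2 + 4 * m + 7) *
      (m ^ 2 + 2 * m + 4))) := by
  unfold nt de AA
  have h1 : (m + 2 + 1 + 1) ^ 2 + 3 = m ^ 2 + 8 * m + 19 := by ring
  have h2 : (m + 2 - 2 + 1) ^ 2 + 3 = m ^ 2 + 2 * m + 4 := by ring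
  have h3 : (m + 2 - 1 + 1) ^ 2 + 3 = m ^ 2 + 4 * m + 7 := by ring
  have h4 : (m + 2 + 1) ^ 2 + 3 = m ^ 2 + 6 * m + 12 := by ring
  rw [h1, h2, h3, h4]
  field_simp
  ring

lemma nt_nonneg (hx : 2 ≤ x) : 0 ≤ nt x := by
  obtain ⟨m, rfl⟩ : ∃ m, x = m + 2 := ⟨x - 2, by ring⟩
  have hm : 0 ≤ m := by linarith
  rw [nt_eq m hm]
  positivity

lemma S8 (hx : 2 ≤ x) :
    1 / (10 * x ^ 2) ≤ nu x - 1 / 2 * (x + 1 / 2) * nt x - 1 / 2 * (x - 1 / 2) * nt (x - 1) := by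
  obtain ⟨m, rfl⟩ : ∃ m, x = m + 2 := ⟨x - 2, by ring⟩
  have hm : 0 ≤ m := by linarith
  rw [← sub_nonneg]
  have e1 : m + 2 - 1 = m + 1 := by ring
  have e2 : m + 2 + 1 = m + 3 := by ring
  have e3 : m + 2 - 2 = m := by ring
  have e4 : m + 1 - 1 = m := by ring
  have e5 : m + 3 - 1 = m + 2 := by ring
  have e6 : m + 1 + 1 = m + 2 := by ring
  have e7 : m + 1 - 2 = m - 1 := by ring
  simp only [nu, nt, om, e1, e2, e3, e4, e5, e6, e7]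
  simp only [ga, de, AA]
  have q1 : (m + 2) ^ 2 + (m + 2) + 1 = m ^ 2 + 5 * m + 7 := by ring
  have q0 : (m + 1) ^ 2 + (m + 1) + 1 = m ^ 2 + 3 * m + 3 := by ring
  have qm : m ^ 2 + m + 1 = m ^ 2 + m + 1 := rfl
  have q2 : (m + 3) ^ 2 + (m + 3) + 1 = m ^ 2 + 7 * m + 13 := by ring
  have d1 : (m + 3 + 1) ^ 2 + 3 = m ^ 2 + 8 * m + 19 := by ring
  have d0 : (m + 2 + 1) ^ 2 + 3 = m ^ 2 + 6 * m + 12 := by ring
  have dm1 : (m + 1 + 1) ^ 2 + 3 = m ^ 2 + 4 * m + 7 := by ring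
  have dm2 : (m + 1) ^ 2 + 3 = m ^ 2 + 2 * m + 4 := by ring
  have dm3 : (m - 1 + 1) ^ 2 + 3 = m ^ 2 + 3 := by ring
  rw [q1, q0, q2, d1, d0, dm1, dm2, dm3]
  have key : 1 / 2 *
            ((m + 2 - 1) * (m + 2 + 2) * (2 / 9 * (m + 2 + 1 / 2) / (m ^ 2 + 5 * m + 7)) -
              (m + 1 - 1) * (m + 1 + 2) * (2 / 9 * (m + 1 + 1 / 2) / (m ^ 2 + 3 * m + 3))) -
          1 / 4 *
            ((m + 1 - 1) * (m + 1 + 2) *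
                (2 / 9 * (m + 1 / 2) / (m ^ 2 + m + 1) - 2 / 9 * (m + 1 + 1 / 2) / (m ^ 2 + 3 * m + 3)) +
              (m + 2 - 1) * (m + 2 + 2) *
                (2 / 9 * (m + 2 + 1 / 2) / (m ^ 2 + 5 * m + 7) -
                  2 / 9 * (m + 3 + 1 / 2) / (m ^ 2 + 7 * m + 13))) -
        1 / 2 * (m + 2 + 1 / 2) *
          (1 / 2 *
            ((m + 3 - 1) * (m + 3 + 2) * (1 / 18 / (m ^ 2 + 8 * m + 19)) -
                (m + 1 - 1) * (m + 1 + 2) * (1 / 18 / (m ^ 2 + 2 * m + 4)) +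
              (m + 2 - 1) * (m + 2 + 2) * (1 / 18 / (m ^ 2 + 4 * m + 7) - 1 / 18 / (m ^ 2 + 6 * m + 12)))) -
      1 / 2 * (m + 2 - 1 / 2) *
        (1 / 2 *
          ((m + 2 - 1) * (m + 2 + 2) * (1 / 18 / (m ^ 2 + 6 * m + 12)) -
              (m - 1) * (m + 2) * (1 / 18 / (m ^ 2 + 3)) +
            (m + 1 - 1) * (m + 1 + 2) * (1 / 18 / (m ^ 2 + 2 * m + 4) - 1 / 18 / (m ^ 2 + 4 * m + 7)))) -
    1 / (10 * (m + 2) ^ 2) =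
    (125770176 + 745852896 * m ^ 1 + 2015630760 * m ^ 2 + 3366618264 * m ^ 3 + 3931202795 * m ^ 4 +
      3435266996 * m ^ 5 + 2354390351 * m ^ 6 + 1318268800 * m ^ 7 + 629012200 * m ^ 8 +
      266420520 * m ^ 9 + 102471010 * m ^ 10 + 35362960 * m ^ 11 + 10508006 * m ^ 12 +
      2556176 * m ^ 13 + 484700 * m ^ 14 + 68064 * m ^ 15 + 6615 * m ^ 16 + 396 * m ^ 17 +
      11 * m ^ 18) / (90 * ((m ^ 2 + 5 * m + 7) * (m ^ 2 + 3 * m + 3) * (m ^ 2 + m + 1) *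
        (m ^ 2 + 7 * m + 13) * (m ^ 2 + 8 * m + 19) * (m ^ 2 + 6 * m + 12) * (m ^ 2 + 4 * m + 7) *
        (m ^ 2 + 2 * m + 4) * (m ^ 2 + 3) * (m + 2) ^ 2)) := by
    field_simp
    ring
  rw [key]
  positivity

lemma Ea_nonneg (e : ℝ) (hx : 2 ≤ x) : 0 ≤ Ea e x := by
  obtain ⟨m, rfl⟩ : ∃ m, x = m + 2 := ⟨x - 2, by ring⟩
  have hm : 0 ≤ m := by linarith
  unfold Ea
  rw [om_eq]
  simp only [al, th]
  have h1 : (m + 2) ^ 2 - (m + 2) + 1 = m ^ 2 + 3 * m + 3 := by ring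
  have h2 : (m + 2) ^ 2 + (m + 2) + 1 = m ^ 2 + 5 * m + 7 := by ring
  rw [h1, h2]
  have key : 2 * (e ^ 2 * ((m + 2) ^ 4 - (m + 2) ^ 2)) -
      2 / 9 * ((m + 2) ^ 2 - 1) / ((m ^ 2 + 3 * m + 3) * (m ^ 2 + 5 * m + 7)) *
        (3 * e * (m + 2) ^ 3) ^ 2 =
      e ^ 2 * (120 + 376 * m ^ 1 + 478 * m ^ 2 + 320 * m ^ 3 + 120 * m ^ 4 + 24 * m ^ 5 +
        2 * m ^ 6) / ((m ^ 2 + 3 * m + 3) * (m ^ 2 + 5 * m + 7)) := by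
    field_simp
    ring
  rw [key]
  positivity

lemma Eb_eq (e m : ℝ) (hm : 0 ≤ m) : Eb e (m + 2) =
    e ^ 2 * ((1440 + 2676 * m ^ 1 + 2010 * m ^ 2 + 768 * m ^ 3 + 150 * m ^ 4 + 12 * m ^ 5) /
      ((m ^ 2 + 6 * m + 12) * (m ^ 2 + 4 * m + 7))) := by
  unfold Eb
  rw [ot_eq]
  simp only [al, be, Dl, th]
  have h3 : (m + 2) ^ 2 + 3 = m ^ 2 + 4 * m + 7 := by ring
  have h4 : (m + 2 + 1) ^ 2 + 3 = m ^ 2 + 6 * m + 12 := by ring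
  rw [h3, h4]
  field_simp
  ring

lemma Eb_nonneg (e : ℝ) (hx : 2 ≤ x) : 0 ≤ Eb e x := by
  obtain ⟨m, rfl⟩ : ∃ m, x = m + 2 := ⟨x - 2, by ring⟩
  have hm : 0 ≤ m := by linarith
  rw [Eb_eq e m hm]
  positivity

lemma Eb_le (e : ℝ) (hx : 2 ≤ x) : 1 / 2 * (x + 1 / 2) * Eb e x ≤ 8 * e ^ 2 * x ^ 2 := by
  obtain ⟨m, rfl⟩ : ∃ m, x = m + 2 := ⟨x - 2, by ring⟩
  have hm : 0 ≤ m := by linarith
  rw [Eb_eq e m hm, ← sub_nonneg]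
  have key : 8 * e ^ 2 * (m + 2) ^ 2 - 1 / 2 * (m + 2 + 1 / 2) * (e ^ 2 *
      ((1440 + 2676 * m ^ 1 + 2010 * m ^ 2 + 768 * m ^ 3 + 150 * m ^ 4 + 12 * m ^ 5) /
      ((m ^ 2 + 6 * m + 12) * (m ^ 2 + 4 * m + 7)))) =
      e ^ 2 * (1776 + 3006 * m ^ 1 + 2155 * m ^ 2 + 902 * m ^ 3 + 249 * m ^ 4 + 44 * m ^ 5 +
        4 * m ^ 6) / (2 * ((m ^ 2 + 6 * m + 12) * (m ^ 2 + 4 * m + 7))) := by
    field_simp
    ring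
  rw [key]
  positivity

lemma Ec_eq (e m : ℝ) (hm : 0 ≤ m) : Ec e (m + 2) =
    e * ((615 + 1196 * m ^ 1 + 945 * m ^ 2 + 376 * m ^ 3 + 75 * m ^ 4 + 6 * m ^ 5) /
      (3 * ((m ^ 2 + 5 * m + 7) * (m ^ 2 + 3 * m + 3) * (m ^ 2 + 7 * m + 13)))) := by
  unfold Ec
  rw [om_eq, om_eq]
  simp only [be, ga, Dl, th]
  have h1 : (m + 2) ^ 2 - (m + 2) + 1 = m ^ 2 + 3 * m + 3 := by ring
  have h2 : (m + 2) ^ 2 + (m + 2) + 1 = m ^ 2 + 5 * m + 7 := by ring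
  have h3 : (m + 2 + 1) ^ 2 - (m + 2 + 1) + 1 = m ^ 2 + 5 * m + 7 := by ring
  have h4 : (m + 2 + 1) ^ 2 + (m + 2 + 1) + 1 = m ^ 2 + 7 * m + 13 := by ring
  rw [h1, h2, h3, h4]
  field_simp
  ring

lemma Ec_nonneg {e : ℝ} (he : 0 ≤ e) (hx : 2 ≤ x) : 0 ≤ Ec e x := by
  obtain ⟨m, rfl⟩ : ∃ m, x = m + 2 := ⟨x - 2, by ring⟩
  have hm : 0 ≤ m := by linarith
  rw [Ec_eq e m hm]
  positivity

lemma Ec_le {e : ℝ} (he : 0 ≤ e) (hx : 2 ≤ x) : 1 / 2 * (x + 1 / 2) * Ec e x ≤ 2 * e := by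
  obtain ⟨m, rfl⟩ : ∃ m, x = m + 2 := ⟨x - 2, by ring⟩
  have hm : 0 ≤ m := by linarith
  rw [Ec_eq e m hm, ← sub_nonneg]
  have key : 2 * e - 1 / 2 * (m + 2 + 1 / 2) * (e *
      ((615 + 1196 * m ^ 1 + 945 * m ^ 2 + 376 * m ^ 3 + 75 * m ^ 4 + 6 * m ^ 5) /
      (3 * ((m ^ 2 + 5 * m + 7) * (m ^ 2 + 3 * m + 3) * (m ^ 2 + 7 * m + 13))))) =
      e * (3477 + 7550 * m ^ 1 + 7235 * m ^ 2 + 3790 * m ^ 3 + 1129 * m ^ 4 + 180 * m ^ 5 +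
        12 * m ^ 6) / (12 * ((m ^ 2 + 5 * m + 7) * (m ^ 2 + 3 * m + 3) *
          (m ^ 2 + 7 * m + 13))) := by
    field_simp
    ring
  rw [key]
  positivity

lemma Ed_eq (e m : ℝ) (hm : 0 ≤ m) : Ed e (m + 2) =
    e * ((845 + 966 * m ^ 1 + 449 * m ^ 2 + 96 * m ^ 3 + 8 * m ^ 4) /
      (3 * ((m ^ 2 + 8 * m + 19) * (m ^ 2 + 6 * m + 12) * (m ^ 2 + 4 * m + 7)))) := by
  unfold Ed
  rw [ot_eq, ot_eq]
  simp only [be, de, Dl, th]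
  have h1 : (m + 2) ^ 2 + 3 = m ^ 2 + 4 * m + 7 := by ring
  have h2 : (m + 2 + 1) ^ 2 + 3 = m ^ 2 + 6 * m + 12 := by ring
  have h3 : (m + 2 + 1 + 1) ^ 2 + 3 = m ^ 2 + 8 * m + 19 := by ring
  rw [h3, h2, h1]
  field_simp
  ring

lemma Ed_nonneg {e : ℝ} (he : 0 ≤ e) (hx : 2 ≤ x) : 0 ≤ Ed e x := by
  obtain ⟨m, rfl⟩ : ∃ m, x = m + 2 := ⟨x - 2, by ring⟩
  have hm : 0 ≤ m := by linarith
  rw [Ed_eq e m hm]
  positivity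

lemma Ed_le {e : ℝ} (he : 0 ≤ e) (hx : 2 ≤ x) : 1 / 2 * (x + 1) ^ 2 * Ed e x ≤ 4 * e := by
  obtain ⟨m, rfl⟩ : ∃ m, x = m + 2 := ⟨x - 2, by ring⟩
  have hm : 0 ≤ m := by linarith
  rw [Ed_eq e m hm, ← sub_nonneg]
  have key : 4 * e - 1 / 2 * (m + 2 + 1) ^ 2 * (e *
      ((845 + 966 * m ^ 1 + 449 * m ^ 2 + 96 * m ^ 3 + 8 * m ^ 4) /
      (3 * ((m ^ 2 + 8 * m + 19) * (m ^ 2 + 6 * m + 12) * (m ^ 2 + 4 * m + 7))))) =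
      e * (30699 + 43404 * m ^ 1 + 28222 * m ^ 2 + 10452 * m ^ 3 + 2311 * m ^ 4 + 288 * m ^ 5 +
        16 * m ^ 6) / (6 * ((m ^ 2 + 8 * m + 19) * (m ^ 2 + 6 * m + 12) *
          (m ^ 2 + 4 * m + 7))) := by
    field_simp
    ring
  rw [key]
  positivity

end

/-! Algebraic Cauchy–Schwarz splittings. -/

lemma cross1 {x : ℝ} (hx : 2 ≤ x) {N1 N2 c : ℝ} (h1 : 0 ≤ N1) (h2 : 0 ≤ N2)
    (hc : c ^ 2 ≤ N1 * N2) :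
    |m1 x * c| ≤ 1 / 2 * (x + 1 / 2) * (mu x * N1 + mu (x + 1) * N2) := by
  have hmu : 0 ≤ mu x := by
    unfold mu
    have : 0 ≤ x - 1 := by linarith
    positivity
  have hmu' : 0 ≤ mu (x + 1) := by
    unfold mu
    have : 0 ≤ x + 1 - 1 := by linarith
    positivity
  have hP : 0 ≤ mu x * N1 := mul_nonneg hmu h1
  have hQ : 0 ≤ mu (x + 1) * N2 := mul_nonneg hmu' h2
  apply abs_le_of_sq_le_sq _ (by positivity)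
  have e1 : (m1 x) ^ 2 = (mu x * mu (x + 1)) * ((x - 1) * (x + 2)) := by
    unfold m1 mu; ring
  have e2 : (x - 1) * (x + 2) ≤ (x + 1 / 2) ^ 2 := by nlinarith
  have e3 : 0 ≤ (x - 1) * (x + 2) := by nlinarith
  calc (m1 x * c) ^ 2 = (m1 x) ^ 2 * c ^ 2 := by ring
    _ ≤ (m1 x) ^ 2 * (N1 * N2) := mul_le_mul_of_nonneg_left hc (sq_nonneg _)
    _ = (mu x * N1) * (mu (x + 1) * N2) * ((x - 1) * (x + 2)) := by rw [e1]; ring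
    _ ≤ (mu x * N1) * (mu (x + 1) * N2) * (x + 1 / 2) ^ 2 :=
        mul_le_mul_of_nonneg_left e2 (mul_nonneg hP hQ)
    _ ≤ (1 / 2 * (x + 1 / 2) * (mu x * N1 + mu (x + 1) * N2)) ^ 2 := by
        have : (mu x * N1) * (mu (x + 1) * N2) ≤ (1 / 2 * (mu x * N1 + mu (x + 1) * N2)) ^ 2 := by
          nlinarith [sq_nonneg (mu x * N1 - mu (x + 1) * N2)]
        calc _ ≤ (1 / 2 * (mu x * N1 + mu (x + 1) * N2)) ^ 2 * (x + 1 / 2) ^ 2 :=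
              mul_le_mul_of_nonneg_right this (sq_nonneg _)
          _ = _ := by ring

lemma cross2 {x : ℝ} (hx : 2 ≤ x) {N1 N3 c : ℝ} (h1 : 0 ≤ N1) (h2 : 0 ≤ N3)
    (hc : c ^ 2 ≤ N1 * N3) :
    |m2 x * c| ≤ 1 / 2 * (x + 1) ^ 2 * (mu x * N1 + mu (x + 2) * N3) := by
  have hmu : 0 ≤ mu x := by
    unfold mu
    have : 0 ≤ x - 1 := by linarith
    positivity
  have hmu' : 0 ≤ mu (x + 2) := by
    unfold mu
    have : 0 ≤ x + 2 - 1 := by linarith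
    positivity
  have hP : 0 ≤ mu x * N1 := mul_nonneg hmu h1
  have hQ : 0 ≤ mu (x + 2) * N3 := mul_nonneg hmu' h2
  apply abs_le_of_sq_le_sq _ (by positivity)
  have e1 : (m2 x) ^ 2 = (mu x * mu (x + 2)) * ((x - 1) * x * (x + 2) * (x + 3)) := by
    unfold m2 mu; ring
  have e2 : (x - 1) * x * (x + 2) * (x + 3) ≤ ((x + 1) ^ 2) ^ 2 := by
    nlinarith [sq_nonneg x, mul_nonneg (show (0:ℝ) ≤ x by linarith) (show (0:ℝ) ≤ x by linarith)]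
  calc (m2 x * c) ^ 2 = (m2 x) ^ 2 * c ^ 2 := by ring
    _ ≤ (m2 x) ^ 2 * (N1 * N3) := mul_le_mul_of_nonneg_left hc (sq_nonneg _)
    _ = (mu x * N1) * (mu (x + 2) * N3) * ((x - 1) * x * (x + 2) * (x + 3)) := by rw [e1]; ring
    _ ≤ (mu x * N1) * (mu (x + 2) * N3) * ((x + 1) ^ 2) ^ 2 :=
        mul_le_mul_of_nonneg_left e2 (mul_nonneg hP hQ)
    _ ≤ (1 / 2 * (x + 1) ^ 2 * (mu x * N1 + mu (x + 2) * N3)) ^ 2 := by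
        have : (mu x * N1) * (mu (x + 2) * N3) ≤ (1 / 2 * (mu x * N1 + mu (x + 2) * N3)) ^ 2 := by
          nlinarith [sq_nonneg (mu x * N1 - mu (x + 2) * N3)]
        calc _ ≤ (1 / 2 * (mu x * N1 + mu (x + 2) * N3)) ^ 2 * ((x + 1) ^ 2) ^ 2 :=
              mul_le_mul_of_nonneg_right this (sq_nonneg _)
          _ = _ := by ring

end

end Run7.h736.Lin
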