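import Pool.Agent.Run7.h736.LinB

namespace Run7.h736.Lin

noncomputable section

/-- telescoping part of the dissipation -/
def Tf (e x a0 b0 a1 b1 a2 b2 : ℝ) : ℝ :=
  1 / 2 * (x - 1 / 2) * ot (x - 1) * (mu x * (La e x a0 a2 b1 ^ 2 + Lb e x b0 b2 a1 ^ 2)) +
  1 / 2 * (x - 1 / 2) * nt (x - 1) * (mu x * (a1 ^ 2 + b1 ^ 2)) +
  (8 * e ^ 2 * x ^ 2 + 2 * e) * (mu x * (a1 ^ 2 + b1 ^ 2)) +
  4 * e * (mu x * (a1 ^ 2 + b1 ^ 2) + mu (x + 1) * (a2 ^ 2 + b2 ^ 2))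

/-- telescoping part of the energy -/
def Uf (e x a1 b1 a2 b2 : ℝ) : ℝ :=
  (1 / 3 * e * (x + 1 / 2) ^ 2 + 1 / 9) * (mu x * (a1 ^ 2 + b1 ^ 2)) +
  1 / 36 * (mu x * (a1 ^ 2 + b1 ^ 2) + mu (x + 1) * (a2 ^ 2 + b2 ^ 2))

lemma mu_nonneg {x : ℝ} (hx : 1 ≤ x) : 0 ≤ mu x := by
  unfold mu
  have : 0 ≤ x - 1 := by linarith
  positivity

lemma cs_dot (a1 b1 a2 b2 : ℝ) :
    (a1 * a2 + b1 * b2) ^ 2 ≤ (a1 ^ 2 + b1 ^ 2) * (a2 ^ 2 + b2 ^ 2) := by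
  nlinarith [sq_nonneg (a1 * b2 - a2 * b1)]

lemma cs_cross (a1 b1 a2 b2 : ℝ) :
    (b1 * a2 - a1 * b2) ^ 2 ≤ (a1 ^ 2 + b1 ^ 2) * (a2 ^ 2 + b2 ^ 2) := by
  nlinarith [sq_nonneg (a1 * a2 + b1 * b2)]

lemma density_ge {e x : ℝ} (he : 0 ≤ e) (hx : 2 ≤ x) (a0 b0 a1 b1 a2 b2 a3 b3 : ℝ) :
    (1 / (10 * x ^ 2) - 16 * e ^ 2 * x ^ 2 - 12 * e) * (mu x * (a1 ^ 2 + b1 ^ 2)) +
      Tf e x a0 b0 a1 b1 a2 b2 - Tf e (x + 1) a1 b1 a2 b2 a3 b3 ≤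
    Df e x a0 b0 a1 b1 a2 b2 a3 b3 := by
  have hx0 : 0 ≤ x := by linarith
  set L1 := La e x a0 a2 b1 with hL1
  set L2 := Lb e x b0 b2 a1 with hL2
  set L3 := La e (x + 1) a1 a3 b2 with hL3
  set L4 := Lb e (x + 1) b1 b3 a2 with hL4
  have c1 := cross1 hx (N1 := L1 ^ 2 + L2 ^ 2) (N2 := L3 ^ 2 + L4 ^ 2) (by positivity)
    (by positivity) (cs_dot L1 L2 L3 L4)
  have c2 := cross1 hx (N1 := a1 ^ 2 + b1 ^ 2) (N2 := a2 ^ 2 + b2 ^ 2) (by positivity)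
    (by positivity) (cs_dot a1 b1 a2 b2)
  have c3 := cross1 hx (N1 := a1 ^ 2 + b1 ^ 2) (N2 := a2 ^ 2 + b2 ^ 2) (by positivity)
    (by positivity) (cs_cross a1 b1 a2 b2)
  have c4 := cross2 hx (N1 := a1 ^ 2 + b1 ^ 2) (N3 := a3 ^ 2 + b3 ^ 2) (by positivity)
    (by positivity) (cs_cross a1 b1 a3 b3)
  have hE : x + 1 - 1 = x := by ring
  have hE2 : x + 1 + 1 = x + 2 := by ring
  have hE3 : x + 1 - 1 / 2 = x + 1 / 2 := by ring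
  unfold Tf Df
  rw [hE, hE2, hE3, ← hL1, ← hL2, ← hL3, ← hL4]
  have p1 := mu_nonneg (show 1 ≤ x by linarith)
  have p2 := mu_nonneg (show 1 ≤ x + 1 by linarith)
  have p3 := mu_nonneg (show 1 ≤ x + 2 by linarith)
  set Y1 := mu x * (a1 ^ 2 + b1 ^ 2) with hY1
  set Y2 := mu (x + 1) * (a2 ^ 2 + b2 ^ 2) with hY2
  set Y3 := mu (x + 2) * (a3 ^ 2 + b3 ^ 2) with hY3
  set G1 := mu x * (L1 ^ 2 + L2 ^ 2) with hG1
  set G2 := mu (x + 1) * (L3 ^ 2 + L4 ^ 2) with hG2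
  have hY1' : 0 ≤ Y1 := by positivity
  have hY2' : 0 ≤ Y2 := by positivity
  have hY3' : 0 ≤ Y3 := by positivity
  have hG1' : 0 ≤ G1 := by positivity
  have hot := ot_nonneg hx0
  have hnt := nt_nonneg hx
  have hEb := Eb_nonneg e hx
  have hEc := Ec_nonneg he hx
  have hEd := Ed_nonneg he hx
  have hEa := Ea_nonneg e hx
  have s7 := mul_nonneg (S7 hx) hG1'
  have s8 := mul_le_mul_of_nonneg_right (S8 hx) hY1'
  have i1 := mul_le_mul_of_nonneg_left (abs_le.1 c1).1 hot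
  have i2 := mul_le_mul_of_nonneg_left (abs_le.1 c2).1 hnt
  have i3 := mul_le_mul_of_nonneg_left (abs_le.1 c2).1 hEb
  have i4 := mul_le_mul_of_nonneg_left (abs_le.1 c3).1 hEc
  have i5 := mul_le_mul_of_nonneg_left (abs_le.1 c4).1 hEd
  have j3 := mul_le_mul_of_nonneg_right (Eb_le e hx) (add_nonneg hY1' hY2')
  have j4 := mul_le_mul_of_nonneg_right (Ec_le he hx) (add_nonneg hY1' hY2')
  have j5 := mul_le_mul_of_nonneg_right (Ed_le he hx) (add_nonneg hY1' hY3')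
  have j6 : 0 ≤ Ea e x * Y1 := mul_nonneg hEa hY1'
  have j7 : 0 ≤ 8 * e ^ 2 * (2 * x + 1) * Y2 := by positivity
  have t1 : om x * mu x * (L1 ^ 2 + L2 ^ 2) = om x * G1 := by rw [hG1]; ring
  have t2 : (nu x + Ea e x) * mu x * (a1 ^ 2 + b1 ^ 2) = (nu x + Ea e x) * Y1 := by rw [hY1]; ring
  rw [t1, t2]
  linarith [s7, s8, i1, i2, i3, i4, i5, j3, j4, j5, j6, j7]

lemma coercive {e x : ℝ} (he : 0 ≤ e) (hx : 2 ≤ x) (a1 b1 a2 b2 a3 b3 : ℝ) :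
    1 / 2 * (1 + e ^ 2 * x ^ 4) * (mu x * (a1 ^ 2 + b1 ^ 2)) + Uf e x a1 b1 a2 b2 -
      Uf e (x + 1) a2 b2 a3 b3 ≤
    Vf e x a1 b1 a2 b2 a3 b3 + 2 * (mu x * (a1 ^ 2 + b1 ^ 2)) := by
  have hx0 : 0 ≤ x := by linarith
  have c2 := cross1 hx (N1 := a1 ^ 2 + b1 ^ 2) (N2 := a2 ^ 2 + b2 ^ 2) (by positivity)
    (by positivity) (cs_dot a1 b1 a2 b2)
  have c3 := cross1 hx (N1 := a1 ^ 2 + b1 ^ 2) (N2 := a2 ^ 2 + b2 ^ 2) (by positivity)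
    (by positivity) (cs_cross a1 b1 a2 b2)
  have c4 := cross2 hx (N1 := a1 ^ 2 + b1 ^ 2) (N3 := a3 ^ 2 + b3 ^ 2) (by positivity)
    (by positivity) (cs_dot a1 b1 a3 b3)
  have hE2 : x + 1 + 1 = x + 2 := by ring
  have p1 := mu_nonneg (show 1 ≤ x by linarith)
  have p2 := mu_nonneg (show 1 ≤ x + 1 by linarith)
  have p3 := mu_nonneg (show 1 ≤ x + 2 by linarith)
  unfold Uf Vf
  rw [hE2]
  set Y1 := mu x * (a1 ^ 2 + b1 ^ 2) with hY1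
  set Y2 := mu (x + 1) * (a2 ^ 2 + b2 ^ 2) with hY2
  set Y3 := mu (x + 2) * (a3 ^ 2 + b3 ^ 2) with hY3
  have hY1' : 0 ≤ Y1 := by positivity
  have hY2' : 0 ≤ Y2 := by positivity
  have hY3' : 0 ≤ Y3 := by positivity
  have hbe : 0 ≤ be e x := by unfold be; positivity
  have hga : 0 ≤ ga x := by unfold ga; positivity
  have hde : 0 ≤ de x := by unfold de; positivity
  have g1 : 1 / 2 * (x + 1 / 2) * ga x ≤ 1 / 9 := by
    unfold ga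
    rw [mul_div_assoc', div_le_iff₀ (by positivity)]
    nlinarith
  have g2 : 1 / 2 * (x + 1) ^ 2 * de x ≤ 1 / 36 := by
    unfold de
    rw [mul_div_assoc', div_le_iff₀ (by positivity)]
    nlinarith
  have i1 := mul_le_mul_of_nonneg_left (abs_le.1 c3).1 hbe
  have i2 := mul_le_mul_of_nonneg_left (abs_le.1 c2).1 hga
  have i3 := mul_le_mul_of_nonneg_left (abs_le.1 c4).1 hde
  have j2 := mul_le_mul_of_nonneg_right g1 (add_nonneg hY1' hY2')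
  have j3 := mul_le_mul_of_nonneg_right g2 (add_nonneg hY1' hY3')
  have hbe' : be e x * (1 / 2 * (x + 1 / 2) * (Y1 + Y2)) =
      1 / 3 * e * (x + 1 / 2) ^ 2 * (Y1 + Y2) := by unfold be; ring
  have k1 : 0 ≤ e * (2 * x + 2) * Y2 := by positivity
  have t1 : mu x * al e x * (a1 ^ 2 + b1 ^ 2) = al e x * Y1 := by rw [hY1]; ring
  -- the quadratic inequality in `s = e x²`
  have quad : 0 ≤ al e x - 1 / 2 * e ^ 2 * x ^ 4 - 2 / 3 * e * (x + 1 / 2) ^ 2 + 11 / 9 := by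
    unfold al
    have h1 : e ^ 2 * x ^ 2 ≤ 1 / 4 * (e ^ 2 * x ^ 4) := by
      have h0 : 4 ≤ x ^ 2 := by nlinarith
      have : x ^ 2 * 4 ≤ x ^ 4 := by
        calc x ^ 2 * 4 ≤ x ^ 2 * x ^ 2 := mul_le_mul_of_nonneg_left h0 (sq_nonneg x)
          _ = x ^ 4 := by ring
      have := mul_le_mul_of_nonneg_left this (sq_nonneg e)
      linarith
    have h2 : (x + 1 / 2) ^ 2 ≤ 25 / 16 * x ^ 2 := by nlinarith
    have h3 : e * (x + 1 / 2) ^ 2 ≤ 25 / 16 * (e * x ^ 2) := by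
      have := mul_le_mul_of_nonneg_left h2 he
      linarith
    have h4 := sq_nonneg (e * x ^ 2 - 25 / 12)
    have h5 : (e * x ^ 2 - 25 / 12) ^ 2 = e ^ 2 * x ^ 4 - 25 / 6 * (e * x ^ 2) + 625 / 144 := by ring
    rw [h5] at h4
    linarith
  have k2 := mul_nonneg quad hY1'
  rw [t1]
  linarith [i1, i2, i3, j2, j3, hbe', k1, k2]

end

end Run7.h736.Lin
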