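import Pool.Agent.Run7.h736.LinC

open Set

namespace Run7.h736.Lin

noncomputable section

/-- derivative of the density `V_n` in time -/
lemma hasDerivAt_Vf {T t x : ℝ} (hT : T - t ≠ 0) {a1 b1 a2 b2 a3 b3 : ℝ → ℝ}
    {A1 B1 A2 B2 A3 B3 : ℝ}
    (ha1 : HasDerivAt a1 (A1 / (T - t)) t) (hb1 : HasDerivAt b1 (B1 / (T - t)) t)
    (ha2 : HasDerivAt a2 (A2 / (T - t)) t) (hb2 : HasDerivAt b2 (B2 / (T - t)) t)
    (ha3 : HasDerivAt a3 (A3 / (T - t)) t) (hb3 : HasDerivAt b3 (B3 / (T - t)) t) :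
    HasDerivAt (fun s => Vf (T - s) x (a1 s) (b1 s) (a2 s) (b2 s) (a3 s) (b3 s))
      ((mu x * (-2 * al (T - t) x * (a1 t ^ 2 + b1 t ^ 2) +
          al (T - t) x * (2 * (a1 t * A1 + b1 t * B1))) +
        m1 x * (-be (T - t) x * (b1 t * a2 t - a1 t * b2 t) +
          be (T - t) x * (B1 * a2 t + b1 t * A2 - A1 * b2 t - a1 t * B2)) +
        m1 x * ga x * (A1 * a2 t + a1 t * A2 + B1 * b2 t + b1 t * B2) +
        m2 x * de x * (A1 * a3 t + a1 t * A3 + B1 * b3 t + b1 t * B3)) / (T - t)) t := by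
  have he : HasDerivAt (fun s => T - s) (-1) t := by
    simpa using (hasDerivAt_id t).const_sub T
  have h1 : HasDerivAt (fun s => (T - s) ^ 2) (2 * (T - t) * (-1)) t := by
    refine HasDerivAt.congr_deriv (he.pow 2) ?_
    push_cast; ring
  have q1 : HasDerivAt (fun s => (a1 s) ^ 2) (2 * a1 t * (A1 / (T - t))) t := by
    refine HasDerivAt.congr_deriv (ha1.pow 2) ?_
    push_cast; ring
  have q2 : HasDerivAt (fun s => (b1 s) ^ 2) (2 * b1 t * (B1 / (T - t))) t := by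
    refine HasDerivAt.congr_deriv (hb1.pow 2) ?_
    push_cast; ring
  have t1 := (h1.mul (q1.add q2)).const_mul (mu x * (x ^ 4 - x ^ 2))
  have t2 := (he.mul ((hb1.mul ha2).sub (ha1.mul hb2))).const_mul (m1 x * (2 / 3 * (x + 1 / 2)))
  have t3 := ((ha1.mul ha2).add (hb1.mul hb2)).const_mul (m1 x * ga x)
  have t4 := ((ha1.mul ha3).add (hb1.mul hb3)).const_mul (m2 x * de x)
  have tt := ((t1.add t2).add t3).add t4
  have e1 : (fun s => Vf (T - s) x (a1 s) (b1 s) (a2 s) (b2 s) (a3 s) (b3 s)) =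
      fun s => mu x * (x ^ 4 - x ^ 2) * ((T - s) ^ 2 * ((a1 s) ^ 2 + (b1 s) ^ 2)) +
        m1 x * (2 / 3 * (x + 1 / 2)) * ((T - s) * (b1 s * a2 s - a1 s * b2 s)) +
        m1 x * ga x * (a1 s * a2 s + b1 s * b2 s) + m2 x * de x * (a1 s * a3 s + b1 s * b3 s) := by
    funext s
    simp only [Vf, al, be]
    ring
  rw [e1]
  refine HasDerivAt.congr_deriv tt ?_
  simp only [al, be]
  generalize ga x = g
  generalize de x = d
  generalize mu x = m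
  generalize m1 x = mm
  generalize m2 x = mmm
  simp only [Pi.add_apply, Pi.sub_apply, Pi.mul_apply]
  field_simp
  ring

/-- The system satisfied by the Fourier coefficients `z_n = a_n + i b_n`, in time `t`. -/
structure Modes (T : ℝ) (a b : ℕ → ℝ → ℝ) : Prop where
  da : ∀ k : ℕ, ∀ t ∈ Ioo 0 T, HasDerivAt (a (k + 2))
    (((2 - ((k : ℝ) + 2)) / 2 * a (k + 1) t + (((k : ℝ) + 2) + 2) / 2 * a (k + 3) t +
      (T - t) * (((k : ℝ) + 2) ^ 3 - ((k : ℝ) + 2)) * b (k + 2) t) / (T - t)) t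
  db : ∀ k : ℕ, ∀ t ∈ Ioo 0 T, HasDerivAt (b (k + 2))
    (((2 - ((k : ℝ) + 2)) / 2 * b (k + 1) t + (((k : ℝ) + 2) + 2) / 2 * b (k + 3) t -
      (T - t) * (((k : ℝ) + 2) ^ 3 - ((k : ℝ) + 2)) * a (k + 2) t) / (T - t)) t
  decay : ∀ t₁ t₂ : ℝ, 0 < t₁ → t₂ < T → ∃ C : ℝ, 0 ≤ C ∧ ∀ n : ℕ, ∀ t ∈ Icc t₁ t₂,
    |a n t| ≤ C * (((n : ℝ) + 1) ^ (6 : ℕ))⁻¹ ∧ |b n t| ≤ C * (((n : ℝ) + 1) ^ (6 : ℕ))⁻¹

section defs

variable (T : ℝ) (a b : ℕ → ℝ → ℝ)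

def V (k : ℕ) (t : ℝ) : ℝ :=
  Vf (T - t) ((k : ℝ) + 2) (a (k + 2) t) (b (k + 2) t) (a (k + 3) t) (b (k + 3) t)
    (a (k + 4) t) (b (k + 4) t)
def Y (k : ℕ) (t : ℝ) : ℝ := mu ((k : ℝ) + 2) * (a (k + 2) t ^ 2 + b (k + 2) t ^ 2)
def D (k : ℕ) (t : ℝ) : ℝ :=
  Df (T - t) ((k : ℝ) + 2) (a (k + 1) t) (b (k + 1) t) (a (k + 2) t) (b (k + 2) t)
    (a (k + 3) t) (b (k + 3) t) (a (k + 4) t) (b (k + 4) t)
def F (k : ℕ) (t : ℝ) : ℝ :=
  Ff (T - t) ((k : ℝ) + 2) (a (k + 1) t) (b (k + 1) t) (a (k + 2) t) (b (k + 2) t)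
    (a (k + 3) t) (b (k + 3) t) (a (k + 4) t) (b (k + 4) t)
def G (k : ℕ) (t : ℝ) : ℝ :=
  m1 ((k : ℝ) + 1) * (a (k + 1) t * a (k + 2) t + b (k + 1) t * b (k + 2) t)
def Tt (k : ℕ) (t : ℝ) : ℝ :=
  Tf (T - t) ((k : ℝ) + 2) (a (k + 1) t) (b (k + 1) t) (a (k + 2) t) (b (k + 2) t)
    (a (k + 3) t) (b (k + 3) t)
def U (k : ℕ) (t : ℝ) : ℝ :=
  Uf (T - t) ((k : ℝ) + 2) (a (k + 2) t) (b (k + 2) t) (a (k + 3) t) (b (k + 3) t)

end defs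

namespace Modes

variable {T : ℝ} {a b : ℕ → ℝ → ℝ}

lemma hasDerivAt_V (h : Modes T a b) (k : ℕ) {t : ℝ} (ht : t ∈ Ioo 0 T) :
    HasDerivAt (V T a b k) ((-D T a b k t + F T a b (k + 1) t - F T a b k t) / (T - t)) t := by
  have hT : T - t ≠ 0 := by have := ht.2; linarith
  have key := local_identity (T - t) ((k : ℝ) + 2) (a (k + 1) t) (b (k + 1) t) (a (k + 2) t)
    (b (k + 2) t) (a (k + 3) t) (b (k + 3) t) (a (k + 4) t) (b (k + 4) t) (a (k + 5) t)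
    (b (k + 5) t) _ _ _ _ _ _ rfl rfl rfl rfl rfl rfl
  have e1 : (((k + 1 : ℕ) : ℝ) + 2) = (k : ℝ) + 2 + 1 := by push_cast; ring
  have e2 : (((k + 2 : ℕ) : ℝ) + 2) = (k : ℝ) + 2 + 2 := by push_cast; ring
  have ha1 := h.da k t ht
  have hb1 := h.db k t ht
  have ha2 := h.da (k + 1) t ht
  have hb2 := h.db (k + 1) t ht
  have ha3 := h.da (k + 2) t ht
  have hb3 := h.db (k + 2) t ht
  rw [e1] at ha2 hb2
  rw [e2] at ha3 hb3
  have hv := hasDerivAt_Vf (x := (k : ℝ) + 2) hT ha1 hb1 ha2 hb2 ha3 hb3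
  refine HasDerivAt.congr_deriv hv ?_
  congr 1
  have e3 : F T a b (k + 1) t = Ff (T - t) ((k : ℝ) + 2 + 1) (a (k + 2) t) (b (k + 2) t)
      (a (k + 3) t) (b (k + 3) t) (a (k + 4) t) (b (k + 4) t) (a (k + 5) t) (b (k + 5) t) := by
    unfold F
    rw [e1]
  rw [e3]
  unfold D F
  rw [← key]
  ring_nf

end Modes

end

end Run7.h736.Lin
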