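import Pool.Agent.Run7.h736.LinD

open Set

namespace Run7.h736.Lin

noncomputable section

/-- polynomial bounds, uniformly for `t ∈ S` -/
def PB (S : Set ℝ) (p : ℤ) (f : ℕ → ℝ → ℝ) : Prop :=
  ∃ C : ℝ, 0 ≤ C ∧ ∀ k : ℕ, ∀ t ∈ S, |f k t| ≤ C * ((k : ℝ) + 2) ^ p

namespace PB

variable {S : Set ℝ} {p q : ℤ} {f g : ℕ → ℝ → ℝ}

lemma mul (hf : PB S p f) (hg : PB S q g) : PB S (p + q) (fun k t => f k t * g k t) := by
  obtain ⟨C, hC, h1⟩ := hf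
  obtain ⟨D, hD, h2⟩ := hg
  refine ⟨C * D, by positivity, fun k t ht => ?_⟩
  have hk : (0 : ℝ) < (k : ℝ) + 2 := by positivity
  rw [abs_mul, zpow_add₀ hk.ne']
  calc |f k t| * |g k t| ≤ (C * ((k : ℝ) + 2) ^ p) * (D * ((k : ℝ) + 2) ^ q) :=
        mul_le_mul (h1 k t ht) (h2 k t ht) (abs_nonneg _) (by positivity)
    _ = _ := by ring

lemma add (hf : PB S p f) (hg : PB S p g) : PB S p (fun k t => f k t + g k t) := by
  obtain ⟨C, hC, h1⟩ := hf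
  obtain ⟨D, hD, h2⟩ := hg
  refine ⟨C + D, by positivity, fun k t ht => ?_⟩
  have := abs_add_le (f k t) (g k t)
  have := h1 k t ht
  have := h2 k t ht
  linarith

lemma sub (hf : PB S p f) (hg : PB S p g) : PB S p (fun k t => f k t - g k t) := by
  obtain ⟨C, hC, h1⟩ := hf
  obtain ⟨D, hD, h2⟩ := hg
  refine ⟨C + D, by positivity, fun k t ht => ?_⟩
  have := abs_sub (f k t) (g k t)
  have := h1 k t ht
  have := h2 k t ht
  linarith

lemma mono (hf : PB S p f) (hpq : p ≤ q) : PB S q f := by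
  obtain ⟨C, hC, h1⟩ := hf
  refine ⟨C, hC, fun k t ht => (h1 k t ht).trans ?_⟩
  have hk : (1 : ℝ) ≤ (k : ℝ) + 2 := by have := Nat.cast_nonneg (α := ℝ) k; linarith
  exact mul_le_mul_of_nonneg_left (zpow_le_zpow_right₀ hk hpq) hC

lemma const (c : ℝ) : PB S 0 (fun _ _ => c) :=
  ⟨|c|, abs_nonneg _, fun k t _ => by simp⟩

lemma of_bdd {C : ℝ} (hC : 0 ≤ C) (h : ∀ k : ℕ, ∀ t ∈ S, |f k t| ≤ C) : PB S 0 f :=
  ⟨C, hC, fun k t ht => by simpa using h k t ht⟩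

lemma lin {g : ℝ → ℝ} (h : ∀ x : ℝ, 2 ≤ x → |g x| ≤ 4 * x) :
    PB S 1 (fun k _ => g ((k : ℝ) + 2)) :=
  ⟨4, by norm_num, fun k t _ => by
    have hk : (2 : ℝ) ≤ (k : ℝ) + 2 := by have := Nat.cast_nonneg (α := ℝ) k; linarith
    simpa using h _ hk⟩

lemma fn0 {g : ℝ → ℝ} (h : ∀ x : ℝ, 2 ≤ x → |g x| ≤ 1) :
    PB S 0 (fun k _ => g ((k : ℝ) + 2)) :=
  ⟨1, by norm_num, fun k t _ => by
    have hk : (2 : ℝ) ≤ (k : ℝ) + 2 := by have := Nat.cast_nonneg (α := ℝ) k; linarith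
    simpa using h _ hk⟩

lemma pow_two (hf : PB S p f) : PB S (p + p) (fun k t => f k t ^ 2) := by
  have := hf.mul hf
  simpa only [sq] using this

end PB

section coef

variable {S : Set ℝ}

lemma abs_ga_le {x : ℝ} (hx : 0 ≤ x) : |ga x| ≤ 1 / 2 := by
  unfold ga
  rw [abs_of_nonneg (by positivity), div_le_iff₀ (by positivity)]
  nlinarith

lemma abs_de_le (x : ℝ) : |de x| ≤ 1 / 54 := by
  unfold de
  rw [abs_of_nonneg (by positivity), div_le_iff₀ (by positivity)]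
  nlinarith [sq_nonneg (x + 1)]

lemma abs_om_le {x : ℝ} (hx : 1 ≤ x) : |om x| ≤ 1 := by
  unfold om
  have h1 := abs_ga_le (show 0 ≤ x - 1 by linarith)
  have h2 := abs_ga_le (show 0 ≤ x by linarith)
  have := abs_sub (ga (x - 1)) (ga x)
  linarith

lemma abs_ot_le (x : ℝ) : |ot x| ≤ 1 := by
  unfold ot
  have h1 := abs_de_le (x - 1)
  have h2 := abs_de_le x
  have := abs_sub (de (x - 1)) (de x)
  rw [abs_mul, abs_two]
  linarith

lemma pb_ga : PB S 0 (fun k _ => ga ((k : ℝ) + 2)) :=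
  PB.fn0 fun x hx => (abs_ga_le (by linarith)).trans (by norm_num)
lemma pb_gam : PB S 0 (fun k _ => ga ((k : ℝ) + 2 - 1)) :=
  PB.fn0 (g := fun x => ga (x - 1)) fun x hx => (abs_ga_le (by linarith)).trans (by norm_num)
lemma pb_de : PB S 0 (fun k _ => de ((k : ℝ) + 2)) :=
  PB.fn0 fun x _ => (abs_de_le x).trans (by norm_num)
lemma pb_dem : PB S 0 (fun k _ => de ((k : ℝ) + 2 - 1)) :=
  PB.fn0 (g := fun x => de (x - 1)) fun _ _ => (abs_de_le _).trans (by norm_num)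
lemma pb_om : PB S 0 (fun k _ => om ((k : ℝ) + 2)) :=
  PB.fn0 fun x hx => abs_om_le (by linarith)
lemma pb_omm : PB S 0 (fun k _ => om ((k : ℝ) + 2 - 1)) :=
  PB.fn0 (g := fun x => om (x - 1)) fun x hx => abs_om_le (by linarith)
lemma pb_ot : PB S 0 (fun k _ => ot ((k : ℝ) + 2)) :=
  PB.fn0 fun _ _ => abs_ot_le _
lemma pb_otm : PB S 0 (fun k _ => ot ((k : ℝ) + 2 - 1)) :=
  PB.fn0 (g := fun x => ot (x - 1)) fun _ _ => abs_ot_le _

lemma pb_lin (c : ℝ) (hc : |c| ≤ 6) : PB S 1 (fun k _ => (k : ℝ) + 2 + c) :=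
  PB.lin (g := fun x => x + c) fun x hx => by
    have := abs_le.1 hc
    rw [abs_le]; constructor <;> linarith

lemma pb_x : PB S 1 (fun k _ => (k : ℝ) + 2) :=
  PB.lin (g := fun x => x) fun x hx => by rw [abs_le]; constructor <;> linarith

lemma pb_mu : PB S 3 (fun k _ => mu ((k : ℝ) + 2)) := by
  have h := ((pb_lin (S := S) (-1) (by norm_num)).mul pb_x).mul (pb_lin 1 (by norm_num))
  have e : (fun (k : ℕ) (_ : ℝ) => mu ((k : ℝ) + 2)) =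
      fun (k : ℕ) (_ : ℝ) => ((k : ℝ) + 2 + -1) * ((k : ℝ) + 2) * ((k : ℝ) + 2 + 1) := by
    funext k t; unfold mu; ring
  rw [e]; exact h.mono (by norm_num)

lemma pb_mum : PB S 3 (fun k _ => mu ((k : ℝ) + 2 - 1)) := by
  have h := ((pb_lin (S := S) (-2) (by norm_num)).mul (pb_lin (-1) (by norm_num))).mul pb_x
  have e : (fun (k : ℕ) (_ : ℝ) => mu ((k : ℝ) + 2 - 1)) =
      fun (k : ℕ) (_ : ℝ) => ((k : ℝ) + 2 + -2) * ((k : ℝ) + 2 + -1) * ((k : ℝ) + 2) := by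
    funext k t; unfold mu; ring
  rw [e]; exact h.mono (by norm_num)

lemma pb_mup : PB S 3 (fun k _ => mu ((k : ℝ) + 2 + 1)) := by
  have h := (pb_x (S := S)).mul (pb_lin 1 (by norm_num)) |>.mul (pb_lin 2 (by norm_num))
  have e : (fun (k : ℕ) (_ : ℝ) => mu ((k : ℝ) + 2 + 1)) =
      fun (k : ℕ) (_ : ℝ) => ((k : ℝ) + 2) * ((k : ℝ) + 2 + 1) * ((k : ℝ) + 2 + 2) := by
    funext k t; unfold mu; ring
  rw [e]; exact h.mono (by norm_num)

lemma pb_m1 : PB S 4 (fun k _ => m1 ((k : ℝ) + 2)) := by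
  have h := (((pb_lin (S := S) (-1) (by norm_num)).mul pb_x).mul (pb_lin 1 (by norm_num))).mul
    (pb_lin 2 (by norm_num))
  have e : (fun (k : ℕ) (_ : ℝ) => m1 ((k : ℝ) + 2)) =
      fun (k : ℕ) (_ : ℝ) => ((k : ℝ) + 2 + -1) * ((k : ℝ) + 2) * ((k : ℝ) + 2 + 1) * ((k : ℝ) + 2 + 2) := by
    funext k t; unfold m1; ring
  rw [e]; exact h.mono (by norm_num)

lemma pb_m1m : PB S 4 (fun k _ => m1 ((k : ℝ) + 2 - 1)) := by
  have h := (((pb_lin (S := S) (-2) (by norm_num)).mul (pb_lin (-1) (by norm_num))).mul pb_x).mul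
    (pb_lin 1 (by norm_num))
  have e : (fun (k : ℕ) (_ : ℝ) => m1 ((k : ℝ) + 2 - 1)) =
      fun (k : ℕ) (_ : ℝ) => ((k : ℝ) + 2 + -2) * ((k : ℝ) + 2 + -1) * ((k : ℝ) + 2) * ((k : ℝ) + 2 + 1) := by
    funext k t; unfold m1; ring
  rw [e]; exact h.mono (by norm_num)

lemma pb_m2 : PB S 5 (fun k _ => m2 ((k : ℝ) + 2)) := by
  have h := (((pb_lin (S := S) (-1) (by norm_num)).mul pb_x).mul (pb_lin 1 (by norm_num))).mul
    (pb_lin 2 (by norm_num)) |>.mul (pb_lin 3 (by norm_num))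
  have e : (fun (k : ℕ) (_ : ℝ) => m2 ((k : ℝ) + 2)) =
      fun (k : ℕ) (_ : ℝ) => ((k : ℝ) + 2 + -1) * ((k : ℝ) + 2) * ((k : ℝ) + 2 + 1) * ((k : ℝ) + 2 + 2) *
        ((k : ℝ) + 2 + 3) := by
    funext k t; unfold m2; ring
  rw [e]; exact h.mono (by norm_num)

lemma pb_m2m : PB S 5 (fun k _ => m2 ((k : ℝ) + 2 - 1)) := by
  have h := (((pb_lin (S := S) (-2) (by norm_num)).mul (pb_lin (-1) (by norm_num))).mul pb_x).mul
    (pb_lin 1 (by norm_num)) |>.mul (pb_lin 2 (by norm_num))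
  have e : (fun (k : ℕ) (_ : ℝ) => m2 ((k : ℝ) + 2 - 1)) =
      fun (k : ℕ) (_ : ℝ) => ((k : ℝ) + 2 + -2) * ((k : ℝ) + 2 + -1) * ((k : ℝ) + 2) * ((k : ℝ) + 2 + 1) *
        ((k : ℝ) + 2 + 2) := by
    funext k t; unfold m2; ring
  rw [e]; exact h.mono (by norm_num)

lemma pb_m3m : PB S 6 (fun k _ => m3 ((k : ℝ) + 2 - 1)) := by
  have h := (((pb_lin (S := S) (-2) (by norm_num)).mul (pb_lin (-1) (by norm_num))).mul pb_x).mul
    (pb_lin 1 (by norm_num)) |>.mul (pb_lin 2 (by norm_num)) |>.mul (pb_lin 3 (by norm_num))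
  have e : (fun (k : ℕ) (_ : ℝ) => m3 ((k : ℝ) + 2 - 1)) =
      fun (k : ℕ) (_ : ℝ) => ((k : ℝ) + 2 + -2) * ((k : ℝ) + 2 + -1) * ((k : ℝ) + 2) * ((k : ℝ) + 2 + 1) *
        ((k : ℝ) + 2 + 2) * ((k : ℝ) + 2 + 3) := by
    funext k t; unfold m3; ring
  rw [e]; exact h.mono (by norm_num)

lemma pb_AA : PB S 2 (fun k _ => AA ((k : ℝ) + 2)) := by
  have h := (pb_lin (S := S) (-1) (by norm_num)).mul (pb_lin 2 (by norm_num))
  have e : (fun (k : ℕ) (_ : ℝ) => AA ((k : ℝ) + 2)) =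
      fun (k : ℕ) (_ : ℝ) => ((k : ℝ) + 2 + -1) * ((k : ℝ) + 2 + 2) := by
    funext k t; unfold AA; ring
  rw [e]; exact h.mono (by norm_num)

lemma pb_AAm : PB S 2 (fun k _ => AA ((k : ℝ) + 2 - 1)) := by
  have h := (pb_lin (S := S) (-2) (by norm_num)).mul (pb_lin 1 (by norm_num))
  have e : (fun (k : ℕ) (_ : ℝ) => AA ((k : ℝ) + 2 - 1)) =
      fun (k : ℕ) (_ : ℝ) => ((k : ℝ) + 2 + -2) * ((k : ℝ) + 2 + 1) := by
    funext k t; unfold AA; ring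
  rw [e]; exact h.mono (by norm_num)

lemma pb_ntm : PB S 2 (fun k _ => nt ((k : ℝ) + 2 - 1)) := by
  have d1 : PB S 0 (fun k _ => de ((k : ℝ) + 2)) := pb_de
  have d2 : PB S 0 (fun k _ => de ((k : ℝ) + 2 - 3)) :=
    PB.fn0 (g := fun x => de (x - 3)) fun _ _ => (abs_de_le _).trans (by norm_num)
  have d3 : PB S 0 (fun k _ => de ((k : ℝ) + 2 - 2)) :=
    PB.fn0 (g := fun x => de (x - 2)) fun _ _ => (abs_de_le _).trans (by norm_num)
  have d4 : PB S 0 (fun k _ => de ((k : ℝ) + 2 - 1)) := pb_dem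
  have A1 : PB S 2 (fun k _ => AA ((k : ℝ) + 2)) := pb_AA
  have A2 : PB S 2 (fun k _ => AA ((k : ℝ) + 2 - 2)) := by
    have h := (pb_lin (S := S) (-3) (by norm_num)).mul (pb_x)
    have e : (fun (k : ℕ) (_ : ℝ) => AA ((k : ℝ) + 2 - 2)) =
        fun (k : ℕ) (_ : ℝ) => ((k : ℝ) + 2 + -3) * ((k : ℝ) + 2) := by
      funext k t; unfold AA; ring
    rw [e]; exact h.mono (by norm_num)
  have A3 : PB S 2 (fun k _ => AA ((k : ℝ) + 2 - 1)) := pb_AAm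
  have h := (PB.const (S := S) (1 / 2)).mul ((((A1.mul d1).sub (A2.mul d2))).add
    (A3.mul (d3.sub d4)))
  have e : (fun (k : ℕ) (_ : ℝ) => nt ((k : ℝ) + 2 - 1)) =
      fun (k : ℕ) (_ : ℝ) => 1 / 2 * (AA ((k : ℝ) + 2) * de ((k : ℝ) + 2) -
        AA ((k : ℝ) + 2 - 2) * de ((k : ℝ) + 2 - 3) +
        AA ((k : ℝ) + 2 - 1) * (de ((k : ℝ) + 2 - 2) - de ((k : ℝ) + 2 - 1))) := by
    funext k t
    have e1 : (k : ℝ) + 2 - 1 + 1 = (k : ℝ) + 2 := by ring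
    have e2 : (k : ℝ) + 2 - 1 - 1 = (k : ℝ) + 2 - 2 := by ring
    have e3 : (k : ℝ) + 2 - 1 - 2 = (k : ℝ) + 2 - 3 := by ring
    unfold nt
    rw [e1, e2, e3]
  rw [e]; exact h.mono (by norm_num)

end coef

end

end Run7.h736.Lin
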