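import Pool.Agent.Run7.h736.LinE

open Set

namespace Run7.h736.Lin

noncomputable section

section coef2

variable {S : Set ℝ} {T : ℝ}

lemma pb_x4 : PB S 4 (fun k _ => ((k : ℝ) + 2) ^ 4) := by
  have h := ((pb_x (S := S)).mul pb_x).mul (pb_x.mul pb_x)
  have e : (fun (k : ℕ) (_ : ℝ) => ((k : ℝ) + 2) ^ 4) =
      fun (k : ℕ) (_ : ℝ) => ((k : ℝ) + 2) * ((k : ℝ) + 2) * (((k : ℝ) + 2) * ((k : ℝ) + 2)) := by
    funext k t; ring
  rw [e]; exact h.mono (by norm_num)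

lemma pb_x2 : PB S 2 (fun k _ => ((k : ℝ) + 2) ^ 2) := (pb_x (S := S)).pow_two

lemma pb_x3 : PB S 3 (fun k _ => ((k : ℝ) + 2) ^ 3) := by
  have h := ((pb_x (S := S)).mul pb_x).mul pb_x
  have e : (fun (k : ℕ) (_ : ℝ) => ((k : ℝ) + 2) ^ 3) =
      fun (k : ℕ) (_ : ℝ) => ((k : ℝ) + 2) * ((k : ℝ) + 2) * ((k : ℝ) + 2) := by
    funext k t; ring
  rw [e]; exact h.mono (by norm_num)

lemma pb_xp3 : PB S 3 (fun k _ => ((k : ℝ) + 2 + 1) ^ 3) := by
  have h := ((pb_lin (S := S) 1 (by norm_num)).mul (pb_lin 1 (by norm_num))).mul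
    (pb_lin 1 (by norm_num))
  have e : (fun (k : ℕ) (_ : ℝ) => ((k : ℝ) + 2 + 1) ^ 3) =
      fun (k : ℕ) (_ : ℝ) => ((k : ℝ) + 2 + 1) * ((k : ℝ) + 2 + 1) * ((k : ℝ) + 2 + 1) := by
    funext k t; ring
  rw [e]; exact h.mono (by norm_num)

variable (hE : PB S 0 (fun _ t => T - t))
include hE

lemma pb_al : PB S 4 (fun k t => al (T - t) ((k : ℝ) + 2)) := by
  have h := (hE.pow_two).mul ((pb_x4 (S := S)).sub (pb_x2.mono (by norm_num)))
  exact h.mono (by norm_num)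

lemma pb_be : PB S 1 (fun k t => be (T - t) ((k : ℝ) + 2)) := by
  have h := ((PB.const (S := S) (2 / 3)).mul hE).mul (pb_lin (1 / 2) (by norm_num [abs_of_pos]))
  exact h.mono (by norm_num)

lemma pb_th : PB S 3 (fun k t => th (T - t) ((k : ℝ) + 2)) := by
  have h := ((PB.const (S := S) 3).mul hE).mul pb_x3
  exact h.mono (by norm_num)

lemma pb_thp : PB S 3 (fun k t => th (T - t) ((k : ℝ) + 2 + 1)) := by
  have h := ((PB.const (S := S) 3).mul hE).mul pb_xp3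
  exact h.mono (by norm_num)

end coef2

section flux

variable {S : Set ℝ} {T : ℝ} {a b : ℕ → ℝ → ℝ}
  (hE : PB S 0 (fun _ t => T - t))
  (ha1 : PB S (-6) (fun k t => a (k + 1) t)) (hb1 : PB S (-6) (fun k t => b (k + 1) t))
  (ha2 : PB S (-6) (fun k t => a (k + 2) t)) (hb2 : PB S (-6) (fun k t => b (k + 2) t))
  (ha3 : PB S (-6) (fun k t => a (k + 3) t)) (hb3 : PB S (-6) (fun k t => b (k + 3) t))
  (ha4 : PB S (-6) (fun k t => a (k + 4) t)) (hb4 : PB S (-6) (fun k t => b (k + 4) t))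

include hE ha1 hb1 ha2 hb2 ha3 hb3 ha4 hb4

lemma pb_F : PB S (-2) (F T a b) := by
  have h2 : PB S 0 (fun (_ : ℕ) (_ : ℝ) => (1 / 2 : ℝ)) := PB.const _
  have h4 : PB S 0 (fun (_ : ℕ) (_ : ℝ) => (1 / 4 : ℝ)) := PB.const _
  have R0 := (ha1.mul ha2).add (hb1.mul hb2)
  have I0 := (hb1.mul ha2).sub (ha1.mul hb2)
  have S0 := (ha1.mul ha3).add (hb1.mul hb3)
  have SI0 := (hb1.mul ha3).sub (ha1.mul hb3)
  have K0 := (ha1.mul ha4).add (hb1.mul hb4)
  have R1 := (ha2.mul ha3).add (hb2.mul hb3)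
  have N1 := (ha2.pow_two).add (hb2.pow_two)
  have N0 := (ha1.pow_two).add (hb1.pow_two)
  have t1 := (((pb_al hE).mul pb_m1m).mul R0).mono (q := -2) (by norm_num)
  have t2 := (((h2.mul (pb_be hE)).mul pb_m2m).mul SI0).mono (q := -2) (by norm_num)
  have t3 := (((h2.mul pb_ga).mul pb_m2m).mul S0).mono (q := -2) (by norm_num)
  have t4 := (((h2.mul pb_de).mul pb_m3m).mul K0).mono (q := -2) (by norm_num)
  have t5 := ((((h2.mul pb_AAm).mul pb_gam).mul pb_mu).mul N1).mono (q := -2) (by norm_num)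
  have t6 := ((((h2.mul pb_AAm).mul pb_dem).mul pb_m1).mul R1).mono (q := -2) (by norm_num)
  have t7 := ((((h4.mul pb_omm).mul pb_AAm).mul pb_mu).mul N1).mono (q := -2) (by norm_num)
  have t8 := ((((h4.mul pb_om).mul pb_AAm).mul pb_mum).mul N0).mono (q := -2) (by norm_num)
  have t9 := (((h2.mul pb_om).mul pb_m2m).mul S0).mono (q := -2) (by norm_num)
  have t10 := (((pb_om.mul (pb_th hE)).mul pb_m1m).mul I0).mono (q := -2) (by norm_num)
  have t11 := ((((h4.mul pb_otm).mul pb_AAm).mul pb_m1).mul R1).mono (q := -2) (by norm_num)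
  have t12 := ((((h4.mul pb_ot).mul pb_AA).mul pb_m1m).mul R0).mono (q := -2) (by norm_num)
  have t13 := (((h4.mul pb_ot).mul pb_m3m).mul K0).mono (q := -2) (by norm_num)
  have t14 := ((((h2.mul pb_ot).mul (pb_thp hE)).mul pb_m2m).mul SI0).mono (q := -2) (by norm_num)
  exact ((((((((((((t1.add t2).add t3).add t4).add t5).add t6).add t7).sub t8).add t9).sub
    t10).add t11).sub t12).add t13).sub t14

omit ha4 hb4 in
lemma pb_T : PB S (-2) (Tt T a b) := by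
  have h2 : PB S 0 (fun (_ : ℕ) (_ : ℝ) => (1 / 2 : ℝ)) := PB.const _
  have h8 : PB S 0 (fun (_ : ℕ) (_ : ℝ) => (8 : ℝ)) := PB.const _
  have hc2 : PB S 0 (fun (_ : ℕ) (_ : ℝ) => (2 : ℝ)) := PB.const _
  have hc4 : PB S 0 (fun (_ : ℕ) (_ : ℝ) => (4 : ℝ)) := PB.const _
  have xm : PB S 1 (fun (k : ℕ) (_ : ℝ) => (k : ℝ) + 2 - 1 / 2) := by
    have := pb_lin (S := S) (-(1 / 2)) (by norm_num [abs_of_neg])
    have e : (fun (k : ℕ) (_ : ℝ) => (k : ℝ) + 2 - 1 / 2) =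
      fun (k : ℕ) (_ : ℝ) => (k : ℝ) + 2 + -(1 / 2) := by funext k t; ring
    rw [e]; exact this
  have xp2 : PB S 1 (fun (k : ℕ) (_ : ℝ) => ((k : ℝ) + 2 + 2) / 2) :=
    PB.lin (g := fun x => (x + 2) / 2) fun x hx => by rw [abs_le]; constructor <;> linarith
  have xm2 : PB S 1 (fun (k : ℕ) (_ : ℝ) => ((k : ℝ) + 2 - 2) / 2) :=
    PB.lin (g := fun x => (x - 2) / 2) fun x hx => by rw [abs_le]; constructor <;> linarith
  have LA : PB S (-3) (fun k t => La (T - t) ((k : ℝ) + 2) (a (k + 1) t) (a (k + 3) t)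
      (b (k + 2) t)) := by
    have u1 := (xp2.mul ha3).mono (q := -3) (by norm_num)
    have u2 := (xm2.mul ha1).mono (q := -3) (by norm_num)
    have u3 := ((pb_th hE).mul hb2).mono (q := -3) (by norm_num)
    exact (u1.sub u2).add u3
  have LB : PB S (-3) (fun k t => Lb (T - t) ((k : ℝ) + 2) (b (k + 1) t) (b (k + 3) t)
      (a (k + 2) t)) := by
    have u1 := (xp2.mul hb3).mono (q := -3) (by norm_num)
    have u2 := (xm2.mul hb1).mono (q := -3) (by norm_num)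
    have u3 := ((pb_th hE).mul ha2).mono (q := -3) (by norm_num)
    exact (u1.sub u2).sub u3
  have N1 := (ha2.pow_two).add (hb2.pow_two)
  have N2 := (ha3.pow_two).add (hb3.pow_two)
  have Y1 := pb_mu.mul N1
  have Y2 := pb_mup.mul N2
  have t1 := (((h2.mul xm).mul pb_otm).mul
    (pb_mu.mul ((LA.pow_two).add (LB.pow_two)))).mono (q := -2) (by norm_num)
  have t2 := (((h2.mul xm).mul pb_ntm).mul Y1).mono (q := -2) (by norm_num)
  have t3 := (((((h8.mul hE.pow_two).mul pb_x2).mono (q := 2) (by norm_num)).add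
    ((hc2.mul hE).mono (q := 2) (by norm_num))).mul Y1).mono (q := -2) (by norm_num)
  have t4 := ((hc4.mul hE).mul (Y1.add Y2)).mono (q := -2) (by norm_num)
  exact ((t1.add t2).add t3).add t4

omit ha1 hb1 ha4 hb4 in
lemma pb_U : PB S (-2) (U T a b) := by
  have h36 : PB S 0 (fun (_ : ℕ) (_ : ℝ) => (1 / 36 : ℝ)) := PB.const _
  have h3 : PB S 0 (fun (_ : ℕ) (_ : ℝ) => (1 / 3 : ℝ)) := PB.const _
  have h9 : PB S 0 (fun (_ : ℕ) (_ : ℝ) => (1 / 9 : ℝ)) := PB.const _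
  have N1 := (ha2.pow_two).add (hb2.pow_two)
  have N2 := (ha3.pow_two).add (hb3.pow_two)
  have Y1 := pb_mu.mul N1
  have Y2 := pb_mup.mul N2
  have xh := (pb_lin (S := S) (1 / 2) (by norm_num [abs_of_pos])).pow_two
  have t1 := (((((h3.mul hE).mul xh).mono (q := 2) (by norm_num)).add
    (h9.mono (q := 2) (by norm_num))).mul Y1).mono (q := -2) (by norm_num)
  have t2 := (h36.mul (Y1.add Y2)).mono (q := -2) (by norm_num)
  exact t1.add t2

omit hE ha3 hb3 ha4 hb4 in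
lemma pb_G : PB S (-2) (G a b) := by
  have R0 := (ha1.mul ha2).add (hb1.mul hb2)
  have hm : PB S 4 (fun (k : ℕ) (_ : ℝ) => m1 ((k : ℝ) + 1)) := by
    have e : (fun (k : ℕ) (_ : ℝ) => m1 ((k : ℝ) + 1)) =
      fun (k : ℕ) (_ : ℝ) => m1 ((k : ℝ) + 2 - 1) := by
      funext k t; congr 1; ring
    rw [e]; exact pb_m1m
  exact (hm.mul R0).mono (by norm_num)

omit ha1 hb1 ha3 hb3 ha4 hb4 hE in
lemma pb_Y : PB S (-2) (Y a b) := by
  have N1 := (ha2.pow_two).add (hb2.pow_two)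
  exact (pb_mu.mul N1).mono (by norm_num)

omit ha1 hb1 in
lemma pb_V : PB S (-2) (V T a b) := by
  have N1 := (ha2.pow_two).add (hb2.pow_two)
  have I1 := (hb2.mul ha3).sub (ha2.mul hb3)
  have R1 := (ha2.mul ha3).add (hb2.mul hb3)
  have S1 := (ha2.mul ha4).add (hb2.mul hb4)
  have t1 := ((pb_mu.mul (pb_al hE)).mul N1).mono (q := -2) (by norm_num)
  have t2 := ((pb_m1.mul (pb_be hE)).mul I1).mono (q := -2) (by norm_num)
  have t3 := ((pb_m1.mul pb_ga).mul R1).mono (q := -2) (by norm_num)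
  have t4 := ((pb_m2.mul pb_de).mul S1).mono (q := -2) (by norm_num)
  exact ((t1.add t2).add t3).add t4

end flux

end

end Run7.h736.Lin
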