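import Pool.Agent.Run7.h736.LinF

open Set Filter MeasureTheory
open scoped Topology

namespace Run7.h736.Lin

noncomputable section

variable {T : ℝ} {a b : ℕ → ℝ → ℝ}

/-- truncated energy -/
def W (T : ℝ) (a b : ℕ → ℝ → ℝ) (N : ℕ) (t : ℝ) : ℝ :=
  ∑ k ∈ Finset.range N, (V T a b k t + 2 * Y a b k t)

/-- truncated dissipation -/
def Sd (a b : ℕ → ℝ → ℝ) (N : ℕ) (t : ℝ) : ℝ :=
  ∑ k ∈ Finset.range N, Y a b k t / (10 * ((k : ℝ) + 2) ^ 2)

lemma Y_nonneg (k : ℕ) (t : ℝ) : 0 ≤ Y a b k t := by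
  unfold Y
  have := mu_nonneg (x := (k : ℝ) + 2) (by have := Nat.cast_nonneg (α := ℝ) k; linarith)
  positivity

lemma Sd_nonneg (N : ℕ) (t : ℝ) : 0 ≤ Sd a b N t :=
  Finset.sum_nonneg fun k _ => div_nonneg (Y_nonneg k t) (by positivity)

lemma F_zero (t : ℝ) : F T a b 0 t = 0 := by
  unfold F Ff
  simp only [m1, m2, m3, AA]
  norm_num

lemma G_zero (t : ℝ) : G a b 0 t = 0 := by
  unfold G
  simp only [m1]
  norm_num

lemma nt_one : 0 ≤ nt 1 := by
  unfold nt AA de
  norm_num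

lemma T_zero {t : ℝ} (ht : t ≤ T) : 0 ≤ Tt T a b 0 t := by
  unfold Tt Tf
  have he : 0 ≤ T - t := by linarith
  have e1 : ((0 : ℕ) : ℝ) + 2 - 1 = 1 := by norm_num
  have h1 : 0 ≤ ot (((0 : ℕ) : ℝ) + 2 - 1) := ot_nonneg (by rw [e1]; norm_num)
  have h2 : 0 ≤ nt (((0 : ℕ) : ℝ) + 2 - 1) := by rw [e1]; exact nt_one
  have h3 := mu_nonneg (x := ((0 : ℕ) : ℝ) + 2) (by norm_num)
  have h4 := mu_nonneg (x := ((0 : ℕ) : ℝ) + 2 + 1) (by norm_num)
  have h5 : 0 ≤ ((0 : ℕ) : ℝ) + 2 - 1 / 2 := by norm_num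
  positivity

lemma U_nonneg {t : ℝ} (ht : t ≤ T) (k : ℕ) : 0 ≤ U T a b k t := by
  unfold U Uf
  have he : 0 ≤ T - t := by linarith
  have hk := Nat.cast_nonneg (α := ℝ) k
  have h3 := mu_nonneg (x := (k : ℝ) + 2) (by linarith)
  have h4 := mu_nonneg (x := (k : ℝ) + 2 + 1) (by linarith)
  positivity

namespace Modes

lemma hasDerivAt_Y (h : Modes T a b) (k : ℕ) {t : ℝ} (ht : t ∈ Ioo 0 T) :
    HasDerivAt (Y a b k) ((G a b (k + 1) t - G a b k t) / (T - t)) t := by
  have hT : T - t ≠ 0 := by have := ht.2; linarith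
  have ha := h.da k t ht
  have hb := h.db k t ht
  have h1 := ((ha.pow 2).add (hb.pow 2)).const_mul (mu ((k : ℝ) + 2))
  refine HasDerivAt.congr_deriv h1 ?_
  simp only [G, mu, m1]
  push_cast
  field_simp
  ring

/-- pointwise differential inequality -/
lemma pointwise {t : ℝ} (ht : t ∈ Ioo 0 T) (k : ℕ) :
    -D T a b k t ≤ -(Y a b k t / (10 * ((k : ℝ) + 2) ^ 2)) +
      40 * (T - t) * (V T a b k t + 2 * Y a b k t) +
      40 * (T - t) * (U T a b (k + 1) t - U T a b k t) + (Tt T a b (k + 1) t - Tt T a b k t) := by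
  have he : 0 < T - t := by linarith [ht.2]
  have hk := Nat.cast_nonneg (α := ℝ) k
  have hx : (2 : ℝ) ≤ (k : ℝ) + 2 := by linarith
  have h1 := density_ge he.le hx (a (k + 1) t) (b (k + 1) t) (a (k + 2) t) (b (k + 2) t)
    (a (k + 3) t) (b (k + 3) t) (a (k + 4) t) (b (k + 4) t)
  have h2 := coercive he.le hx (a (k + 2) t) (b (k + 2) t)
    (a (k + 3) t) (b (k + 3) t) (a (k + 4) t) (b (k + 4) t)
  have e1 : (((k + 1 : ℕ) : ℝ) + 2) = (k : ℝ) + 2 + 1 := by push_cast; ring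
  have e2 : Tt T a b (k + 1) t = Tf (T - t) ((k : ℝ) + 2 + 1) (a (k + 2) t) (b (k + 2) t)
      (a (k + 3) t) (b (k + 3) t) (a (k + 4) t) (b (k + 4) t) := by
    unfold Tt; rw [e1]
  have e3 : U T a b (k + 1) t = Uf (T - t) ((k : ℝ) + 2 + 1) (a (k + 3) t) (b (k + 3) t)
      (a (k + 4) t) (b (k + 4) t) := by
    unfold U; rw [e1]
  rw [e2, e3]
  change (1 / (10 * ((k : ℝ) + 2) ^ 2) - 16 * (T - t) ^ 2 * ((k : ℝ) + 2) ^ 2 - 12 * (T - t)) *
    Y a b k t + Tt T a b k t - _ ≤ D T a b k t at h1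
  change 1 / 2 * (1 + (T - t) ^ 2 * ((k : ℝ) + 2) ^ 4) * Y a b k t + U T a b k t - _ ≤
    V T a b k t + 2 * Y a b k t at h2
  have hY := Y_nonneg (a := a) (b := b) k t
  set x := (k : ℝ) + 2
  set e := T - t
  have h3 : 16 * e ^ 2 * x ^ 2 + 12 * e ≤ 20 * e * (1 + e ^ 2 * x ^ 4) := by
    have h4 : 0 ≤ 8 * e * (1 - e * x ^ 2) ^ 2 := by positivity
    have h5 : 0 ≤ 12 * e * (e ^ 2 * x ^ 4) := by positivity
    nlinarith
  have h6 := mul_le_mul_of_nonneg_right h3 hY
  have h7 := mul_le_mul_of_nonneg_left h2 (show 0 ≤ 40 * e by positivity)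
  have h8 : Y a b k t / (10 * x ^ 2) = 1 / (10 * x ^ 2) * Y a b k t := by ring
  rw [h8]
  nlinarith

lemma hasDerivAt_W (h : Modes T a b) (N : ℕ) {t : ℝ} (ht : t ∈ Ioo 0 T) :
    HasDerivAt (W T a b N) (∑ k ∈ Finset.range N,
      ((-D T a b k t + F T a b (k + 1) t - F T a b k t) / (T - t) +
        2 * ((G a b (k + 1) t - G a b k t) / (T - t)))) t := by
  have : HasDerivAt (fun s => ∑ k ∈ Finset.range N, (V T a b k s + 2 * Y a b k s))
      (∑ k ∈ Finset.range N,
      ((-D T a b k t + F T a b (k + 1) t - F T a b k t) / (T - t) +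
        2 * ((G a b (k + 1) t - G a b k t) / (T - t)))) t := by
    apply HasDerivAt.fun_sum
    intro k _
    exact (h.hasDerivAt_V k ht).add ((h.hasDerivAt_Y k ht).const_mul 2)
  exact this

lemma deriv_W_le {t : ℝ} (ht : t ∈ Ioo 0 T) (N : ℕ) :
    (∑ k ∈ Finset.range N,
      ((-D T a b k t + F T a b (k + 1) t - F T a b k t) / (T - t) +
        2 * ((G a b (k + 1) t - G a b k t) / (T - t)))) ≤
    40 * W T a b N t - Sd a b N t / (T - t) +
      (40 * U T a b N t + (F T a b N t + Tt T a b N t + 2 * G a b N t) / (T - t)) := by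
  have he : 0 < T - t := by linarith [ht.2]
  have h1 : ∀ k ∈ Finset.range N,
      ((-D T a b k t + F T a b (k + 1) t - F T a b k t) / (T - t) +
        2 * ((G a b (k + 1) t - G a b k t) / (T - t))) ≤
      40 * (V T a b k t + 2 * Y a b k t) - Y a b k t / (10 * ((k : ℝ) + 2) ^ 2) / (T - t) +
      40 * (U T a b (k + 1) t - U T a b k t) + (Tt T a b (k + 1) t - Tt T a b k t) / (T - t) +
      (F T a b (k + 1) t - F T a b k t) / (T - t) + 2 * (G a b (k + 1) t - G a b k t) / (T - t) := by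
    intro k _
    have h := pointwise (a := a) (b := b) ht k
    have h2 : -D T a b k t / (T - t) ≤ (-(Y a b k t / (10 * ((k : ℝ) + 2) ^ 2)) +
      40 * (T - t) * (V T a b k t + 2 * Y a b k t) +
      40 * (T - t) * (U T a b (k + 1) t - U T a b k t) + (Tt T a b (k + 1) t - Tt T a b k t)) /
        (T - t) := by gcongr
    have h3 : (-(Y a b k t / (10 * ((k : ℝ) + 2) ^ 2)) +
      40 * (T - t) * (V T a b k t + 2 * Y a b k t) +
      40 * (T - t) * (U T a b (k + 1) t - U T a b k t) + (Tt T a b (k + 1) t - Tt T a b k t)) /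
        (T - t) = -(Y a b k t / (10 * ((k : ℝ) + 2) ^ 2) / (T - t)) +
      40 * (V T a b k t + 2 * Y a b k t) +
      40 * (U T a b (k + 1) t - U T a b k t) + (Tt T a b (k + 1) t - Tt T a b k t) / (T - t) := by
      field_simp
    rw [h3] at h2
    have h4 : (-D T a b k t + F T a b (k + 1) t - F T a b k t) / (T - t) =
      -D T a b k t / (T - t) + (F T a b (k + 1) t - F T a b k t) / (T - t) := by ring
    have h5 : 2 * ((G a b (k + 1) t - G a b k t) / (T - t)) =
      2 * (G a b (k + 1) t - G a b k t) / (T - t) := by ring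
    rw [h4, h5]
    linarith
  refine (Finset.sum_le_sum h1).trans ?_
  rw [Finset.sum_add_distrib, Finset.sum_add_distrib, Finset.sum_add_distrib,
    Finset.sum_add_distrib, Finset.sum_sub_distrib, ← Finset.mul_sum, ← Finset.mul_sum,
    ← Finset.sum_div, ← Finset.sum_div, ← Finset.sum_div, ← Finset.sum_div, ← Finset.mul_sum,
    Finset.sum_range_sub (fun k => U T a b k t), Finset.sum_range_sub (fun k => Tt T a b k t),
    Finset.sum_range_sub (fun k => F T a b k t), Finset.sum_range_sub (fun k => G a b k t),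
    F_zero, G_zero]
  have h2 := T_zero (T := T) (a := a) (b := b) ht.2.le
  have h3 := U_nonneg (T := T) (a := a) (b := b) ht.2.le 0
  have h4 : 0 ≤ Tt T a b 0 t / (T - t) := div_nonneg h2 he.le
  have e1 : (Tt T a b N t - Tt T a b 0 t) / (T - t) = Tt T a b N t / (T - t) -
    Tt T a b 0 t / (T - t) := by ring
  have e2 : (F T a b N t + Tt T a b N t + 2 * G a b N t) / (T - t) =
    F T a b N t / (T - t) + Tt T a b N t / (T - t) + 2 * G a b N t / (T - t) := by ring
  rw [e1, e2, sub_zero, sub_zero]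
  change 40 * W T a b N t - Sd a b N t / (T - t) + _ + _ + _ + _ ≤ _
  linarith

/-- coercivity of the truncated energy -/
lemma W_coercive {t : ℝ} (ht : t ∈ Ioo 0 T) (N : ℕ) :
    1 / 2 * ∑ k ∈ Finset.range N, Y a b k t ≤ W T a b N t + U T a b N t := by
  have he : 0 < T - t := by linarith [ht.2]
  have h1 : ∀ k ∈ Finset.range N, 1 / 2 * Y a b k t ≤
      (V T a b k t + 2 * Y a b k t) + (U T a b (k + 1) t - U T a b k t) := by
    intro k _
    have hk := Nat.cast_nonneg (α := ℝ) k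
    have hx : (2 : ℝ) ≤ (k : ℝ) + 2 := by linarith
    have h2 := coercive he.le hx (a (k + 2) t) (b (k + 2) t)
      (a (k + 3) t) (b (k + 3) t) (a (k + 4) t) (b (k + 4) t)
    have e1 : (((k + 1 : ℕ) : ℝ) + 2) = (k : ℝ) + 2 + 1 := by push_cast; ring
    have e3 : U T a b (k + 1) t = Uf (T - t) ((k : ℝ) + 2 + 1) (a (k + 3) t) (b (k + 3) t)
        (a (k + 4) t) (b (k + 4) t) := by
      unfold U; rw [e1]
    rw [e3]
    change 1 / 2 * (1 + (T - t) ^ 2 * ((k : ℝ) + 2) ^ 4) * Y a b k t + U T a b k t - _ ≤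
      V T a b k t + 2 * Y a b k t at h2
    have hY := Y_nonneg (a := a) (b := b) k t
    have h5 : 0 ≤ (T - t) ^ 2 * ((k : ℝ) + 2) ^ 4 * Y a b k t := by positivity
    nlinarith
  have h2 := Finset.sum_le_sum h1
  rw [← Finset.mul_sum, Finset.sum_add_distrib, Finset.sum_range_sub (fun k => U T a b k t)] at h2
  have h3 := U_nonneg (T := T) (a := a) (b := b) ht.2.le 0
  change _ ≤ W T a b N t + _ at h2
  linarith

end Modes

end

end Run7.h736.Lin
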