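import Pool.Agent.Run7.h736.LinG

open Set Filter MeasureTheory
open scoped Topology

namespace Run7.h736.Lin

noncomputable section

variable {T : ℝ} {a b : ℕ → ℝ → ℝ}

lemma sum_inv_sq_le (N : ℕ) : ∑ k ∈ Finset.range N, ((k : ℝ) + 2) ^ (-2 : ℤ) ≤ 1 := by
  have h : ∀ N : ℕ, ∑ k ∈ Finset.range N, ((k : ℝ) + 2) ^ (-2 : ℤ) ≤ 1 - 1 / ((N : ℝ) + 1) := by
    intro N
    induction N with
    | zero => simp
    | succ n ih =>
      rw [Finset.sum_range_succ]
      have hn := Nat.cast_nonneg (α := ℝ) n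
      have h1 : ((n : ℝ) + 2) ^ (-2 : ℤ) ≤ 1 / ((n : ℝ) + 1) - 1 / ((n : ℝ) + 2) := by
        rw [zpow_neg, div_sub_div _ _ (by positivity) (by positivity), ← one_div]
        have e : ((n : ℝ) + 2) ^ (2 : ℤ) = ((n : ℝ) + 2) ^ 2 := by norm_cast
        rw [e, div_le_div_iff₀ (by positivity) (by positivity)]
        nlinarith
      push_cast
      have e2 : (n : ℝ) + 1 + 1 = (n : ℝ) + 2 := by ring
      rw [e2]
      linarith
  have h1 := h N
  have h2 : 0 ≤ 1 / ((N : ℝ) + 1) := by positivity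
  linarith

lemma tendsto_inv_sq (C : ℝ) :
    Tendsto (fun N : ℕ => C * ((N : ℝ) + 2) ^ (-2 : ℤ)) atTop (𝓝 0) := by
  have h1 : Tendsto (fun N : ℕ => (N : ℝ) + 2) atTop atTop :=
    tendsto_atTop_add_const_right _ _ tendsto_natCast_atTop_atTop
  have h2 : Tendsto (fun N : ℕ => (((N : ℝ) + 2)⁻¹) ^ 2) atTop (𝓝 (0 ^ 2)) :=
    (tendsto_inv_atTop_zero.comp h1).pow 2
  have h3 : Tendsto (fun N : ℕ => C * (((N : ℝ) + 2)⁻¹) ^ 2) atTop (𝓝 (C * 0 ^ 2)) :=
    h2.const_mul C
  have e : (fun N : ℕ => C * ((N : ℝ) + 2) ^ (-2 : ℤ)) =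
      fun N : ℕ => C * (((N : ℝ) + 2)⁻¹) ^ 2 := by
    funext N
    rw [zpow_neg, inv_pow]
    norm_cast
  rw [e]
  simpa using h3

lemma pbE {t₁ t₂ : ℝ} (h1 : 0 < t₁) (h2 : t₂ < T) : PB (Icc t₁ t₂) 0 (fun _ t => T - t) := by
  rcases le_or_gt t₁ t₂ with h | h
  · refine PB.of_bdd (C := T) (by linarith) fun _ t ht => ?_
    rw [abs_le]; constructor <;> linarith [ht.1, ht.2]
  · rw [Icc_eq_empty (by linarith)]
    exact PB.of_bdd (C := 0) le_rfl fun _ t ht => absurd ht (Set.notMem_empty t)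

lemma pbEinv {t₁ t₂ : ℝ} (h2 : t₂ < T) : PB (Icc t₁ t₂) 0 (fun _ t => (T - t)⁻¹) := by
  refine PB.of_bdd (C := (T - t₂)⁻¹) (inv_nonneg.2 (by linarith)) fun _ t ht => ?_
  have h3 : 0 < T - t₂ := by linarith
  have h4 : 0 < T - t := by linarith [ht.2]
  rw [abs_of_pos (inv_pos.2 h4)]
  exact inv_anti₀ h3 (by linarith [ht.2])

namespace Modes

lemma pb (h : Modes T a b) {t₁ t₂ : ℝ} (h1 : 0 < t₁) (h2 : t₂ < T) {j : ℕ} (hj : 1 ≤ j) :
    PB (Icc t₁ t₂) (-6) (fun k t => a (k + j) t) ∧ PB (Icc t₁ t₂) (-6) (fun k t => b (k + j) t) := by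
  obtain ⟨C, hC, hd⟩ := h.decay t₁ t₂ h1 h2
  have key : ∀ k : ℕ, C * ((((k + j : ℕ) : ℝ) + 1) ^ (6 : ℕ))⁻¹ ≤ C * ((k : ℝ) + 2) ^ (-6 : ℤ) := by
    intro k
    apply mul_le_mul_of_nonneg_left _ hC
    rw [zpow_neg]
    have e : ((k : ℝ) + 2) ^ (6 : ℤ) = ((k : ℝ) + 2) ^ (6 : ℕ) := by norm_cast
    rw [e]
    have hk := Nat.cast_nonneg (α := ℝ) k
    have hj' : (1 : ℝ) ≤ j := by exact_mod_cast hj
    apply inv_anti₀ (by positivity)
    push_cast
    exact pow_le_pow_left₀ (by positivity) (by linarith) 6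
  exact ⟨⟨C, hC, fun k t ht => (hd (k + j) t ht).1.trans (key k)⟩,
    ⟨C, hC, fun k t ht => (hd (k + j) t ht).2.trans (key k)⟩⟩

lemma pb_err (h : Modes T a b) {t₁ t₂ : ℝ} (h1 : 0 < t₁) (h2 : t₂ < T) :
    PB (Icc t₁ t₂) (-2) (fun N t =>
      40 * U T a b N t + (F T a b N t + Tt T a b N t + 2 * G a b N t) * (T - t)⁻¹) := by
  have p1 := h.pb h1 h2 (j := 1) le_rfl
  have p2 := h.pb h1 h2 (j := 2) (by norm_num)
  have p3 := h.pb h1 h2 (j := 3) (by norm_num)
  have p4 := h.pb h1 h2 (j := 4) (by norm_num)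
  have hE := pbE h1 h2
  have hU := pb_U hE p2.1 p2.2 p3.1 p3.2
  have hF := pb_F hE p1.1 p1.2 p2.1 p2.2 p3.1 p3.2 p4.1 p4.2
  have hTt := pb_T hE p1.1 p1.2 p2.1 p2.2 p3.1 p3.2
  have hG := pb_G p1.1 p1.2 p2.1 p2.2
  have t1 := ((PB.const (S := Icc t₁ t₂) 40).mul hU).mono (q := -2) (by norm_num)
  have t2 := ((PB.const (S := Icc t₁ t₂) 2).mul hG).mono (q := -2) (by norm_num)
  have t3 := (((hF.add hTt).add t2).mul (pbEinv (T := T) h2)).mono (q := -2) (by norm_num)
  exact t1.add t3

lemma cont_Y (h : Modes T a b) (k : ℕ) : ContinuousOn (Y a b k) (Ioo 0 T) :=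
  fun _ ht => (h.hasDerivAt_Y k ht).continuousAt.continuousWithinAt

lemma cont_Sd (h : Modes T a b) (N : ℕ) :
    ContinuousOn (fun s => Sd a b N s / (T - s)) (Ioo 0 T) := by
  apply ContinuousOn.div
  · unfold Sd
    exact continuousOn_finsetSum _ fun k _ => (h.cont_Y k).div_const _
  · fun_prop
  · intro s hs
    linarith [hs.2, sub_pos.2 hs.2]

lemma bounds (h : Modes T a b) (hT : 0 < T) : ∃ C : ℝ, 0 ≤ C ∧ ∀ t ∈ Ico (T / 2) T, ∀ M : ℕ,
    ∑ k ∈ Finset.range M, Y a b k t ≤ C ∧ ∫ s in (T / 2)..t, Sd a b M s / (T - s) ≤ C := by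
  set t₁ := T / 2 with ht₁
  have h1 : 0 < t₁ := by rw [ht₁]; linarith
  have h1T : t₁ < T := by rw [ht₁]; linarith
  -- bound at the initial time
  have p2 := h.pb h1 h1T (j := 2) (by norm_num)
  have p3 := h.pb h1 h1T (j := 3) (by norm_num)
  have p4 := h.pb h1 h1T (j := 4) (by norm_num)
  have hV := pb_V (pbE h1 h1T) p2.1 p2.2 p3.1 p3.2 p4.1 p4.2
  have hY := pb_Y p2.1 p2.2
  have hVY := hV.add (((PB.const (S := Icc t₁ t₁) 2).mul hY).mono (q := -2) (by norm_num))
  obtain ⟨C1, hC1, hb⟩ := hVY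
  have hW1 : ∀ N, W T a b N t₁ ≤ C1 := by
    intro N
    unfold W
    calc ∑ k ∈ Finset.range N, (V T a b k t₁ + 2 * Y a b k t₁)
        ≤ ∑ k ∈ Finset.range N, C1 * ((k : ℝ) + 2) ^ (-2 : ℤ) :=
          Finset.sum_le_sum fun k _ => (le_abs_self _).trans (hb k t₁ ⟨le_rfl, le_rfl⟩)
      _ = C1 * ∑ k ∈ Finset.range N, ((k : ℝ) + 2) ^ (-2 : ℤ) := by rw [Finset.mul_sum]
      _ ≤ C1 * 1 := mul_le_mul_of_nonneg_left (sum_inv_sq_le N) hC1
      _ = C1 := mul_one _
  set κ := Real.exp (-40 * T) with hκ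
  have hκ0 : 0 < κ := Real.exp_pos _
  -- main inequality
  have main : ∀ t ∈ Ico t₁ T, ∀ M : ℕ,
      κ * (1 / 2 * ∑ k ∈ Finset.range M, Y a b k t) +
        κ * ∫ s in t₁..t, Sd a b M s / (T - s) ≤ C1 := by
    intro t ht M
    have htT : t < T := ht.2
    obtain ⟨CE, hCE, hErr⟩ := h.pb_err h1 htT
    have q2 := h.pb h1 htT (j := 2) (by norm_num)
    have q3 := h.pb h1 htT (j := 3) (by norm_num)
    obtain ⟨CU, hCU, hUb⟩ := pb_U (pbE h1 htT) q2.1 q2.2 q3.1 q3.2
    have hmem : ∀ s ∈ Icc t₁ t, s ∈ Ioo 0 T := fun s hs => ⟨by linarith [hs.1], by linarith [hs.2]⟩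
    have step : ∀ N : ℕ, M ≤ N → κ * (1 / 2 * ∑ k ∈ Finset.range M, Y a b k t) +
        κ * ∫ s in t₁..t, Sd a b M s / (T - s) ≤
        C1 + (CE * T + CU) * ((N : ℝ) + 2) ^ (-2 : ℤ) := by
      intro N hMN
      set ζ := ((N : ℝ) + 2) ^ (-2 : ℤ) with hζ
      have hζ0 : 0 ≤ ζ := by positivity
      -- monotone quantity
      have hcS := h.cont_Sd N
      have hder : ∀ s ∈ Icc t₁ t, HasDerivAt (fun s => Real.exp (-40 * s) * W T a b N s +
          κ * (∫ r in t₁..s, Sd a b N r / (T - r)) - CE * ζ * s)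
          ((Real.exp (-40 * s) * (-40)) * W T a b N s + Real.exp (-40 * s) *
            (∑ k ∈ Finset.range N,
      ((-D T a b k s + F T a b (k + 1) s - F T a b k s) / (T - s) +
        2 * ((G a b (k + 1) s - G a b k s) / (T - s)))) + κ * (Sd a b N s / (T - s)) -
            CE * ζ) s := by
        intro s hs
        have hsI := hmem s hs
        have e1 : HasDerivAt (fun s : ℝ => -40 * s) (-40) s := by
          simpa using (hasDerivAt_id s).const_mul (-40 : ℝ)
        have e2 := e1.exp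
        have e3 : HasDerivAt (fun s => ∫ r in t₁..s, Sd a b N r / (T - r))
            (Sd a b N s / (T - s)) s := by
          apply intervalIntegral.integral_hasDerivAt_right
          · apply ContinuousOn.intervalIntegrable
            rw [uIcc_of_le hs.1]
            exact hcS.mono fun r hr => hmem r ⟨hr.1, hr.2.trans hs.2⟩
          · exact ContinuousOn.stronglyMeasurableAtFilter isOpen_Ioo hcS s hsI
          · exact hcS.continuousAt (isOpen_Ioo.mem_nhds hsI)
        have e4 : HasDerivAt (fun s : ℝ => CE * ζ * s) (CE * ζ) s := by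
          simpa using (hasDerivAt_id s).const_mul (CE * ζ)
        exact ((e2.mul (h.hasDerivAt_W N hsI)).add (e3.const_mul κ)).sub e4
      have hanti : AntitoneOn (fun s => Real.exp (-40 * s) * W T a b N s +
          κ * (∫ r in t₁..s, Sd a b N r / (T - r)) - CE * ζ * s) (Icc t₁ t) := by
        apply antitoneOn_of_deriv_nonpos (convex_Icc t₁ t)
        · exact fun s hs => (hder s hs).continuousAt.continuousWithinAt
        · intro s hs
          rw [interior_Icc] at hs
          exact (hder s (Ioo_subset_Icc_self hs)).differentiableAt.differentiableWithinAt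
        · intro s hs
          rw [interior_Icc] at hs
          have hs' := Ioo_subset_Icc_self hs
          rw [(hder s hs').deriv]
          have hsI := hmem s hs'
          have hle := deriv_W_le (a := a) (b := b) hsI N
          have hE1 : Real.exp (-40 * s) ≤ 1 := by
            rw [Real.exp_le_one_iff]
            linarith [hsI.1]
          have hE2 : κ ≤ Real.exp (-40 * s) := by
            rw [hκ, Real.exp_le_exp]
            linarith [hsI.2]
          have hE0 := Real.exp_pos (-40 * s)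
          have hSn : 0 ≤ Sd a b N s / (T - s) :=
            div_nonneg (Sd_nonneg N s) (by linarith [hsI.2])
          have herr := hErr N s hs'
          simp only at herr
          rw [← hζ] at herr
          have herr2 := (abs_le.1 herr).2
          have e5 : (F T a b N s + Tt T a b N s + 2 * G a b N s) / (T - s) =
            (F T a b N s + Tt T a b N s + 2 * G a b N s) * (T - s)⁻¹ := div_eq_mul_inv _ _
          rw [e5] at hle
          have h5 := mul_le_mul_of_nonneg_left hle hE0.le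
          have h6 := mul_le_mul_of_nonneg_right hE2 hSn
          have h7 : Real.exp (-40 * s) * (40 * U T a b N s +
              (F T a b N s + Tt T a b N s + 2 * G a b N s) * (T - s)⁻¹) ≤ 1 * (CE * ζ) := by
            calc _ ≤ Real.exp (-40 * s) * (CE * ζ) := mul_le_mul_of_nonneg_left herr2 hE0.le
              _ ≤ 1 * (CE * ζ) := mul_le_mul_of_nonneg_right hE1 (by positivity)
          nlinarith
      have hcmp := hanti ⟨le_rfl, ht.1⟩ ⟨ht.1, le_rfl⟩ ht.1
      simp only [intervalIntegral.integral_same] at hcmp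
      -- coercivity at the end point
      have htI := hmem t ⟨ht.1, le_rfl⟩
      have hco := W_coercive (a := a) (b := b) htI N
      have hUt := (abs_le.1 (hUb N t ⟨ht.1, le_rfl⟩)).2
      rw [← hζ] at hUt
      have hE0 := Real.exp_pos (-40 * t)
      have hE1 : Real.exp (-40 * t) ≤ 1 := by
        rw [Real.exp_le_one_iff]; linarith [htI.1]
      have hE2 : κ ≤ Real.exp (-40 * t) := by
        rw [hκ, Real.exp_le_exp]; linarith
      have hE3 : Real.exp (-40 * t₁) ≤ 1 := by
        rw [Real.exp_le_one_iff]; linarith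
      have hsumMN : ∑ k ∈ Finset.range M, Y a b k t ≤ ∑ k ∈ Finset.range N, Y a b k t := by
        apply Finset.sum_le_sum_of_subset_of_nonneg (Finset.range_mono hMN)
        intro k _ _
        exact Y_nonneg k t
      have hsum0 : 0 ≤ ∑ k ∈ Finset.range N, Y a b k t :=
        Finset.sum_nonneg fun k _ => Y_nonneg k t
      have hA : κ * (1 / 2 * ∑ k ∈ Finset.range M, Y a b k t) ≤
          Real.exp (-40 * t) * W T a b N t + CU * ζ := by
        calc κ * (1 / 2 * ∑ k ∈ Finset.range M, Y a b k t)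
            ≤ Real.exp (-40 * t) * (1 / 2 * ∑ k ∈ Finset.range N, Y a b k t) := by
              apply mul_le_mul hE2 (by linarith) _ hE0.le
              have : 0 ≤ ∑ k ∈ Finset.range M, Y a b k t :=
                Finset.sum_nonneg fun k _ => Y_nonneg k t
              positivity
          _ ≤ Real.exp (-40 * t) * (W T a b N t + U T a b N t) :=
              mul_le_mul_of_nonneg_left hco hE0.le
          _ = Real.exp (-40 * t) * W T a b N t + Real.exp (-40 * t) * U T a b N t := by ring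
          _ ≤ Real.exp (-40 * t) * W T a b N t + CU * ζ := by
              have : Real.exp (-40 * t) * U T a b N t ≤ 1 * (CU * ζ) :=
                calc _ ≤ Real.exp (-40 * t) * (CU * ζ) := mul_le_mul_of_nonneg_left hUt hE0.le
                  _ ≤ 1 * (CU * ζ) := mul_le_mul_of_nonneg_right hE1 (by positivity)
              linarith
      have hB : κ * ∫ s in t₁..t, Sd a b M s / (T - s) ≤
          κ * ∫ s in t₁..t, Sd a b N s / (T - s) := by
        apply mul_le_mul_of_nonneg_left _ hκ0.le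
        apply intervalIntegral.integral_mono_on ht.1
        · apply ContinuousOn.intervalIntegrable
          rw [uIcc_of_le ht.1]
          exact (h.cont_Sd M).mono hmem
        · apply ContinuousOn.intervalIntegrable
          rw [uIcc_of_le ht.1]
          exact hcS.mono hmem
        · intro s hs
          have hsI := hmem s hs
          apply div_le_div_of_nonneg_right _ (by linarith [hsI.2])
          apply Finset.sum_le_sum_of_subset_of_nonneg (Finset.range_mono hMN)
          intro k _ _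
          exact div_nonneg (Y_nonneg k s) (by positivity)
      have hC : Real.exp (-40 * t₁) * W T a b N t₁ ≤ C1 := by
        calc _ ≤ Real.exp (-40 * t₁) * C1 :=
              mul_le_mul_of_nonneg_left (hW1 N) (Real.exp_pos _).le
          _ ≤ 1 * C1 := mul_le_mul_of_nonneg_right hE3 hC1
          _ = C1 := one_mul _
      have hD : CE * ζ * t ≤ CE * ζ * T := mul_le_mul_of_nonneg_left htT.le (by positivity)
      have hD2 : 0 ≤ CE * ζ * t₁ := by positivity
      nlinarith
    have hlim : Tendsto (fun N : ℕ => C1 + (CE * T + CU) * ((N : ℝ) + 2) ^ (-2 : ℤ)) atTop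
        (𝓝 (C1 + 0)) := (tendsto_inv_sq _).const_add C1
    rw [add_zero] at hlim
    exact ge_of_tendsto hlim (eventually_atTop.2 ⟨M, step⟩)
  refine ⟨2 * C1 / κ, by positivity, fun t ht M => ?_⟩
  have hm := main t ht M
  have hS0 : 0 ≤ ∑ k ∈ Finset.range M, Y a b k t := Finset.sum_nonneg fun k _ => Y_nonneg k t
  have hI0 : 0 ≤ ∫ s in t₁..t, Sd a b M s / (T - s) := by
    apply intervalIntegral.integral_nonneg ht.1
    intro s hs
    exact div_nonneg (Sd_nonneg M s) (by linarith [hs.2, ht.2])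
  constructor
  · rw [le_div_iff₀ hκ0]
    nlinarith [mul_nonneg hκ0.le hI0]
  · rw [le_div_iff₀ hκ0]
    nlinarith [mul_nonneg hκ0.le hS0, mul_nonneg hκ0.le hI0]

end Modes

end

end Run7.h736.Lin
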