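import Pool.Agent.Run7.h736.Range

open scoped ContDiff Topology
open Set MeasureTheory Filter

namespace Run7.h736

noncomputable section

/-- Cauchy–Schwarz for continuous functions on an interval -/
lemma cs_interval {a b : ℝ} (hab : a ≤ b) {f g : ℝ → ℝ} (hf : Continuous f) (hg : Continuous g) :
    (∫ x in a..b, f x * g x) ^ 2 ≤ (∫ x in a..b, (f x) ^ 2) * ∫ x in a..b, (g x) ^ 2 := by
  set p := ∫ x in a..b, (f x) ^ 2 with hp
  set q := ∫ x in a..b, f x * g x with hq
  set r := ∫ x in a..b, (g x) ^ 2 with hr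
  have h : ∀ l : ℝ, 0 ≤ r * (l * l) + (-(2 * q)) * l + p := by
    intro l
    have h0 : 0 ≤ ∫ x in a..b, (f x - l * g x) ^ 2 :=
      intervalIntegral.integral_nonneg hab fun _ _ => sq_nonneg _
    have e : (fun x => (f x - l * g x) ^ 2) =
        fun x => ((f x) ^ 2 - (2 * l) * (f x * g x)) + l ^ 2 * (g x) ^ 2 := by
      funext x; ring
    have c1 : Continuous (fun x => (f x) ^ 2) := hf.pow 2
    have c2 : Continuous (fun x => (2 * l) * (f x * g x)) := continuous_const.mul (hf.mul hg)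
    have c3 : Continuous (fun x => l ^ 2 * (g x) ^ 2) := continuous_const.mul (hg.pow 2)
    have c4 : Continuous (fun x => (f x) ^ 2 - (2 * l) * (f x * g x)) := c1.sub c2
    rw [e, intervalIntegral.integral_add (c4.intervalIntegrable _ _) (c3.intervalIntegrable _ _),
      intervalIntegral.integral_sub (c1.intervalIntegrable _ _) (c2.intervalIntegrable _ _),
      intervalIntegral.integral_const_mul, intervalIntegral.integral_const_mul] at h0
    rw [← hp, ← hq, ← hr] at h0
    linarith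
  have := discrim_le_zero h
  unfold discrim at this
  nlinarith

lemma kernel_sq : ∫ y in (0:ℝ)..(2 * Real.pi), ((Real.pi - y) / (2 * Real.pi)) ^ 2 = Real.pi / 6 := by
  have hpi : Real.pi ≠ 0 := Real.pi_ne_zero
  have e : ∀ y : ℝ, HasDerivAt (fun y : ℝ => -(Real.pi - y) ^ 3 / (12 * Real.pi ^ 2))
      (((Real.pi - y) / (2 * Real.pi)) ^ 2) y := by
    intro y
    have h : HasDerivAt (fun y : ℝ => Real.pi - y) (-1) y := by
      simpa using (hasDerivAt_id y).const_sub Real.pi
    have := ((h.pow 3).neg).div_const (12 * Real.pi ^ 2)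
    refine HasDerivAt.congr_deriv this ?_
    push_cast
    field_simp
    ring
  have c : Continuous (fun y : ℝ => ((Real.pi - y) / (2 * Real.pi)) ^ 2) := by fun_prop
  rw [intervalIntegral.integral_eq_sub_of_hasDerivAt (fun y _ => e y) (c.intervalIntegrable _ _)]
  field_simp
  ring

namespace Sol

variable {T : ℝ} {F : ℝ × ℝ → ℝ}

/-- sharp Sobolev inequality -/
lemma sub_M_sharp (h : Sol T F) {t : ℝ} (ht : t ∈ Ioo 0 T) (x : ℝ) :
    |F (x, t) - M F t| ≤ √(Real.pi / 6 * A F t) := by
  have hpi : 0 < Real.pi := Real.pi_pos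
  have caff : Continuous (fun y : ℝ => x + y) := by fun_prop
  have c0 : Continuous (fun y => F (x + y, t)) := (h.c0 ht).comp caff
  have c1 : Continuous (fun y => dx F (x + y, t)) := (h.c1 ht).comp caff
  have ck : Continuous (fun y : ℝ => (Real.pi - y) / (2 * Real.pi)) := by fun_prop
  have hd : ∀ y : ℝ, HasDerivAt (fun y => (Real.pi - y) / (2 * Real.pi) * F (x + y, t))
      (-(1 / (2 * Real.pi)) * F (x + y, t) + (Real.pi - y) / (2 * Real.pi) * dx F (x + y, t)) y := by
    intro y
    have h1 : HasDerivAt (fun y : ℝ => (Real.pi - y) / (2 * Real.pi)) (-(1 / (2 * Real.pi))) y := by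
      have := ((hasDerivAt_id y).const_sub Real.pi).div_const (2 * Real.pi)
      refine HasDerivAt.congr_deriv this (by ring)
    have h2 : HasDerivAt (fun y => F (x + y, t)) (dx F (x + y, t)) y := by
      have h3 : HasDerivAt (fun y : ℝ => x + y) 1 y := by
        simpa using (hasDerivAt_id y).const_add x
      have := (hasDerivAt_dx h.sm (x := x + y) ht).comp y h3
      refine HasDerivAt.congr_deriv this (by ring)
    exact h1.mul h2
  have j1 : Continuous (fun y => -(1 / (2 * Real.pi)) * F (x + y, t)) := continuous_const.mul c0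
  have j2 : Continuous (fun y => (Real.pi - y) / (2 * Real.pi) * dx F (x + y, t)) := ck.mul c1
  have key := intervalIntegral.integral_eq_sub_of_hasDerivAt (a := 0) (b := 2 * Real.pi)
    (fun y _ => hd y) ((j1.add j2).intervalIntegrable _ _)
  rw [intervalIntegral.integral_add (j1.intervalIntegrable _ _) (j2.intervalIntegrable _ _),
    intervalIntegral.integral_const_mul] at key
  have hshift : ∫ y in (0:ℝ)..(2 * Real.pi), F (x + y, t) = 2 * Real.pi * M F t := by
    rw [intervalIntegral.integral_comp_add_left (fun z => F (z, t)) x, add_zero]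
    have hper : Function.Periodic (fun z => F (z, t)) (2 * Real.pi) := fun z => h.per t ht z
    have := hper.intervalIntegral_add_eq x 0
    rw [zero_add] at this
    rw [this, int_F]
  rw [hshift, h.per t ht x] at key
  have e1 : (Real.pi - 2 * Real.pi) / (2 * Real.pi) = -(1/2) := by field_simp; ring
  have e2 : (Real.pi - 0) / (2 * Real.pi) = 1 / 2 := by field_simp; ring
  rw [e1, e2, add_zero] at key
  have e3 : -(1 / (2 * Real.pi)) * (2 * Real.pi * M F t) = -M F t := by field_simp
  rw [e3] at key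
  have key2 : ∫ y in (0:ℝ)..(2 * Real.pi), (Real.pi - y) / (2 * Real.pi) * dx F (x + y, t) =
      -(F (x, t) - M F t) := by linarith
  have hcs := cs_interval (a := 0) (b := 2 * Real.pi) (by positivity) ck c1
  rw [key2, kernel_sq] at hcs
  have hA : ∫ y in (0:ℝ)..(2 * Real.pi), (dx F (x + y, t)) ^ 2 = A F t := by
    rw [intervalIntegral.integral_comp_add_left (fun z => (dx F (z, t)) ^ 2) x, add_zero]
    have hper : Function.Periodic (fun z => (dx F (z, t)) ^ 2) (2 * Real.pi) := by
      intro z; simp only [h.per1 t ht z]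
    have := hper.intervalIntegral_add_eq x 0
    rw [zero_add] at this
    exact this
  rw [hA, neg_sq] at hcs
  rw [← Real.sqrt_sq_eq_abs]
  exact Real.sqrt_le_sqrt hcs

lemma B_le (h : Sol T F) {t : ℝ} (ht : t ∈ Ioo 0 T) :
    B F t ≤ 2 * Real.pi * (M F t) ^ 2 + Real.pi ^ 2 / 3 * A F t := by
  have hpi : 0 < Real.pi := Real.pi_pos
  have c0 := h.c0 ht
  have h1 : ∫ x in (0:ℝ)..(2 * Real.pi), (F (x, t) - M F t) ^ 2 ≤
      ∫ _ in (0:ℝ)..(2 * Real.pi), Real.pi / 6 * A F t := by
    have cc : Continuous (fun x => (F (x, t) - M F t) ^ 2) := (c0.sub continuous_const).pow 2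
    apply intervalIntegral.integral_mono_on (by positivity) (cc.intervalIntegrable _ _)
      intervalIntegrable_const
    intro x _
    have h2 := h.sub_M_sharp ht x
    have hA : 0 ≤ Real.pi / 6 * A F t := by have := A_nonneg F t; positivity
    rw [← sq_abs, ← Real.sq_sqrt hA]
    exact pow_le_pow_left₀ (abs_nonneg _) h2 2
  rw [intervalIntegral.integral_const, smul_eq_mul, sub_zero] at h1
  have e : (fun x => (F (x, t) - M F t) ^ 2) =
      fun x => ((F (x, t)) ^ 2 - (2 * M F t) * F (x, t)) + (M F t) ^ 2 := by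
    funext x; ring
  have c1 : Continuous (fun x => (F (x, t)) ^ 2) := c0.pow 2
  have c2 : Continuous (fun x => (2 * M F t) * F (x, t)) := continuous_const.mul c0
  have c3 : Continuous (fun x => (F (x, t)) ^ 2 - (2 * M F t) * F (x, t)) := c1.sub c2
  rw [e, intervalIntegral.integral_add (c3.intervalIntegrable _ _) intervalIntegrable_const,
    intervalIntegral.integral_sub (c1.intervalIntegrable _ _) (c2.intervalIntegrable _ _),
    intervalIntegral.integral_const_mul, intervalIntegral.integral_const, int_F, smul_eq_mul,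
    sub_zero] at h1
  change B F t - _ + _ ≤ _ at h1
  nlinarith

/-- `A' ≤ 4 (sup u) A` -/
lemma A_deriv_le_sup (h : Sol T F) {t K : ℝ} (ht : t ∈ Ioo 0 T) (hK : ∀ x, F (x, t) ≤ K) :
    4 * ∫ x in (0:ℝ)..(2 * Real.pi), F (x, t) * (dx F (x, t)) ^ 2 ≤ 4 * K * A F t := by
  have hpi : 0 < 2 * Real.pi := by positivity
  have i1 : Continuous (fun x => F (x, t) * (dx F (x, t)) ^ 2) := (h.c0 ht).mul ((h.c1 ht).pow 2)
  have i2 : Continuous (fun x => K * (dx F (x, t)) ^ 2) := continuous_const.mul ((h.c1 ht).pow 2)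
  have hle : ∫ x in (0:ℝ)..(2 * Real.pi), F (x, t) * (dx F (x, t)) ^ 2 ≤
      ∫ x in (0:ℝ)..(2 * Real.pi), K * (dx F (x, t)) ^ 2 := by
    apply intervalIntegral.integral_mono_on hpi.le (i1.intervalIntegrable _ _)
      (i2.intervalIntegrable _ _)
    intro x _
    exact mul_le_mul_of_nonneg_right (hK x) (sq_nonneg _)
  rw [intervalIntegral.integral_const_mul] at hle
  change _ ≤ K * A F t at hle
  linarith

/-- `A` bounded by Gronwall when `M` is bounded above -/
lemma bounded_of_M_bounded (h : Sol T F) (hT : 0 < T) {m : ℝ}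
    (hm : ∀ t ∈ Ioo 0 T, M F t ≤ m) : ∃ K : ℝ, ∀ t ∈ Ico (T / 2) T, ∀ x, |F (x, t)| ≤ K := by
  have hpi : 0 < 2 * Real.pi := by positivity
  have hT2 : T / 2 ∈ Ioo 0 T := ⟨by linarith, by linarith⟩
  set m' := max m 0 with hm'
  have hm'0 : 0 ≤ m' := le_max_right _ _
  have hmm : m ≤ m' := le_max_left _ _
  set P := 2 * Real.pi * (m' + |M F (T / 2)|) with hP
  have hP0 : 0 ≤ P := by positivity
  set L := T * (4 * m') + 4 * √(2 * Real.pi) * √(T * P) with hL
  set K1 := A F (T / 2) * Real.exp L with hK1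
  have hA0 := A_nonneg F (T / 2)
  have hK10 : 0 ≤ K1 := by positivity
  have hAle : ∀ t ∈ Ico (T / 2) T, A F t ≤ K1 := by
    intro t ht
    have hsub : Icc (T / 2) t ⊆ Ioo 0 T := fun s hs =>
      ⟨lt_of_lt_of_le hT2.1 hs.1, lt_of_le_of_lt hs.2 ht.2⟩
    set β : ℝ → ℝ := fun s => 4 * (m' + √(2 * Real.pi * A F s)) with hβ
    have hβc : ContinuousOn β (Ioo 0 T) := by
      have : ContinuousOn (fun s => √(2 * Real.pi * A F s)) (Ioo 0 T) :=
        (continuousOn_const.mul h.contA).sqrt
      exact continuousOn_const.mul (continuousOn_const.add this)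
    have hdiff : ∀ s ∈ Ioo 0 T,
        4 * ∫ x in (0:ℝ)..(2 * Real.pi), F (x, s) * (dx F (x, s)) ^ 2 ≤ β s * A F s := by
      intro s hs
      refine h.A_deriv_le_sup hs (fun x => ?_)
      have := (abs_le.1 (h.sub_M hs x)).2
      have := hm s hs
      linarith
    have hg := gronwall (f := A F) (β := β)
      (f' := fun t => 4 * ∫ x in (0:ℝ)..(2 * Real.pi), F (x, t) * (dx F (x, t)) ^ 2)
      (fun t ht => h.hasDerivAt_A ht) hβc hdiff hT2.1 ht.1 ht.2
    refine hg.trans (mul_le_mul_of_nonneg_left (Real.exp_le_exp.2 ?_) hA0)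
    have hsq : ContinuousOn (fun s => √(A F s)) (Ioo 0 T) := h.contA.sqrt
    have hint : ∫ s in (T / 2)..t, A F s ≤ P := by
      have h1 := h.int_A_le hT2.1 ht.1 ht.2
      have h2 := hm t (hsub ⟨ht.1, le_rfl⟩)
      have h3 : -|M F (T / 2)| ≤ M F (T / 2) := neg_abs_le _
      refine h1.trans ?_
      rw [hP]
      exact mul_le_mul_of_nonneg_left (by linarith) hpi.le
    have e1 : (fun s => β s) = fun s => 4 * m' + 4 * √(2 * Real.pi) * |√(A F s)| := by
      funext s
      rw [hβ]
      simp only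
      rw [Real.sqrt_mul hpi.le, abs_of_nonneg (Real.sqrt_nonneg _)]
      ring
    have i3 : IntervalIntegrable (fun s => |√(A F s)|) volume (T / 2) t := by
      apply ContinuousOn.intervalIntegrable
      rw [uIcc_of_le ht.1]
      exact (hsq.mono hsub).abs
    have e5 : ∫ s in (T / 2)..t, 4 * √(2 * Real.pi) * |√(A F s)| =
        4 * √(2 * Real.pi) * ∫ s in (T / 2)..t, |√(A F s)| := intervalIntegral.integral_const_mul _ _
    rw [e1, intervalIntegral.integral_add intervalIntegrable_const (i3.const_mul _),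
      intervalIntegral.integral_const, smul_eq_mul, e5]
    have h2 : (∫ s in (T / 2)..t, |√(A F s)|) ≤ √(T * P) := by
      refine (integral_abs_le_sqrt ht.1 (hsq.mono hsub)).trans (Real.sqrt_le_sqrt ?_)
      have e : ∫ s in (T / 2)..t, √(A F s) ^ 2 = ∫ s in (T / 2)..t, A F s := by
        apply intervalIntegral.integral_congr
        intro s _
        exact Real.sq_sqrt (A_nonneg F s)
      rw [e]
      have h5 : 0 ≤ ∫ s in (T / 2)..t, A F s :=
        intervalIntegral.integral_nonneg ht.1 fun _ _ => A_nonneg F _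
      exact mul_le_mul (by linarith [ht.2]) hint h5 hT.le
    have h6 : (t - T / 2) * (4 * m') ≤ T * (4 * m') :=
      mul_le_mul_of_nonneg_right (by linarith [ht.2]) (by positivity)
    have h7 := mul_le_mul_of_nonneg_left h2 (by positivity : 0 ≤ 4 * √(2 * Real.pi))
    rw [hL]
    linarith
  refine ⟨m' + |M F (T / 2)| + √(2 * Real.pi * K1), fun t ht x => ?_⟩
  have htm : t ∈ Ioo 0 T := ⟨lt_of_lt_of_le hT2.1 ht.1, ht.2⟩
  have h1 := h.sub_M htm x
  have h2 : √(2 * Real.pi * A F t) ≤ √(2 * Real.pi * K1) :=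
    Real.sqrt_le_sqrt (mul_le_mul_of_nonneg_left (hAle t ht) hpi.le)
  have h3 : |M F t| ≤ m' + |M F (T / 2)| := by
    rw [abs_le]
    have a1 := hm t htm
    have a2 : M F (T / 2) ≤ M F t := h.M_mono hT2 htm ht.1
    have a3 : -|M F (T / 2)| ≤ M F (T / 2) := neg_abs_le _
    have a4 := abs_nonneg (M F (T / 2))
    constructor <;> linarith
  calc |F (x, t)| = |(F (x, t) - M F t) + M F t| := by ring_nf
    _ ≤ |F (x, t) - M F t| + |M F t| := abs_add_le _ _
    _ ≤ _ := by linarith

/-- blow-up forces the mean to tend to infinity -/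
lemma M_unbounded (h : Sol T F) (hT : 0 < T)
    (hb : Tendsto (fun t => ⨆ x, |F (x, t)|) (𝓝[<] T) atTop) (K : ℝ) :
    ∃ t₀ ∈ Ioo 0 T, ∀ t ∈ Ico t₀ T, K < M F t := by
  by_contra hcon
  push Not at hcon
  have hm : ∀ t ∈ Ioo 0 T, M F t ≤ K := by
    intro t ht
    obtain ⟨s, hs, hsK⟩ := hcon t ht
    exact (h.M_mono ht ⟨lt_of_lt_of_le ht.1 hs.1, hs.2⟩ hs.1).trans hsK
  obtain ⟨C, hC⟩ := h.bounded_of_M_bounded hT hm
  have h1 : ∀ᶠ t in 𝓝[<] T, t ∈ Ico (T / 2) T := by
    have : Ico (T / 2) T ∈ 𝓝[<] T := Ico_mem_nhdsLT (by linarith)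
    exact this
  have h2 := hb.eventually_gt_atTop C
  obtain ⟨t, ht1, ht2⟩ := (h1.and h2).exists
  have h3 : (⨆ x, |F (x, t)|) ≤ C := ciSup_le fun x => hC t ht1 x
  linarith

end Sol

/-- a positive function with `f' ≤ f²` which is unbounded near `T` satisfies `1 ≤ (T-t) f`. -/
lemma riccati_lower {f f' : ℝ → ℝ} {a T : ℝ}
    (hf : ∀ t ∈ Ioo a T, HasDerivAt f (f' t) t) (hpos : ∀ t ∈ Ioo a T, 0 < f t)
    (hle : ∀ t ∈ Ioo a T, f' t ≤ (f t) ^ 2)
    (hub : ∀ K : ℝ, ∀ t ∈ Ioo a T, ∃ s ∈ Ioo t T, K < f s) :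
    ∀ t ∈ Ioo a T, 1 ≤ (T - t) * f t := by
  intro t ht
  have hmem : ∀ s ∈ Ico t T, s ∈ Ioo a T := fun s hs => ⟨lt_of_lt_of_le ht.1 hs.1, hs.2⟩
  have hanti : AntitoneOn (fun s => -(f s)⁻¹ - s) (Ico t T) := by
    have hd : ∀ s ∈ Ico t T, HasDerivAt (fun s => -(f s)⁻¹ - s) (-(-(f' s) / (f s) ^ 2) - 1) s := by
      intro s hs
      exact ((hf s (hmem s hs)).inv (hpos s (hmem s hs)).ne').neg.sub (hasDerivAt_id s)
    apply antitoneOn_of_deriv_nonpos (convex_Ico t T)
    · exact fun s hs => (hd s hs).continuousAt.continuousWithinAt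
    · intro s hs
      rw [interior_Ico] at hs
      exact (hd s (Ioo_subset_Ico_self hs)).differentiableAt.differentiableWithinAt
    · intro s hs
      rw [interior_Ico] at hs
      have hs' := Ioo_subset_Ico_self hs
      rw [(hd s hs').deriv]
      have h1 := hle s (hmem s hs')
      have h2 : 0 < (f s) ^ 2 := by have := hpos s (hmem s hs'); positivity
      rw [neg_div, neg_neg]
      have : f' s / (f s) ^ 2 ≤ 1 := by rw [div_le_one h2]; exact h1
      linarith
  have hft := hpos t ht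
  by_contra hcon
  push Not at hcon
  have h1 : T - t < (f t)⁻¹ := by
    rw [lt_inv_comm₀ (by linarith [ht.2]) hft]
    rw [lt_inv_comm₀ hft (by linarith [ht.2])]
    rw [← one_div, lt_div_iff₀ hft]
    exact hcon
  set g := (f t)⁻¹ - (T - t) with hg
  have hg0 : 0 < g := by linarith
  obtain ⟨s, hs, hsK⟩ := hub (1 / g) t ht
  have hs' : s ∈ Ico t T := ⟨hs.1.le, hs.2⟩
  have h2 := hanti ⟨le_rfl, ht.2⟩ hs' hs'.1
  simp only at h2
  have h3 : (f s)⁻¹ < g := by
    rw [inv_lt_comm₀ (hpos s (hmem s hs')) hg0, ← one_div]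
    exact hsK
  linarith [hs.2]

end

end Run7.h736
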