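import Pool.Agent.Run7.h736.Lower

open scoped ContDiff Topology
open Set MeasureTheory Filter

namespace Run7.h736

noncomputable section

namespace Sol

variable {T : ℝ} {F : ℝ × ℝ → ℝ}

/-- key lower bound: `1 ≤ (T-t) (M + (23/5) √(A/2π))` near the blow-up time -/
lemma lower_key (h : Sol T F) (hT : 0 < T)
    (hb : Tendsto (fun t => ⨆ x, |F (x, t)|) (𝓝[<] T) atTop) :
    ∃ t₀ ∈ Ioo 0 T, ∀ t ∈ Ioo t₀ T, 0 < M F t ∧
      1 ≤ (T - t) * (M F t + 23 / 5 * √(A F t / (2 * Real.pi))) := by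
  have hpi : 0 < Real.pi := Real.pi_pos
  have hpi2 : 0 < 2 * Real.pi := by positivity
  have hpi3 : Real.pi ≤ 3.1416 := Real.pi_lt_d4.le
  obtain ⟨t₀, ht₀, hM⟩ := h.M_unbounded hT hb 0
  refine ⟨t₀, ht₀, ?_⟩
  have hmem : ∀ t ∈ Ioo t₀ T, t ∈ Ioo 0 T := fun t ht => ⟨ht₀.1.trans ht.1, ht.2⟩
  have hMpos : ∀ t ∈ Ioo t₀ T, 0 < M F t := fun t ht => hM t ⟨ht.1.le, ht.2⟩
  have key : ∀ ν : ℝ, 0 < ν → ∀ t ∈ Ioo t₀ T,
      1 ≤ (T - t) * (M F t + 23 / 5 * √(A F t / (2 * Real.pi) + ν)) := by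
    intro ν hν
    have hApos : ∀ t, 0 < A F t / (2 * Real.pi) + ν := by
      intro t
      have := A_nonneg F t
      positivity
    refine riccati_lower (f := fun t => M F t + 23 / 5 * √(A F t / (2 * Real.pi) + ν))
      (f' := fun t => (A F t + B F t) / (2 * Real.pi) + 23 / 5 *
        ((4 * ∫ x in (0:ℝ)..(2 * Real.pi), F (x, t) * (dx F (x, t)) ^ 2) / (2 * Real.pi) /
          (2 * √(A F t / (2 * Real.pi) + ν)))) ?_ ?_ ?_ ?_
    · intro t ht
      have h1 := h.hasDerivAt_M (hmem t ht)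
      have h2 := ((h.hasDerivAt_A (hmem t ht)).div_const (2 * Real.pi)).add_const ν
      exact h1.add ((h2.sqrt (hApos t).ne').const_mul (23 / 5))
    · intro t ht
      have := hMpos t ht
      have := Real.sqrt_nonneg (A F t / (2 * Real.pi) + ν)
      positivity
    · intro t ht
      have htm := hmem t ht
      set a := A F t / (2 * Real.pi) with ha
      set b := √(a + ν) with hbdef
      set D := 4 * ∫ x in (0:ℝ)..(2 * Real.pi), F (x, t) * (dx F (x, t)) ^ 2 with hD
      have hM0 := hMpos t ht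
      have ha0 : 0 ≤ a := by have := A_nonneg F t; positivity
      have hb0 : 0 < b := Real.sqrt_pos.2 (hApos t)
      have hb2 : b ^ 2 = a + ν := Real.sq_sqrt (hApos t).le
      have hAa : A F t = 2 * Real.pi * a := by rw [ha]; field_simp
      have hpisq : Real.pi ^ 2 / 3 ≤ 3.29 := by nlinarith
      have hsq : √(Real.pi / 6 * A F t) ≤ 907 / 500 * b := by
        rw [Real.sqrt_le_left (by positivity)]
        rw [hAa, mul_pow, hb2]
        have e : Real.pi / 6 * (2 * Real.pi * a) = Real.pi ^ 2 / 3 * a := by ring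
        rw [e]
        nlinarith
      have hD1 : D ≤ 4 * (M F t + 907 / 500 * b) * A F t := by
        refine h.A_deriv_le_sup htm (fun x => ?_)
        have := (abs_le.1 (h.sub_M_sharp htm x)).2
        linarith
      have hD2 : D / (2 * Real.pi) / (2 * b) ≤ 2 * (M F t + 907 / 500 * b) * b := by
        rw [div_div, div_le_iff₀ (by positivity)]
        have h1 : 4 * (M F t + 907 / 500 * b) * A F t =
            (M F t + 907 / 500 * b) * (8 * Real.pi) * a := by rw [hAa]; ring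
        have h2 : (M F t + 907 / 500 * b) * (8 * Real.pi) * a ≤
            (M F t + 907 / 500 * b) * (8 * Real.pi) * b ^ 2 := by
          apply mul_le_mul_of_nonneg_left _ (by positivity)
          linarith
        have h3 : 2 * (M F t + 907 / 500 * b) * b * (2 * Real.pi * (2 * b)) =
          (M F t + 907 / 500 * b) * (8 * Real.pi) * b ^ 2 := by ring
        linarith
      have hB := h.B_le htm
      have hB2 : (A F t + B F t) / (2 * Real.pi) ≤ (M F t) ^ 2 + 4.29 * b ^ 2 := by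
        rw [div_le_iff₀ hpi2]
        have h1 : Real.pi ^ 2 / 3 * A F t ≤ 3.29 * A F t :=
          mul_le_mul_of_nonneg_right hpisq (A_nonneg F t)
        have h2 : A F t ≤ 2 * Real.pi * b ^ 2 := by
          rw [hAa]
          exact mul_le_mul_of_nonneg_left (by linarith) hpi2.le
        nlinarith
      nlinarith [hM0, hb0, mul_pos hM0 hb0, sq_nonneg b]
    · intro K t ht
      obtain ⟨t₁, ht₁, hK⟩ := h.M_unbounded hT hb K
      have hmax : max t t₁ < T := max_lt ht.2 ht₁.2
      refine ⟨(max t t₁ + T) / 2, ⟨?_, by linarith⟩, ?_⟩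
      · have := le_max_left t t₁
        linarith
      · have h1 := le_max_right t t₁
        have h2 := hK ((max t t₁ + T) / 2) ⟨by linarith, by linarith⟩
        have h3 := Real.sqrt_nonneg (A F ((max t t₁ + T) / 2) / (2 * Real.pi) + ν)
        linarith
  intro t ht
  refine ⟨hMpos t ht, ?_⟩
  have hd : 0 < T - t := by linarith [ht.2]
  apply le_of_forall_pos_le_add
  intro η hη
  set r := η / ((T - t) * (23 / 5)) with hr
  have hr0 : 0 < r := by positivity
  have h1 := key (r ^ 2) (by positivity) t ht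
  have ha0 : 0 ≤ A F t / (2 * Real.pi) := by have := A_nonneg F t; positivity
  have h2 : √(A F t / (2 * Real.pi) + r ^ 2) ≤ √(A F t / (2 * Real.pi)) + r := by
    rw [Real.sqrt_le_left (by positivity)]
    have h3 := Real.sq_sqrt ha0
    have h4 := Real.sqrt_nonneg (A F t / (2 * Real.pi))
    nlinarith
  have h5 : (T - t) * (M F t + 23 / 5 * √(A F t / (2 * Real.pi) + r ^ 2)) ≤
      (T - t) * (M F t + 23 / 5 * (√(A F t / (2 * Real.pi)) + r)) :=
    mul_le_mul_of_nonneg_left (by linarith) hd.le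
  have h6 : (T - t) * (23 / 5) * r = η := by rw [hr]; field_simp
  nlinarith

/-- growth of `A` when `(T-t) u ≤ m` -/
lemma A_antitone (h : Sol T F) {m s₀ : ℝ} (hs₀ : 0 < s₀)
    (hm : ∀ s ∈ Ico s₀ T, ∀ x, (T - s) * F (x, s) ≤ m) :
    AntitoneOn (fun s => (T - s) ^ (4 * m) * A F s) (Ico s₀ T) := by
  have hmem : ∀ s ∈ Ico s₀ T, s ∈ Ioo 0 T := fun s hs => ⟨lt_of_lt_of_le hs₀ hs.1, hs.2⟩
  have hd : ∀ s ∈ Ico s₀ T, HasDerivAt (fun s => (T - s) ^ (4 * m) * A F s)
      ((-1) * (4 * m) * (T - s) ^ (4 * m - 1) * A F s + (T - s) ^ (4 * m) *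
        (4 * ∫ x in (0:ℝ)..(2 * Real.pi), F (x, s) * (dx F (x, s)) ^ 2)) s := by
    intro s hs
    have hTs : 0 < T - s := by linarith [hs.2]
    have h1 : HasDerivAt (fun s => T - s) (-1) s := by
      simpa using (hasDerivAt_id s).const_sub T
    exact (h1.rpow_const (p := 4 * m) (Or.inl hTs.ne')).mul (h.hasDerivAt_A (hmem s hs))
  apply antitoneOn_of_deriv_nonpos (convex_Ico s₀ T)
  · exact fun s hs => (hd s hs).continuousAt.continuousWithinAt
  · intro s hs
    rw [interior_Ico] at hs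
    exact (hd s (Ioo_subset_Ico_self hs)).differentiableAt.differentiableWithinAt
  · intro s hs
    rw [interior_Ico] at hs
    have hs' := Ioo_subset_Ico_self hs
    rw [(hd s hs').deriv]
    have hTs : 0 < T - s := by linarith [hs.2]
    have h1 := h.A_deriv_le_sup (hmem s hs') (K := m / (T - s)) (fun x => by
      rw [le_div_iff₀ hTs, mul_comm]; exact hm s hs' x)
    have h2 : (T - s) ^ (4 * m) = (T - s) ^ (4 * m - 1) * (T - s) := by
      rw [← Real.rpow_add_one hTs.ne']; ring_nf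
    have h3 : 0 < (T - s) ^ (4 * m - 1) := Real.rpow_pos_of_pos hTs _
    rw [h2]
    have h4 : (T - s) * (4 * (m / (T - s)) * A F s) = 4 * m * A F s := by field_simp
    have h5 := mul_le_mul_of_nonneg_left h1 hTs.le
    rw [h4] at h5
    have h6 := mul_le_mul_of_nonneg_left h5 h3.le
    nlinarith

/-- the mean blows up exactly at the rate `1/(T-t)` -/
lemma rate_mean (h : Sol T F) (hT : 0 < T)
    (hb : Tendsto (fun t => ⨆ x, |F (x, t)|) (𝓝[<] T) atTop) :
    ∀ᶠ t in 𝓝[<] T, 1 / 90 ≤ (T - t) * M F t := by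
  have hpi : 0 < Real.pi := Real.pi_pos
  have hpi2 : 0 < 2 * Real.pi := by positivity
  obtain ⟨C, hC0, hC⟩ := h.near_bound hT
  obtain ⟨t₀, ht₀, hkey⟩ := h.lower_key hT hb
  -- near `T` the error term is at most `1/4`
  have hlim : Tendsto (fun t => 1 + C * (T - t) ^ (1 / 8 : ℝ)) (𝓝[<] T) (𝓝 (1 + C * 0)) := by
    have h1 : Tendsto (fun t : ℝ => T - t) (𝓝[<] T) (𝓝 0) := by
      have : Tendsto (fun t : ℝ => T - t) (𝓝 T) (𝓝 (T - T)) :=
        (continuous_const.sub continuous_id).tendsto T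
      rw [sub_self] at this
      exact this.mono_left nhdsWithin_le_nhds
    have h2 : Tendsto (fun t : ℝ => (T - t) ^ (1 / 8 : ℝ)) (𝓝[<] T) (𝓝 ((0 : ℝ) ^ (1 / 8 : ℝ))) :=
      h1.rpow_const (Or.inr (by norm_num))
    rw [Real.zero_rpow (by norm_num)] at h2
    exact (h2.const_mul C).const_add 1
  rw [mul_zero, add_zero] at hlim
  have hev : ∀ᶠ t in 𝓝[<] T, 1 + C * (T - t) ^ (1 / 8 : ℝ) < 5 / 4 :=
    hlim.eventually_lt_const (by norm_num)
  obtain ⟨l, hl, hlev⟩ := (mem_nhdsLT_iff_exists_Ioo_subset' (show T - 1 < T by linarith)).1 hev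
  -- common starting time
  set s₁ := max (max t₀ l) (max (3 * T / 4) (T - 1)) with hs₁
  have hs₁T : s₁ < T := by
    refine max_lt (max_lt ht₀.2 hl) (max_lt (by linarith) (by linarith))
  set s₀ := (s₁ + T) / 2 with hs₀
  have b1 : t₀ ≤ s₁ := (le_max_left _ _).trans (le_max_left _ _)
  have b2 : l ≤ s₁ := (le_max_right _ _).trans (le_max_left _ _)
  have b3 : 3 * T / 4 ≤ s₁ := (le_max_left _ _).trans (le_max_right _ _)
  have b4 : T - 1 ≤ s₁ := (le_max_right _ _).trans (le_max_right _ _)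
  have hs₀T : s₀ < T := by rw [hs₀]; linarith
  have hs₁₀ : s₁ < s₀ := by rw [hs₀]; linarith
  have hs₀0 : 0 < s₀ := by linarith [ht₀.1]
  have hup : ∀ s ∈ Ico s₀ T, ∀ x, (T - s) * F (x, s) ≤ 5 / 4 := by
    intro s hs x
    have h1 := (hC s ⟨by linarith [hs.1], hs.2⟩ (by linarith [hs.1]) x).2
    have h2 : 1 + C * (T - s) ^ (1 / 8 : ℝ) < 5 / 4 := hlev ⟨by linarith [hs.1], hs.2⟩
    linarith
  have hanti := h.A_antitone hs₀0 hup
  have e5 : (4 * (5 / 4 : ℝ)) = ((5 : ℕ) : ℝ) := by norm_num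
  simp only [e5, Real.rpow_natCast] at hanti
  have hmem : ∀ s ∈ Ico s₀ T, s ∈ Ioo 0 T := fun s hs => ⟨lt_of_lt_of_le hs₀0 hs.1, hs.2⟩
  have main : ∀ t ∈ Ico s₀ T, (T - t) ^ 4 ≤ (T - s₀) ^ 4 / 101 → 1 / 90 ≤ (T - t) * M F t := by
    intro t ht hq
    have hd : 0 < T - t := by linarith [ht.2]
    have hd0 : 0 < T - s₀ := by linarith
    set K := A F t * (T - t) ^ 5 with hK
    have hA0 := A_nonneg F t
    have hK0 : 0 ≤ K := by positivity
    have hmono : MonotoneOn (fun s => 2 * Real.pi * M F s - K / 4 * ((T - s) ^ 4)⁻¹) (Icc s₀ t) := by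
      have hder : ∀ s ∈ Icc s₀ t, HasDerivAt (fun s => 2 * Real.pi * M F s - K / 4 * ((T - s) ^ 4)⁻¹)
          (A F s + B F s - K * ((T - s) ^ 5)⁻¹) s := by
        intro s hs
        have hsI := hmem s ⟨hs.1, lt_of_le_of_lt hs.2 ht.2⟩
        have hTs : 0 < T - s := by linarith [hsI.2]
        have h1 : HasDerivAt (fun s => T - s) (-1) s := by
          simpa using (hasDerivAt_id s).const_sub T
        have h4 : HasDerivAt (fun s => (T - s) ^ 4) (-(4 * (T - s) ^ 3)) s := by
          refine HasDerivAt.congr_deriv (h1.pow 4) ?_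
          push_cast
          ring
        have h5 : HasDerivAt (fun s => ((T - s) ^ 4)⁻¹) (-(-(4 * (T - s) ^ 3)) / ((T - s) ^ 4) ^ 2) s :=
          h4.inv (by positivity)
        have h2 := h5.const_mul (K / 4)
        have h3 := ((h.hasDerivAt_M hsI).const_mul (2 * Real.pi)).sub h2
        refine HasDerivAt.congr_deriv h3 ?_
        field_simp
      apply monotoneOn_of_deriv_nonneg (convex_Icc s₀ t)
      · exact fun s hs => (hder s hs).continuousAt.continuousWithinAt
      · intro s hs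
        rw [interior_Icc] at hs
        exact (hder s (Ioo_subset_Icc_self hs)).differentiableAt.differentiableWithinAt
      · intro s hs
        rw [interior_Icc] at hs
        rw [(hder s (Ioo_subset_Icc_self hs)).deriv]
        have hTs : 0 < T - s := by linarith [hs.2, ht.2]
        have h1 := hanti ⟨hs.1.le, by linarith [hs.2, ht.2]⟩ ht hs.2.le
        simp only at h1
        have h2 : K * ((T - s) ^ 5)⁻¹ ≤ A F s := by
          rw [← div_eq_mul_inv, div_le_iff₀ (by positivity), hK]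
          linarith
        have := B_nonneg F s
        linarith
    have h1 := hmono ⟨le_rfl, ht.1⟩ ⟨ht.1, le_rfl⟩ ht.1
    simp only at h1
    have hMs : 0 < M F s₀ := (hkey s₀ ⟨by linarith, hs₀T⟩).1
    have hk := hkey t ⟨by linarith [ht.1], ht.2⟩
    have hMt := hk.1
    -- `K/4 (T-t)^{-4} - K/4 (T-s₀)^{-4} ≤ 2π M(t)`
    have h2 : K / 4 * ((T - t) ^ 4)⁻¹ = A F t * (T - t) / 4 := by rw [hK]; field_simp
    have h3 : K / 4 * ((T - s₀) ^ 4)⁻¹ ≤ A F t * (T - t) / 4 / 101 := by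
      rw [← div_eq_mul_inv, div_le_iff₀ (by positivity), hK]
      have h5 : A F t * (T - t) / 4 * (T - t) ^ 4 ≤ A F t * (T - t) / 4 * ((T - s₀) ^ 4 / 101) :=
        mul_le_mul_of_nonneg_left hq (by positivity)
      nlinarith
    rw [h2] at h1
    have h4 : A F t * (T - t) / 4 * (100 / 101) ≤ 2 * Real.pi * M F t := by nlinarith
    set μ := (T - t) * M F t with hμ
    have hμ0 : 0 < μ := by positivity
    set e := (T - t) ^ 2 * (A F t / (2 * Real.pi)) with he
    have he0 : 0 ≤ e := by positivity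
    have h5 : e ≤ 4.04 * μ := by
      have h6 : A F t / (2 * Real.pi) * (T - t) / 4 * (100 / 101) ≤ M F t := by
        have : A F t / (2 * Real.pi) * (T - t) / 4 * (100 / 101) =
          (A F t * (T - t) / 4 * (100 / 101)) / (2 * Real.pi) := by ring
        rw [this, div_le_iff₀ hpi2]
        linarith
      have h7 := mul_le_mul_of_nonneg_left h6 hd.le
      rw [he, hμ]
      nlinarith
    have h8 : 1 ≤ μ + 23 / 5 * √e := by
      have h9 : √e = (T - t) * √(A F t / (2 * Real.pi)) := by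
        rw [he, Real.sqrt_mul (by positivity), Real.sqrt_sq hd.le]
      rw [h9, hμ]
      have := hk.2
      nlinarith
    by_contra hcon
    push Not at hcon
    have h10 : √e < 0.2119 := by
      rw [Real.sqrt_lt' (by norm_num)]
      nlinarith
    linarith
  have hev2 : ∀ᶠ t in 𝓝[<] T, (T - t) ^ 4 ≤ (T - s₀) ^ 4 / 101 := by
    have h1 : Tendsto (fun t : ℝ => (T - t) ^ 4) (𝓝[<] T) (𝓝 0) := by
      have : Tendsto (fun t : ℝ => (T - t) ^ 4) (𝓝 T) (𝓝 ((T - T) ^ 4)) :=
        ((continuous_const.sub continuous_id).pow 4).tendsto T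
      rw [sub_self, zero_pow (by norm_num)] at this
      exact this.mono_left nhdsWithin_le_nhds
    have h2 : 0 < (T - s₀) ^ 4 / 101 := by
      have : 0 < T - s₀ := by linarith
      positivity
    exact (h1.eventually_lt_const h2).mono fun _ h => h.le
  have hev3 : ∀ᶠ t in 𝓝[<] T, t ∈ Ico s₀ T := Ico_mem_nhdsLT hs₀T
  filter_upwards [hev2, hev3] with t h1 h2 using main t h2 h1

/-- the rescaled maximum has upper limit at least `1/2` -/
lemma rate_sup (h : Sol T F) (hT : 0 < T)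
    (hb : Tendsto (fun t => ⨆ x, |F (x, t)|) (𝓝[<] T) atTop) {m : ℝ} (hm : m < 1 / 2) :
    ∃ᶠ t in 𝓝[<] T, ∃ x, m < (T - t) * F (x, t) := by
  have hpi : 0 < Real.pi := Real.pi_pos
  have hpi2 : 0 < 2 * Real.pi := by positivity
  rw [Filter.Frequently]
  intro hcon
  push Not at hcon
  obtain ⟨t₀, ht₀, hkey⟩ := h.lower_key hT hb
  obtain ⟨l, hl, hlev⟩ := (mem_nhdsLT_iff_exists_Ioo_subset' (show T - 1 < T by linarith)).1 hcon
  set s₁ := max t₀ l with hs₁
  have hs₁T : s₁ < T := max_lt ht₀.2 hl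
  set s₀ := (s₁ + T) / 2 with hs₀
  have b1 : t₀ ≤ s₁ := le_max_left _ _
  have b2 : l ≤ s₁ := le_max_right _ _
  have hs₀T : s₀ < T := by rw [hs₀]; linarith
  have hs₁₀ : s₁ < s₀ := by rw [hs₀]; linarith
  have hs₀0 : 0 < s₀ := by linarith [ht₀.1]
  have hmem : ∀ s ∈ Ico s₀ T, s ∈ Ioo 0 T := fun s hs => ⟨lt_of_lt_of_le hs₀0 hs.1, hs.2⟩
  have hup : ∀ s ∈ Ico s₀ T, ∀ x, (T - s) * F (x, s) ≤ m := by
    intro s hs x
    exact hlev ⟨by linarith [hs.1], hs.2⟩ x
  have hanti := h.A_antitone hs₀0 hup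
  set K := (T - s₀) ^ (4 * m) * A F s₀ with hK
  have hd0 : 0 < T - s₀ := by linarith
  have hK0 : 0 ≤ K := mul_nonneg (Real.rpow_nonneg hd0.le _) (A_nonneg F s₀)
  -- the mean is at most `m/(T-t)`
  have hmean : ∀ t ∈ Ico s₀ T, (T - t) * M F t ≤ m := by
    intro t ht
    have hd : 0 < T - t := by linarith [ht.2]
    have h1 : ∫ x in (0:ℝ)..(2 * Real.pi), F (x, t) ≤ ∫ _ in (0:ℝ)..(2 * Real.pi), m / (T - t) := by
      apply intervalIntegral.integral_mono_on hpi2.le ((h.c0 (hmem t ht)).intervalIntegrable _ _)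
        intervalIntegrable_const
      intro x _
      rw [le_div_iff₀ hd, mul_comm]
      exact hup t ht x
    rw [intervalIntegral.integral_const, smul_eq_mul, sub_zero, int_F] at h1
    have h2 : M F t ≤ m / (T - t) := le_of_mul_le_mul_left h1 hpi2
    rw [le_div_iff₀ hd] at h2
    linarith
  have hlow : ∀ t ∈ Ico s₀ T, 1 ≤ m + 23 / 5 * √(K / (2 * Real.pi) * (T - t) ^ (2 - 4 * m)) := by
    intro t ht
    have hd : 0 < T - t := by linarith [ht.2]
    have hk := (hkey t ⟨by linarith [ht.1], ht.2⟩).2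
    have h1 := hanti ⟨le_rfl, hs₀T⟩ ht ht.1
    simp only at h1
    have h2 : (T - t) ^ 2 * (A F t / (2 * Real.pi)) ≤ K / (2 * Real.pi) * (T - t) ^ (2 - 4 * m) := by
      have e : (T - t) ^ (2 - 4 * m) = (T - t) ^ 2 / (T - t) ^ (4 * m) := by
        rw [Real.rpow_sub hd, Real.rpow_two]
      rw [e]
      have hp : 0 < (T - t) ^ (4 * m) := Real.rpow_pos_of_pos hd _
      have h3 : A F t ≤ K / (T - t) ^ (4 * m) := by
        rw [le_div_iff₀ hp, mul_comm]; exact h1
      calc (T - t) ^ 2 * (A F t / (2 * Real.pi)) ≤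
          (T - t) ^ 2 * (K / (T - t) ^ (4 * m) / (2 * Real.pi)) := by gcongr
        _ = _ := by ring
    have h9 : √((T - t) ^ 2 * (A F t / (2 * Real.pi))) = (T - t) * √(A F t / (2 * Real.pi)) := by
      rw [Real.sqrt_mul (by positivity), Real.sqrt_sq hd.le]
    have h10 := Real.sqrt_le_sqrt h2
    rw [h9] at h10
    have := hmean t ht
    nlinarith
  have hlim : Tendsto (fun t => m + 23 / 5 * √(K / (2 * Real.pi) * (T - t) ^ (2 - 4 * m)))
      (𝓝[<] T) (𝓝 (m + 23 / 5 * √(K / (2 * Real.pi) * 0))) := by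
    have h1 : Tendsto (fun t : ℝ => T - t) (𝓝[<] T) (𝓝 0) := by
      have : Tendsto (fun t : ℝ => T - t) (𝓝 T) (𝓝 (T - T)) :=
        (continuous_const.sub continuous_id).tendsto T
      rw [sub_self] at this
      exact this.mono_left nhdsWithin_le_nhds
    have h2 : Tendsto (fun t : ℝ => (T - t) ^ (2 - 4 * m)) (𝓝[<] T) (𝓝 ((0 : ℝ) ^ (2 - 4 * m))) :=
      h1.rpow_const (Or.inr (by linarith))
    rw [Real.zero_rpow (by linarith)] at h2
    exact (((h2.const_mul _).sqrt).const_mul _).const_add m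
  rw [mul_zero, Real.sqrt_zero, mul_zero, add_zero] at hlim
  have hev3 : ∀ᶠ t in 𝓝[<] T, t ∈ Ico s₀ T := Ico_mem_nhdsLT hs₀T
  have : 1 ≤ m := ge_of_tendsto hlim (hev3.mono fun t ht => hlow t ht)
  linarith

end Sol

end

end Run7.h736
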