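import Pool.Agent.Run7.h736.TypeI

open scoped ContDiff
open Set MeasureTheory

namespace Run7.h736

noncomputable section

/-- the polynomial kernel -/
def phi (s : ℝ) : ℝ := 35 / 32 * (1 - s ^ 2) ^ 3
def phi1 (s : ℝ) : ℝ := 35 / 32 * (-6 * s * (1 - s ^ 2) ^ 2)
def phi2 (s : ℝ) : ℝ := 35 / 32 * (-6 * (1 - s ^ 2) ^ 2 + 24 * s ^ 2 * (1 - s ^ 2))
def phi3 (s : ℝ) : ℝ := 35 / 32 * (72 * s - 120 * s ^ 3)

lemma phi_deriv (s : ℝ) : HasDerivAt phi (phi1 s) s := by
  have h : HasDerivAt (fun s : ℝ => 1 - s ^ 2) (-(2 * s)) s := by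
    have := ((hasDerivAt_pow 2 s).const_sub 1)
    refine this.congr_deriv ?_
    push_cast; ring
  have := (h.pow 3).const_mul (35 / 32)
  refine HasDerivAt.congr_deriv this ?_
  unfold phi1; push_cast; ring

lemma phi1_deriv (s : ℝ) : HasDerivAt phi1 (phi2 s) s := by
  have h : HasDerivAt (fun s : ℝ => 1 - s ^ 2) (-(2 * s)) s := by
    have := ((hasDerivAt_pow 2 s).const_sub 1)
    refine this.congr_deriv ?_
    push_cast; ring
  have := (((hasDerivAt_id s).const_mul (-6)).mul (h.pow 2)).const_mul (35 / 32)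
  refine HasDerivAt.congr_deriv this ?_
  unfold phi2; push_cast; simp only [id, Pi.pow_apply]; ring

lemma phi2_deriv (s : ℝ) : HasDerivAt phi2 (phi3 s) s := by
  have h : HasDerivAt (fun s : ℝ => 1 - s ^ 2) (-(2 * s)) s := by
    have := ((hasDerivAt_pow 2 s).const_sub 1)
    refine this.congr_deriv ?_
    push_cast; ring
  have := (((h.pow 2).const_mul (-6)).add (((hasDerivAt_pow 2 s).const_mul 24).mul h)).const_mul
    (35 / 32)
  refine HasDerivAt.congr_deriv this ?_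
  unfold phi3; push_cast; ring

lemma phi_cont : Continuous phi := by unfold phi; fun_prop
lemma phi1_cont : Continuous phi1 := by unfold phi1; fun_prop
lemma phi2_cont : Continuous phi2 := by unfold phi2; fun_prop
lemma phi3_cont : Continuous phi3 := by unfold phi3; fun_prop

lemma phi_nonneg {s : ℝ} (hs : s ∈ Icc (-1:ℝ) 1) : 0 ≤ phi s := by
  have : 0 ≤ 1 - s ^ 2 := by nlinarith [hs.1, hs.2]
  unfold phi; positivity

lemma phi3_bound {s : ℝ} (hs : s ∈ Icc (-1:ℝ) 1) : |phi3 s| ≤ 210 := by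
  have h1 : |s| ≤ 1 := abs_le.2 hs
  have h2 : |s ^ 3| ≤ 1 := by rw [abs_pow]; exact pow_le_one₀ (abs_nonneg _) h1
  unfold phi3
  rw [abs_mul]
  have h3 : |72 * s - 120 * s ^ 3| ≤ 192 := by
    calc |72 * s - 120 * s ^ 3| ≤ |72 * s| + |120 * s ^ 3| := abs_sub _ _
      _ = 72 * |s| + 120 * |s ^ 3| := by
          rw [abs_mul, abs_mul]; norm_num
      _ ≤ 192 := by linarith
  have h4 : |(35 / 32 : ℝ)| = 35 / 32 := abs_of_pos (by norm_num)
  rw [h4]
  nlinarith

lemma phi_int : ∫ s in (-1:ℝ)..1, phi s = 1 := by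
  have e : ∀ s : ℝ, HasDerivAt (fun s : ℝ => 35 / 32 * (s - s ^ 3 + 3 / 5 * s ^ 5 - s ^ 7 / 7))
      (phi s) s := by
    intro s
    have := ((((hasDerivAt_id s).sub (hasDerivAt_pow 3 s)).add
      ((hasDerivAt_pow 5 s).const_mul (3 / 5))).sub ((hasDerivAt_pow 7 s).div_const 7)).const_mul
      (35 / 32)
    refine HasDerivAt.congr_deriv this ?_
    unfold phi; push_cast; ring
  rw [intervalIntegral.integral_eq_sub_of_hasDerivAt (fun s _ => e s)
    (phi_cont.intervalIntegrable _ _)]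
  norm_num

namespace Sol

variable {T : ℝ} {F : ℝ × ℝ → ℝ}

/-- local average of `u` around `x₀` at scale `δ` -/
def G (F : ℝ × ℝ → ℝ) (x₀ δ t : ℝ) : ℝ := ∫ s in (-1:ℝ)..1, phi s * F (x₀ + δ * s, t)

lemma smooth_aff (h : Sol T F) (x₀ δ : ℝ) :
    ContDiffOn ℝ ∞ (fun p : ℝ × ℝ => phi p.1 * F (x₀ + δ * p.1, p.2)) (Om 0 T) := by
  have h1 : ContDiffOn ℝ ∞ (fun p : ℝ × ℝ => F (x₀ + δ * p.1, p.2)) (Om 0 T) := by
    have h2 : ContDiff ℝ ∞ (fun p : ℝ × ℝ => ((x₀ + δ * p.1, p.2) : ℝ × ℝ)) := by fun_prop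
    exact h.sm.comp h2.contDiffOn (fun p hp => mem_Om.2 (mem_Om.1 hp))
  have h3 : ContDiff ℝ ∞ (fun p : ℝ × ℝ => phi p.1) := by unfold phi; fun_prop
  exact h3.contDiffOn.mul h1

lemma hasDerivAt_G (h : Sol T F) {t : ℝ} (ht : t ∈ Ioo 0 T) (x₀ δ : ℝ) :
    HasDerivAt (G F x₀ δ) (∫ s in (-1:ℝ)..1, phi s * dt F (x₀ + δ * s, t)) t := by
  have h1 := hasDerivAt_integral (h.smooth_aff x₀ δ) ht (-1) 1
  have e : ∀ s, dt (fun p : ℝ × ℝ => phi p.1 * F (x₀ + δ * p.1, p.2)) (s, t) =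
      phi s * dt F (x₀ + δ * s, t) := by
    intro s
    have a1 := hasDerivAt_dt (h.smooth_aff x₀ δ) (x := s) ht
    have a2 := (hasDerivAt_dt h.sm (x := x₀ + δ * s) ht).const_mul (phi s)
    exact a1.unique a2
  simp only [e] at h1
  exact h1

/-- integration by parts three times -/
lemma parts (h : Sol T F) {t : ℝ} (ht : t ∈ Ioo 0 T) (x₀ δ : ℝ) :
    δ ^ 3 * ∫ s in (-1:ℝ)..1, phi s * dx (dx (dx F)) (x₀ + δ * s, t) =
      - ∫ s in (-1:ℝ)..1, phi3 s * F (x₀ + δ * s, t) := by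
  have haff : ∀ s : ℝ, HasDerivAt (fun s => x₀ + δ * s) δ s := by
    intro s
    have := ((hasDerivAt_id s).const_mul δ).const_add x₀
    refine HasDerivAt.congr_deriv this (by simp)
  have k0 : ∀ s, HasDerivAt (fun s => F (x₀ + δ * s, t)) (dx F (x₀ + δ * s, t) * δ) s :=
    fun s => (hasDerivAt_dx h.sm ht).comp s (haff s)
  have k1 : ∀ s, HasDerivAt (fun s => dx F (x₀ + δ * s, t)) (dx (dx F) (x₀ + δ * s, t) * δ) s :=
    fun s => (hasDerivAt_dx h.sm1 ht).comp s (haff s)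
  have k2 : ∀ s, HasDerivAt (fun s => dx (dx F) (x₀ + δ * s, t))
      (dx (dx (dx F)) (x₀ + δ * s, t) * δ) s :=
    fun s => (hasDerivAt_dx h.sm2 ht).comp s (haff s)
  have caff : Continuous (fun s : ℝ => x₀ + δ * s) := by fun_prop
  have c0 : Continuous (fun s => F (x₀ + δ * s, t)) := (cont_slice h.sm.continuousOn ht).comp caff
  have c3 : Continuous (fun s => dx (dx (dx F)) (x₀ + δ * s, t)) :=
    (cont_slice h.sm3.continuousOn ht).comp caff
  have key : ∀ s, HasDerivAt (fun s => phi s * (δ ^ 2 * dx (dx F) (x₀ + δ * s, t)) -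
      phi1 s * (δ * dx F (x₀ + δ * s, t)) + phi2 s * F (x₀ + δ * s, t))
      (δ ^ 3 * (phi s * dx (dx (dx F)) (x₀ + δ * s, t)) + phi3 s * F (x₀ + δ * s, t)) s := by
    intro s
    have := (((phi_deriv s).mul ((k2 s).const_mul (δ ^ 2))).sub
      ((phi1_deriv s).mul ((k1 s).const_mul δ))).add ((phi2_deriv s).mul (k0 s))
    refine HasDerivAt.congr_deriv this ?_
    ring
  have i1 : Continuous (fun s => δ ^ 3 * (phi s * dx (dx (dx F)) (x₀ + δ * s, t))) :=
    continuous_const.mul (phi_cont.mul c3)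
  have i2 : Continuous (fun s => phi3 s * F (x₀ + δ * s, t)) := phi3_cont.mul c0
  have h2 := intervalIntegral.integral_eq_sub_of_hasDerivAt (a := -1) (b := 1)
    (fun s _ => key s) ((i1.add i2).intervalIntegrable _ _)
  rw [intervalIntegral.integral_add (i1.intervalIntegrable _ _) (i2.intervalIntegrable _ _),
    intervalIntegral.integral_const_mul] at h2
  have z : phi 1 = 0 ∧ phi (-1) = 0 ∧ phi1 1 = 0 ∧ phi1 (-1) = 0 ∧ phi2 1 = 0 ∧ phi2 (-1) = 0 := by
    unfold phi phi1 phi2; norm_num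
  obtain ⟨z1, z2, z3, z4, z5, z6⟩ := z
  rw [z1, z2, z3, z4, z5, z6] at h2
  linarith

/-- Jensen -/
lemma G_sq_le (h : Sol T F) {t : ℝ} (ht : t ∈ Ioo 0 T) (x₀ δ : ℝ) :
    (G F x₀ δ t) ^ 2 ≤ ∫ s in (-1:ℝ)..1, phi s * (F (x₀ + δ * s, t)) ^ 2 := by
  have caff : Continuous (fun s : ℝ => x₀ + δ * s) := by fun_prop
  have c0 : Continuous (fun s => F (x₀ + δ * s, t)) := (cont_slice h.sm.continuousOn ht).comp caff
  set g := G F x₀ δ t with hg
  have h0 : 0 ≤ ∫ s in (-1:ℝ)..1, phi s * (F (x₀ + δ * s, t) - g) ^ 2 := by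
    apply intervalIntegral.integral_nonneg (by norm_num)
    intro s hs
    exact mul_nonneg (phi_nonneg hs) (sq_nonneg _)
  have i1 : Continuous (fun s => phi s * (F (x₀ + δ * s, t)) ^ 2) := phi_cont.mul (c0.pow 2)
  have i2 : Continuous (fun s => phi s * F (x₀ + δ * s, t)) := phi_cont.mul c0
  have e : (fun s => phi s * (F (x₀ + δ * s, t) - g) ^ 2) = fun s =>
      (phi s * (F (x₀ + δ * s, t)) ^ 2 - (2 * g) * (phi s * F (x₀ + δ * s, t))) +
        g ^ 2 * phi s := by
    funext s; ring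
  have j1 : Continuous (fun s => phi s * (F (x₀ + δ * s, t)) ^ 2 -
      (2 * g) * (phi s * F (x₀ + δ * s, t))) := i1.sub (continuous_const.mul i2)
  have j2 : Continuous (fun s => g ^ 2 * phi s) := continuous_const.mul phi_cont
  have j3 : Continuous (fun s => (2 * g) * (phi s * F (x₀ + δ * s, t))) :=
    continuous_const.mul i2
  rw [e, intervalIntegral.integral_add (j1.intervalIntegrable _ _) (j2.intervalIntegrable _ _),
    intervalIntegral.integral_sub (i1.intervalIntegrable _ _)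
    (j3.intervalIntegrable _ _), intervalIntegral.integral_const_mul,
    intervalIntegral.integral_const_mul, phi_int] at h0
  change 0 ≤ _ - 2 * g * G F x₀ δ t + _ at h0
  rw [← hg] at h0
  nlinarith

/-- the differential inequality for the local average -/
lemma G_deriv_ge (h : Sol T F) {t : ℝ} (ht : t ∈ Ioo 0 T) (x₀ : ℝ) {δ S : ℝ} (hδ : 0 < δ)
    (hS : ∀ x, |F (x, t)| ≤ S) :
    (G F x₀ δ t) ^ 2 - 420 * S / δ ^ 3 ≤ ∫ s in (-1:ℝ)..1, phi s * dt F (x₀ + δ * s, t) := by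
  have caff : Continuous (fun s : ℝ => x₀ + δ * s) := by fun_prop
  have c0 : Continuous (fun s => F (x₀ + δ * s, t)) := (cont_slice h.sm.continuousOn ht).comp caff
  have c1 : Continuous (fun s => dx F (x₀ + δ * s, t)) :=
    (cont_slice h.sm1.continuousOn ht).comp caff
  have c3 : Continuous (fun s => dx (dx (dx F)) (x₀ + δ * s, t)) :=
    (cont_slice h.sm3.continuousOn ht).comp caff
  have e : (fun s => phi s * dt F (x₀ + δ * s, t)) = fun s =>
      phi s * dx (dx (dx F)) (x₀ + δ * s, t) + (phi s * (dx F (x₀ + δ * s, t)) ^ 2 +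
        phi s * (F (x₀ + δ * s, t)) ^ 2) := by
    funext s
    rw [h.eq (x₀ + δ * s, t) (mem_Om.2 ht)]
    ring
  have i3 : Continuous (fun s => phi s * dx (dx (dx F)) (x₀ + δ * s, t)) := phi_cont.mul c3
  have i1 : Continuous (fun s => phi s * (dx F (x₀ + δ * s, t)) ^ 2) := phi_cont.mul (c1.pow 2)
  have i0 : Continuous (fun s => phi s * (F (x₀ + δ * s, t)) ^ 2) := phi_cont.mul (c0.pow 2)
  have i10 : Continuous (fun s => phi s * (dx F (x₀ + δ * s, t)) ^ 2 +
      phi s * (F (x₀ + δ * s, t)) ^ 2) := i1.add i0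
  rw [e, intervalIntegral.integral_add (i3.intervalIntegrable _ _) (i10.intervalIntegrable _ _),
    intervalIntegral.integral_add (i1.intervalIntegrable _ _) (i0.intervalIntegrable _ _)]
  have h1 : 0 ≤ ∫ s in (-1:ℝ)..1, phi s * (dx F (x₀ + δ * s, t)) ^ 2 := by
    apply intervalIntegral.integral_nonneg (by norm_num)
    intro s hs
    exact mul_nonneg (phi_nonneg hs) (sq_nonneg _)
  have h2 := h.G_sq_le ht x₀ δ
  have h3 := h.parts ht x₀ δ
  have h4 : |∫ s in (-1:ℝ)..1, phi3 s * F (x₀ + δ * s, t)| ≤ 420 * S := by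
    have hS0 : 0 ≤ S := (abs_nonneg _).trans (hS 0)
    have : ‖∫ s in (-1:ℝ)..1, phi3 s * F (x₀ + δ * s, t)‖ ≤ (210 * S) * |1 - (-1)| := by
      apply intervalIntegral.norm_integral_le_of_norm_le_const
      intro s hs
      rw [uIoc_of_le (by norm_num)] at hs
      rw [Real.norm_eq_abs, abs_mul]
      exact mul_le_mul (phi3_bound ⟨hs.1.le, hs.2⟩) (hS _) (abs_nonneg _) (by norm_num)
    rw [Real.norm_eq_abs] at this
    have e2 : |(1:ℝ) - (-1)| = 2 := by norm_num
    rw [e2] at this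
    linarith
  have hδ3 : 0 < δ ^ 3 := by positivity
  have h5 : -(420 * S / δ ^ 3) ≤ ∫ s in (-1:ℝ)..1, phi s * dx (dx (dx F)) (x₀ + δ * s, t) := by
    rw [← neg_div, div_le_iff₀ hδ3]
    have := (abs_le.1 h4).2
    nlinarith
  linarith

lemma G_abs_le {t : ℝ} {x₀ δ S : ℝ} (hc : Continuous fun x => F (x, t))
    (hS : ∀ x, |F (x, t)| ≤ S) : |G F x₀ δ t| ≤ S := by
  have caff : Continuous (fun s : ℝ => x₀ + δ * s) := by fun_prop
  have c0 : Continuous (fun s => F (x₀ + δ * s, t)) := hc.comp caff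
  have i2 : Continuous (fun s => phi s * F (x₀ + δ * s, t)) := phi_cont.mul c0
  have hS0 : 0 ≤ S := (abs_nonneg _).trans (hS 0)
  unfold G
  calc |∫ s in (-1:ℝ)..1, phi s * F (x₀ + δ * s, t)|
      ≤ ∫ s in (-1:ℝ)..1, |phi s * F (x₀ + δ * s, t)| :=
        intervalIntegral.abs_integral_le_integral_abs (by norm_num)
    _ ≤ ∫ s in (-1:ℝ)..1, phi s * S := by
        apply intervalIntegral.integral_mono_on (by norm_num) (i2.abs.intervalIntegrable _ _)
          ((phi_cont.mul continuous_const).intervalIntegrable _ _)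
        intro s hs
        rw [abs_mul, abs_of_nonneg (phi_nonneg hs)]
        exact mul_le_mul_of_nonneg_left (hS _) (phi_nonneg hs)
    _ = S := by rw [intervalIntegral.integral_mul_const, phi_int, one_mul]

/-- closeness of the local average -/
lemma G_close (h : Sol T F) {t : ℝ} (ht : t ∈ Ioo 0 T) (x₀ : ℝ) {δ : ℝ} (hδ : 0 < δ)
    (hδ2 : δ ≤ 2 * Real.pi) : |G F x₀ δ t - F (x₀, t)| ≤ √(δ * A F t) := by
  have caff : Continuous (fun s : ℝ => x₀ + δ * s) := by fun_prop
  have c0 : Continuous (fun s => F (x₀ + δ * s, t)) := (cont_slice h.sm.continuousOn ht).comp caff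
  have i2 : Continuous (fun s => phi s * F (x₀ + δ * s, t)) := phi_cont.mul c0
  have i3 : Continuous (fun s => phi s * (F (x₀ + δ * s, t) - F (x₀, t))) :=
    phi_cont.mul (c0.sub continuous_const)
  have e : G F x₀ δ t - F (x₀, t) =
      ∫ s in (-1:ℝ)..1, phi s * (F (x₀ + δ * s, t) - F (x₀, t)) := by
    have e2 : (fun s => phi s * (F (x₀ + δ * s, t) - F (x₀, t))) =
      fun s => phi s * F (x₀ + δ * s, t) - phi s * F (x₀, t) := by funext s; ring
    have j : Continuous (fun s => phi s * F (x₀, t)) := phi_cont.mul continuous_const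
    rw [e2, intervalIntegral.integral_sub (i2.intervalIntegrable _ _)
      (j.intervalIntegrable _ _),
      intervalIntegral.integral_mul_const, phi_int, one_mul]
    rfl
  rw [e]
  calc |∫ s in (-1:ℝ)..1, phi s * (F (x₀ + δ * s, t) - F (x₀, t))|
      ≤ ∫ s in (-1:ℝ)..1, |phi s * (F (x₀ + δ * s, t) - F (x₀, t))| :=
        intervalIntegral.abs_integral_le_integral_abs (by norm_num)
    _ ≤ ∫ s in (-1:ℝ)..1, phi s * √(δ * A F t) := by
        apply intervalIntegral.integral_mono_on (by norm_num) (i3.abs.intervalIntegrable _ _)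
          ((phi_cont.mul continuous_const).intervalIntegrable _ _)
        intro s hs
        rw [abs_mul, abs_of_nonneg (phi_nonneg hs)]
        refine mul_le_mul_of_nonneg_left (h.osc' ht ?_ hδ2) (phi_nonneg hs)
        have : |s| ≤ 1 := abs_le.2 hs
        rw [add_sub_cancel_left, abs_mul, abs_of_pos hδ]
        nlinarith
    _ = √(δ * A F t) := by rw [intervalIntegral.integral_mul_const, phi_int, one_mul]

end Sol

end

end Run7.h736
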