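import Pool.Agent.Run7.h736.Moll

open scoped ContDiff
open Set MeasureTheory

namespace Run7.h736

noncomputable section

namespace Sol

variable {T : ℝ} {F : ℝ × ℝ → ℝ}

/-- one-sided bound for the local averages -/
lemma G_upper (h : Sol T F) {t₀ C : ℝ} (ht₀ : 0 < t₀) (hC0 : 0 ≤ C)
    (hC : ∀ t ∈ Ico t₀ T, ∀ x, (T - t) * |F (x, t)| ≤ C) (x₀ : ℝ) {δ : ℝ} (hδ : 0 < δ)
    {t : ℝ} (ht : t ∈ Ico t₀ T) :
    (T - t) * G F x₀ δ t ≤ 1 + 210 * C / δ ^ 3 * (T - t) := by
  set K := 420 * C / δ ^ 3 with hK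
  have hmem : ∀ s ∈ Ico t T, s ∈ Ioo 0 T := fun s hs =>
    ⟨lt_of_lt_of_le ht₀ (ht.1.trans hs.1), hs.2⟩
  have hS : ∀ s ∈ Ico t T, ∀ x, |F (x, s)| ≤ C / (T - s) := by
    intro s hs x
    have hd : 0 < T - s := by linarith [hs.2]
    rw [le_div_iff₀ hd, mul_comm]
    exact hC s ⟨ht.1.trans hs.1, hs.2⟩ x
  set H : ℝ → ℝ := fun s => (T - s) ^ 2 * G F x₀ δ s - (T - s) - K / 2 * (T - s) ^ 2 with hH
  have hd : ∀ s ∈ Ico t T, HasDerivAt H
      (-(2 * (T - s)) * G F x₀ δ s + (T - s) ^ 2 *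
        (∫ r in (-1:ℝ)..1, phi r * dt F (x₀ + δ * r, s)) + 1 + K * (T - s)) s := by
    intro s hs
    have h1 : HasDerivAt (fun s => T - s) (-1) s := by
      simpa using (hasDerivAt_id s).const_sub T
    have h2 := (((h1.pow 2).mul (h.hasDerivAt_G (hmem s hs) x₀ δ)).sub h1).sub
      ((h1.pow 2).const_mul (K / 2))
    refine HasDerivAt.congr_deriv h2 ?_
    simp only [Pi.pow_apply]
    push_cast
    ring
  have hmono : MonotoneOn H (Ico t T) := by
    apply monotoneOn_of_deriv_nonneg (convex_Ico t T)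
    · exact fun s hs => (hd s hs).continuousAt.continuousWithinAt
    · intro s hs
      rw [interior_Ico] at hs
      exact (hd s (Ioo_subset_Ico_self hs)).differentiableAt.differentiableWithinAt
    · intro s hs
      rw [interior_Ico] at hs
      have hs' := Ioo_subset_Ico_self hs
      rw [(hd s hs').deriv]
      have hpos : 0 < T - s := by linarith [hs.2]
      have h1 := h.G_deriv_ge (hmem s hs') x₀ hδ (hS s hs')
      have h2 : (T - s) ^ 2 * (420 * (C / (T - s)) / δ ^ 3) = K * (T - s) := by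
        rw [hK]; field_simp
      have h3 : (T - s) ^ 2 * ((G F x₀ δ s) ^ 2 - 420 * (C / (T - s)) / δ ^ 3) ≤
          (T - s) ^ 2 * (∫ r in (-1:ℝ)..1, phi r * dt F (x₀ + δ * r, s)) :=
        mul_le_mul_of_nonneg_left h1 (sq_nonneg _)
      rw [mul_sub, h2] at h3
      nlinarith [sq_nonneg ((T - s) * G F x₀ δ s - 1)]
  have hTt : 0 < T - t := by linarith [ht.2]
  -- H ≤ 0
  have hH0 : H t ≤ 0 := by
    by_contra hcon
    push Not at hcon
    set η := min ((T - t) / 2) (H t / (2 * (C + 1))) with hη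
    have hη0 : 0 < η := lt_min (by linarith) (by positivity)
    have hη1 : η ≤ (T - t) / 2 := min_le_left _ _
    have hη2 : η ≤ H t / (2 * (C + 1)) := min_le_right _ _
    have hs : T - η ∈ Ico t T := ⟨by linarith, by linarith⟩
    have h1 := hmono ⟨le_rfl, ht.2⟩ hs hs.1
    have h2 : H (T - η) ≤ η * C := by
      rw [hH]
      simp only [sub_sub_cancel]
      have hg : G F x₀ δ (T - η) ≤ C / η := by
        have := G_abs_le (x₀ := x₀) (δ := δ) (h.c0 (hmem _ hs)) (hS _ hs)
        rw [sub_sub_cancel] at this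
        exact (abs_le.1 this).2
      have h3 : η ^ 2 * G F x₀ δ (T - η) ≤ η ^ 2 * (C / η) :=
        mul_le_mul_of_nonneg_left hg (sq_nonneg _)
      have h4 : η ^ 2 * (C / η) = η * C := by field_simp
      have h5 : 0 ≤ K / 2 * η ^ 2 := by positivity
      linarith
    have h3 : η * C ≤ H t / 2 := by
      have h5 : η * (C + 1) ≤ H t / 2 := by
        calc η * (C + 1) ≤ H t / (2 * (C + 1)) * (C + 1) :=
              mul_le_mul_of_nonneg_right hη2 (by linarith)
          _ = H t / 2 := by field_simp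
      nlinarith
    linarith
  rw [hH] at hH0
  simp only at hH0
  have h1 : (T - t) * ((T - t) * G F x₀ δ t) ≤ (T - t) * (1 + K / 2 * (T - t)) := by nlinarith
  have h2 := le_of_mul_le_mul_left h1 hTt
  have h3 : K / 2 = 210 * C / δ ^ 3 := by rw [hK]; ring
  rw [h3] at h2
  exact h2

lemma G_lower (h : Sol T F) {t₀ C : ℝ} (ht₀ : 0 < t₀)
    (hC : ∀ t ∈ Ico t₀ T, ∀ x, (T - t) * |F (x, t)| ≤ C) (x₀ : ℝ) {δ : ℝ} (hδ : 0 < δ)
    {t : ℝ} (ht : t ∈ Ico t₀ T) :
    G F x₀ δ t₀ - 420 * C / δ ^ 3 * (Real.log (T - t₀) - Real.log (T - t)) ≤ G F x₀ δ t := by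
  set K := 420 * C / δ ^ 3 with hK
  have hmem : ∀ s ∈ Ico t₀ T, s ∈ Ioo 0 T := fun s hs => ⟨lt_of_lt_of_le ht₀ hs.1, hs.2⟩
  have hS : ∀ s ∈ Ico t₀ T, ∀ x, |F (x, s)| ≤ C / (T - s) := by
    intro s hs x
    have hd : 0 < T - s := by linarith [hs.2]
    rw [le_div_iff₀ hd, mul_comm]
    exact hC s hs x
  have hd : ∀ s ∈ Ico t₀ T, HasDerivAt (fun s => G F x₀ δ s - K * Real.log (T - s))
      ((∫ r in (-1:ℝ)..1, phi r * dt F (x₀ + δ * r, s)) + K / (T - s)) s := by
    intro s hs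
    have hpos : 0 < T - s := by linarith [hs.2]
    have h1 : HasDerivAt (fun s => T - s) (-1) s := by
      simpa using (hasDerivAt_id s).const_sub T
    have h2 := (h.hasDerivAt_G (hmem s hs) x₀ δ).sub ((h1.log hpos.ne').const_mul K)
    refine HasDerivAt.congr_deriv h2 ?_
    ring
  have hmono : MonotoneOn (fun s => G F x₀ δ s - K * Real.log (T - s)) (Ico t₀ T) := by
    apply monotoneOn_of_deriv_nonneg (convex_Ico t₀ T)
    · exact fun s hs => (hd s hs).continuousAt.continuousWithinAt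
    · intro s hs
      rw [interior_Ico] at hs
      exact (hd s (Ioo_subset_Ico_self hs)).differentiableAt.differentiableWithinAt
    · intro s hs
      rw [interior_Ico] at hs
      have hs' := Ioo_subset_Ico_self hs
      rw [(hd s hs').deriv]
      have hpos : 0 < T - s := by linarith [hs.2]
      have h1 := h.G_deriv_ge (hmem s hs') x₀ hδ (hS s hs')
      have h2 : 420 * (C / (T - s)) / δ ^ 3 = K / (T - s) := by
        rw [hK]; field_simp
      rw [h2] at h1
      nlinarith [sq_nonneg (G F x₀ δ s)]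
  have := hmono ⟨le_rfl, ht.1.trans_lt ht.2⟩ ht ht.1
  simp only at this
  linarith

/-- near the final time the rescaled solution is in `[-o(1), 1+o(1)]` with a rate -/
lemma near_bound (h : Sol T F) (hT : 0 < T) : ∃ C : ℝ, 0 ≤ C ∧ ∀ t ∈ Ico (3 * T / 4) T, T - t ≤ 1 →
    ∀ x, -C * (T - t) ^ (1 / 8 : ℝ) ≤ (T - t) * F (x, t) ∧
      (T - t) * F (x, t) ≤ 1 + C * (T - t) ^ (1 / 8 : ℝ) := by
  obtain ⟨CA, hCA0, hCA⟩ := h.A_bound hT
  obtain ⟨C, hC0, hC⟩ := h.F_bound hT
  have ht₀ : 0 < 3 * T / 4 := by linarith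
  set t₀ := 3 * T / 4 with ht₀def
  have hD : 0 < T - t₀ := by rw [ht₀def]; linarith
  refine ⟨420 * C + √CA + C / (T - t₀) + 420 * C * (|Real.log (T - t₀)| + 8), by positivity, ?_⟩
  intro t ht ht1 x
  set d := T - t with hd
  have hd0 : 0 < d := by rw [hd]; linarith [ht.2]
  have htm : t ∈ Ioo 0 T := ⟨lt_of_lt_of_le ht₀ ht.1, ht.2⟩
  set e := d ^ (1 / 8 : ℝ) with he
  have he0 : 0 < e := Real.rpow_pos_of_pos hd0 _
  have he8 : e ^ 8 = d := by
    rw [he, ← Real.rpow_natCast, ← Real.rpow_mul hd0.le]; norm_num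
  have he1 : e ≤ 1 := Real.rpow_le_one hd0.le ht1 (by norm_num)
  have hpi : (3:ℝ) < Real.pi := Real.pi_gt_three
  have hδ : 0 < e ^ 2 := by positivity
  have he2 : e ^ 2 ≤ 1 := pow_le_one₀ he0.le he1
  have hδ2 : e ^ 2 ≤ 2 * Real.pi := by linarith
  have hclose := h.G_close htm x hδ hδ2
  have hsq : d * √(e ^ 2 * A F t) ≤ √CA * e := by
    have e1 : d * √(e ^ 2 * A F t) = e * √(d ^ 2 * A F t) := by
      rw [Real.sqrt_mul (sq_nonneg _), Real.sqrt_mul (sq_nonneg _), Real.sqrt_sq hd0.le,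
        Real.sqrt_sq he0.le]
      ring
    rw [e1, mul_comm]
    exact mul_le_mul_of_nonneg_right (Real.sqrt_le_sqrt (hCA t ht)) he0.le
  have hcl := abs_le.1 hclose
  have hsA : 0 ≤ √CA := Real.sqrt_nonneg _
  have hquot : ∀ c : ℝ, c / (e ^ 2) ^ 3 * d = c * e ^ 2 := by
    intro c; rw [← he8]; field_simp
  have hee : e ^ 2 ≤ e := by nlinarith
  constructor
  · have hl := h.G_lower ht₀ hC x hδ ht
    have hG0 : -(C / (T - t₀)) ≤ G F x (e ^ 2) t₀ := by
      have hm0 : t₀ ∈ Ioo 0 T := ⟨ht₀, by linarith⟩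
      have hS : ∀ y, |F (y, t₀)| ≤ C / (T - t₀) := by
        intro y
        rw [le_div_iff₀ hD, mul_comm]
        exact hC t₀ ⟨le_rfl, by linarith⟩ y
      exact (abs_le.1 (G_abs_le (x₀ := x) (δ := e ^ 2) (h.c0 hm0) hS)).1
    have hlog : Real.log (T - t₀) - Real.log d ≤ |Real.log (T - t₀)| + 8 / e := by
      have l1 : Real.log d = 8 * Real.log e := by rw [← he8, Real.log_pow]; norm_num
      have l2 : -Real.log e ≤ 1 / e := by
        rw [← Real.log_inv]
        have := Real.log_le_sub_one_of_pos (inv_pos.2 he0)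
        rw [one_div]; linarith
      have l3 := le_abs_self (Real.log (T - t₀))
      have l4 : 8 / e = 8 * (1 / e) := by ring
      rw [l1, l4]; linarith
    have h1 : d * (420 * C / (e ^ 2) ^ 3 * (Real.log (T - t₀) - Real.log d)) ≤
        420 * C * (|Real.log (T - t₀)| + 8) * e := by
      have e1 : d * (420 * C / (e ^ 2) ^ 3 * (Real.log (T - t₀) - Real.log d)) =
          420 * C * e ^ 2 * (Real.log (T - t₀) - Real.log d) := by
        rw [← hquot (420 * C)]; ring
      rw [e1]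
      have h2 : 420 * C * e ^ 2 * (Real.log (T - t₀) - Real.log d) ≤
          420 * C * e ^ 2 * (|Real.log (T - t₀)| + 8 / e) :=
        mul_le_mul_of_nonneg_left hlog (by positivity)
      have h3 : e ^ 2 * (|Real.log (T - t₀)| + 8 / e) ≤ (|Real.log (T - t₀)| + 8) * e := by
        have : e ^ 2 * (|Real.log (T - t₀)| + 8 / e) = e ^ 2 * |Real.log (T - t₀)| + 8 * e := by
          field_simp
        rw [this]
        have := abs_nonneg (Real.log (T - t₀))
        nlinarith
      calc _ ≤ _ := h2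
        _ = 420 * C * (e ^ 2 * (|Real.log (T - t₀)| + 8 / e)) := by ring
        _ ≤ 420 * C * ((|Real.log (T - t₀)| + 8) * e) :=
            mul_le_mul_of_nonneg_left h3 (by positivity)
        _ = _ := by ring
    have hde : d ≤ e := by
      have : e ^ 8 ≤ e := by
        calc e ^ 8 = e ^ 7 * e := by ring
          _ ≤ 1 * e := mul_le_mul_of_nonneg_right (pow_le_one₀ he0.le he1) he0.le
          _ = e := one_mul e
      linarith [he8]
    have h4 : d * (C / (T - t₀)) ≤ C / (T - t₀) * e := by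
      rw [mul_comm]
      exact mul_le_mul_of_nonneg_left hde (by positivity)
    have h5 : d * G F x (e ^ 2) t ≤ d * F (x, t) + d * √(e ^ 2 * A F t) := by
      rw [← mul_add]
      exact mul_le_mul_of_nonneg_left (by linarith [hcl.2]) hd0.le
    have h6 : d * (G F x (e ^ 2) t₀ - 420 * C / (e ^ 2) ^ 3 * (Real.log (T - t₀) - Real.log d)) ≤
        d * G F x (e ^ 2) t := mul_le_mul_of_nonneg_left hl hd0.le
    have h7 : -(d * (C / (T - t₀))) ≤ d * G F x (e ^ 2) t₀ := by
      have := mul_le_mul_of_nonneg_left hG0 hd0.le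
      linarith
    have h8 : 0 ≤ 420 * C * e := by positivity
    rw [mul_sub] at h6
    linarith
  · have hu := h.G_upper ht₀ hC0 hC x hδ ht
    rw [← hd, hquot] at hu
    have h5 : d * F (x, t) ≤ d * G F x (e ^ 2) t + d * √(e ^ 2 * A F t) := by
      rw [← mul_add]
      exact mul_le_mul_of_nonneg_left (by linarith [hcl.1]) hd0.le
    have h6 : 210 * C * e ^ 2 ≤ 420 * C * e := by nlinarith
    have h7 : 0 ≤ C / (T - t₀) * e := by positivity
    have h8 : 0 ≤ 420 * C * (|Real.log (T - t₀)| + 8) * e := by positivity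
    linarith

end Sol

end

end Run7.h736
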