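import Pool.Agent.Run7.h736.Defs
import Pool.Agent.Run7.h736.Calc

open scoped ContDiff
open Set MeasureTheory

namespace Run7.h736

noncomputable section

/-- working form of a solution on the open strip `ℝ × (0,T)` -/
structure Sol (T : ℝ) (F : ℝ × ℝ → ℝ) : Prop where
  sm : ContDiffOn ℝ ∞ F (Om 0 T)
  per : ∀ t ∈ Ioo 0 T, ∀ x, F (x + 2 * Real.pi, t) = F (x, t)
  eq : ∀ p ∈ Om 0 T, dt F p = dx (dx (dx F)) p + (dx F p) ^ 2 + (F p) ^ 2

lemma per_dx {T : ℝ} {F : ℝ × ℝ → ℝ} (hF : ContDiffOn ℝ ∞ F (Om 0 T))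
    (per : ∀ t ∈ Ioo 0 T, ∀ x, F (x + 2 * Real.pi, t) = F (x, t)) :
    ∀ t ∈ Ioo 0 T, ∀ x, dx F (x + 2 * Real.pi, t) = dx F (x, t) := by
  intro t ht x
  have h1 : HasDerivAt (fun y => F (y, t)) (dx F (x, t)) x := hasDerivAt_dx hF ht
  have h2 : HasDerivAt (fun y => F (y + 2 * Real.pi, t)) (dx F (x + 2 * Real.pi, t)) x := by
    have h3 : HasDerivAt (fun y => F (y, t)) (dx F (x + 2 * Real.pi, t)) (x + 2 * Real.pi) :=
      hasDerivAt_dx hF ht
    exact h3.comp_add_const x (2 * Real.pi)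
  have h4 : (fun y => F (y + 2 * Real.pi, t)) = fun y => F (y, t) := by
    funext y; exact per t ht y
  rw [h4] at h2
  exact h2.unique h1

/-- integral of an `x`-derivative of a periodic function vanishes -/
lemma integral_deriv_zero {h h' : ℝ → ℝ} (hd : ∀ x, HasDerivAt h (h' x) x) (hc : Continuous h')
    (hp : ∀ x, h (x + 2 * Real.pi) = h x) : ∫ x in (0:ℝ)..(2 * Real.pi), h' x = 0 := by
  rw [intervalIntegral.integral_eq_sub_of_hasDerivAt (fun x _ => hd x)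
    (hc.intervalIntegrable _ _)]
  have := hp 0
  rw [zero_add] at this
  rw [this, sub_self]

namespace Sol

variable {T : ℝ} {F : ℝ × ℝ → ℝ}

lemma sm1 (h : Sol T F) : ContDiffOn ℝ ∞ (dx F) (Om 0 T) := smooth_dx h.sm
lemma sm2 (h : Sol T F) : ContDiffOn ℝ ∞ (dx (dx F)) (Om 0 T) := smooth_dx h.sm1
lemma sm3 (h : Sol T F) : ContDiffOn ℝ ∞ (dx (dx (dx F))) (Om 0 T) := smooth_dx h.sm2
lemma sm4 (h : Sol T F) : ContDiffOn ℝ ∞ (dx (dx (dx (dx F)))) (Om 0 T) := smooth_dx h.sm3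

lemma per1 (h : Sol T F) : ∀ t ∈ Ioo 0 T, ∀ x, dx F (x + 2 * Real.pi, t) = dx F (x, t) :=
  per_dx h.sm h.per
lemma per2 (h : Sol T F) :
    ∀ t ∈ Ioo 0 T, ∀ x, dx (dx F) (x + 2 * Real.pi, t) = dx (dx F) (x, t) :=
  per_dx h.sm1 h.per1
lemma per3 (h : Sol T F) :
    ∀ t ∈ Ioo 0 T, ∀ x, dx (dx (dx F)) (x + 2 * Real.pi, t) = dx (dx (dx F)) (x, t) :=
  per_dx h.sm2 h.per2

/-- `u_{xt} = u_{xxxx} + 2 u_x u_{xx} + 2 u u_x` -/
lemma eq1 (h : Sol T F) : ∀ p ∈ Om 0 T, dt (dx F) p =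
    dx (dx (dx (dx F))) p + 2 * dx F p * dx (dx F) p + 2 * F p * dx F p := by
  rintro ⟨x, t⟩ hp
  have ht : t ∈ Ioo 0 T := mem_Om.1 hp
  rw [dt_dx_comm h.sm hp]
  have e : EqOn (dt F) (fun p => dx (dx (dx F)) p + (dx F p) ^ 2 + (F p) ^ 2) (Om 0 T) :=
    fun p hp => h.eq p hp
  rw [dx_congr e hp]
  have hs : ContDiffOn ℝ ∞ (fun p => dx (dx (dx F)) p + (dx F p) ^ 2 + (F p) ^ 2) (Om 0 T) :=
    (h.sm3.add (h.sm1.pow 2)).add (h.sm.pow 2)
  have h1 := hasDerivAt_dx hs (x := x) ht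
  have h2 := ((hasDerivAt_dx h.sm3 (x := x) ht).add ((hasDerivAt_dx h.sm1 (x := x) ht).pow 2)).add
    ((hasDerivAt_dx h.sm (x := x) ht).pow 2)
  have := h1.unique h2
  rw [this]
  simp
  
/-- mean value -/
def M (F : ℝ × ℝ → ℝ) (t : ℝ) : ℝ := (∫ x in (0:ℝ)..(2 * Real.pi), F (x, t)) / (2 * Real.pi)
/-- `∫ u_x^2` -/
def A (F : ℝ × ℝ → ℝ) (t : ℝ) : ℝ := ∫ x in (0:ℝ)..(2 * Real.pi), (dx F (x, t)) ^ 2
/-- `∫ u^2` -/
def B (F : ℝ × ℝ → ℝ) (t : ℝ) : ℝ := ∫ x in (0:ℝ)..(2 * Real.pi), (F (x, t)) ^ 2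

lemma hasDerivAt_M (h : Sol T F) {t : ℝ} (ht : t ∈ Ioo 0 T) :
    HasDerivAt (M F) ((A F t + B F t) / (2 * Real.pi)) t := by
  have h1 := hasDerivAt_integral h.sm ht 0 (2 * Real.pi)
  have h2 : ∫ x in (0:ℝ)..(2 * Real.pi), dt F (x, t) = A F t + B F t := by
    have e : (fun x => dt F (x, t)) = fun x => dx (dx (dx F)) (x, t) +
        ((dx F (x, t)) ^ 2 + (F (x, t)) ^ 2) := by
      funext x; rw [h.eq (x, t) (mem_Om.2 ht)]; ring
    have c1 : Continuous (fun x => dx F (x, t)) := cont_slice h.sm1.continuousOn ht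
    have c0 : Continuous (fun x => F (x, t)) := cont_slice h.sm.continuousOn ht
    have c3 : Continuous (fun x => dx (dx (dx F)) (x, t)) := cont_slice h.sm3.continuousOn ht
    have q1 : Continuous (fun x => (dx F (x, t)) ^ 2) := c1.pow 2
    have q0 : Continuous (fun x => (F (x, t)) ^ 2) := c0.pow 2
    have q2 : Continuous (fun x => (dx F (x, t)) ^ 2 + (F (x, t)) ^ 2) := q1.add q0
    rw [e, intervalIntegral.integral_add (c3.intervalIntegrable _ _)
      (q2.intervalIntegrable _ _),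
      intervalIntegral.integral_add (q1.intervalIntegrable _ _)
      (q0.intervalIntegrable _ _)]
    have : ∫ x in (0:ℝ)..(2 * Real.pi), dx (dx (dx F)) (x, t) = 0 :=
      integral_deriv_zero (h := fun x => dx (dx F) (x, t)) (fun x => hasDerivAt_dx h.sm2 ht) c3
        (h.per2 t ht)
    rw [this, zero_add]
    rfl
  rw [h2] at h1
  exact h1.div_const _

lemma hasDerivAt_A (h : Sol T F) {t : ℝ} (ht : t ∈ Ioo 0 T) :
    HasDerivAt (A F) (4 * ∫ x in (0:ℝ)..(2 * Real.pi), F (x, t) * (dx F (x, t)) ^ 2) t := by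
  have hs : ContDiffOn ℝ ∞ (fun p => (dx F p) ^ 2) (Om 0 T) := h.sm1.pow 2
  have h1 := hasDerivAt_integral hs ht 0 (2 * Real.pi)
  have c0 : Continuous (fun x => F (x, t)) := cont_slice h.sm.continuousOn ht
  have c1 : Continuous (fun x => dx F (x, t)) := cont_slice h.sm1.continuousOn ht
  have c2 : Continuous (fun x => dx (dx F) (x, t)) := cont_slice h.sm2.continuousOn ht
  have c3 : Continuous (fun x => dx (dx (dx F)) (x, t)) := cont_slice h.sm3.continuousOn ht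
  have c4 : Continuous (fun x => dx (dx (dx (dx F))) (x, t)) := cont_slice h.sm4.continuousOn ht
  have h2 : ∫ x in (0:ℝ)..(2 * Real.pi), dt (fun p => (dx F p) ^ 2) (x, t) =
      4 * ∫ x in (0:ℝ)..(2 * Real.pi), F (x, t) * (dx F (x, t)) ^ 2 := by
    have e : (fun x => dt (fun p => (dx F p) ^ 2) (x, t)) = fun x =>
        (2 * (dx F (x, t) * dx (dx (dx (dx F))) (x, t)) +
          4 * ((dx F (x, t)) ^ 2 * dx (dx F) (x, t))) + 4 * (F (x, t) * (dx F (x, t)) ^ 2) := by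
      funext x
      have g1 := hasDerivAt_dt hs (x := x) ht
      have g2 := (hasDerivAt_dt h.sm1 (x := x) ht).pow 2
      rw [g1.unique g2, h.eq1 (x, t) (mem_Om.2 ht)]
      simp
      ring
    have cc : Continuous (fun x => (2 * (dx F (x, t) * dx (dx (dx (dx F))) (x, t)) +
          4 * ((dx F (x, t)) ^ 2 * dx (dx F) (x, t)))) := by fun_prop
    have c5 : Continuous fun x => 4 * (F (x, t) * (dx F (x, t)) ^ 2) :=
      continuous_const.mul (c0.mul (c1.pow 2))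
    rw [e, intervalIntegral.integral_add (cc.intervalIntegrable _ _)
      (c5.intervalIntegrable _ _),
      intervalIntegral.integral_const_mul]
    have : ∫ x in (0:ℝ)..(2 * Real.pi), (2 * (dx F (x, t) * dx (dx (dx (dx F))) (x, t)) +
          4 * ((dx F (x, t)) ^ 2 * dx (dx F) (x, t))) = 0 := by
      refine integral_deriv_zero
        (h := fun x => 2 * (dx F (x, t) * dx (dx (dx F)) (x, t)) - (dx (dx F) (x, t)) ^ 2 +
          4 / 3 * (dx F (x, t)) ^ 3) (fun x => ?_) cc (fun x => ?_)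
      · have d1 := hasDerivAt_dx h.sm1 (x := x) ht
        have d2 := hasDerivAt_dx h.sm2 (x := x) ht
        have d3 := hasDerivAt_dx h.sm3 (x := x) ht
        have := (((d1.mul d3).const_mul 2).sub (d2.pow 2)).add ((d1.pow 3).const_mul (4 / 3))
        refine HasDerivAt.congr_deriv this ?_
        push_cast
        ring
      · simp only [h.per1 t ht x, h.per2 t ht x, h.per3 t ht x]
    rw [this, zero_add]
  rw [h2] at h1
  exact h1

end Sol

/-- a classical solution gives a working solution -/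
lemma IsClassicalSol.toSol {T : ℝ} {u : ℝ → ℝ → ℝ} (h : IsClassicalSol T u) :
    Sol T (fun p => u p.1 p.2) := by
  have hsm : ContDiffOn ℝ ∞ (fun p : ℝ × ℝ => u p.1 p.2) (Om 0 T) :=
    h.smooth.mono (prod_mono le_rfl Ioo_subset_Ico_self)
  refine ⟨hsm, fun t ht x => h.periodic t (Ioo_subset_Ico_self ht) x, ?_⟩
  rintro ⟨x, t⟩ hp
  have ht : t ∈ Ioo 0 T := mem_Om.1 hp
  have e := h.pde t ht x
  have h1 : ∀ y, HasDerivAt (fun y => u y t) (dx (fun p : ℝ × ℝ => u p.1 p.2) (y, t)) y :=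
    fun y => hasDerivAt_dx hsm ht
  have h2 : ∀ y, HasDerivAt (fun y => dx (fun p : ℝ × ℝ => u p.1 p.2) (y, t))
      (dx (dx (fun p : ℝ × ℝ => u p.1 p.2)) (y, t)) y := fun y => hasDerivAt_dx (smooth_dx hsm) ht
  have h3 : ∀ y, HasDerivAt (fun y => dx (dx (fun p : ℝ × ℝ => u p.1 p.2)) (y, t))
      (dx (dx (dx (fun p : ℝ × ℝ => u p.1 p.2))) (y, t)) y :=
    fun y => hasDerivAt_dx (smooth_dx (smooth_dx hsm)) ht
  have e1 : deriv (fun y => u y t) = fun y => dx (fun p : ℝ × ℝ => u p.1 p.2) (y, t) :=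
    funext fun y => (h1 y).deriv
  have e2 : deriv (deriv (fun y => u y t)) =
      fun y => dx (dx (fun p : ℝ × ℝ => u p.1 p.2)) (y, t) := by
    rw [e1]; exact funext fun y => (h2 y).deriv
  have e3 : deriv (deriv (deriv (fun y => u y t))) =
      fun y => dx (dx (dx (fun p : ℝ × ℝ => u p.1 p.2))) (y, t) := by
    rw [e2]; exact funext fun y => (h3 y).deriv
  have e4 : iteratedDeriv 3 (fun y => u y t) = deriv (deriv (deriv (fun y => u y t))) := by
    rw [iteratedDeriv_succ, iteratedDeriv_succ, iteratedDeriv_succ, iteratedDeriv_zero]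
  have ht' : HasDerivAt (fun s => u x s) (dt (fun p : ℝ × ℝ => u p.1 p.2) (x, t)) t :=
    hasDerivAt_dt hsm ht
  rw [ht'.deriv, e4, e3, e1] at e
  exact e

end

end Run7.h736
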