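import Pool.Agent.Run7.h736.Sol
import Pool.Agent.Run7.h736.Gen

open scoped ContDiff
open Set MeasureTheory

namespace Run7.h736

noncomputable section

namespace Sol

variable {T : ℝ} {F : ℝ × ℝ → ℝ}

lemma c0 (h : Sol T F) {t : ℝ} (ht : t ∈ Ioo 0 T) : Continuous (fun x => F (x, t)) :=
  cont_slice h.sm.continuousOn ht
lemma c1 (h : Sol T F) {t : ℝ} (ht : t ∈ Ioo 0 T) : Continuous (fun x => dx F (x, t)) :=
  cont_slice h.sm1.continuousOn ht

lemma A_nonneg (F : ℝ × ℝ → ℝ) (t : ℝ) : 0 ≤ A F t :=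
  intervalIntegral.integral_nonneg (by positivity) fun _ _ => sq_nonneg _

lemma B_nonneg (F : ℝ × ℝ → ℝ) (t : ℝ) : 0 ≤ B F t :=
  intervalIntegral.integral_nonneg (by positivity) fun _ _ => sq_nonneg _

/-- energy on a window of length at most a period -/
lemma window_le (h : Sol T F) {t : ℝ} (ht : t ∈ Ioo 0 T) {x y : ℝ} (hxy : x ≤ y)
    (hl : y - x ≤ 2 * Real.pi) : ∫ z in x..y, (dx F (z, t)) ^ 2 ≤ A F t := by
  have hper : Function.Periodic (fun z => (dx F (z, t)) ^ 2) (2 * Real.pi) := by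
    intro z; simp only [h.per1 t ht z]
  have h1 : ∫ z in x..(x + 2 * Real.pi), (dx F (z, t)) ^ 2 = A F t := by
    have := hper.intervalIntegral_add_eq x 0
    rw [zero_add] at this
    exact this
  rw [← h1]
  have c : Continuous (fun z => (dx F (z, t)) ^ 2) := (h.c1 ht).pow 2
  exact intervalIntegral.integral_mono_interval le_rfl hxy (by linarith)
    (Filter.Eventually.of_forall fun _ => sq_nonneg _) (c.intervalIntegrable _ _)

lemma osc (h : Sol T F) {t : ℝ} (ht : t ∈ Ioo 0 T) {x y : ℝ} (hxy : x ≤ y)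
    (hl : y - x ≤ 2 * Real.pi) : |F (y, t) - F (x, t)| ≤ √((y - x) * A F t) := by
  have c := h.c1 ht
  have h1 : ∫ z in x..y, dx F (z, t) = F (y, t) - F (x, t) :=
    intervalIntegral.integral_eq_sub_of_hasDerivAt (fun z _ => hasDerivAt_dx h.sm ht)
      (c.intervalIntegrable _ _)
  rw [← h1]
  calc |∫ z in x..y, dx F (z, t)| ≤ ∫ z in x..y, |dx F (z, t)| :=
        intervalIntegral.abs_integral_le_integral_abs hxy
    _ ≤ √((y - x) * ∫ z in x..y, (dx F (z, t)) ^ 2) := integral_abs_le_sqrt hxy c.continuousOn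
    _ ≤ √((y - x) * A F t) := by
        apply Real.sqrt_le_sqrt
        exact mul_le_mul_of_nonneg_left (h.window_le ht hxy hl) (by linarith)

lemma osc' (h : Sol T F) {t : ℝ} (ht : t ∈ Ioo 0 T) {x y δ : ℝ} (hxy : |y - x| ≤ δ)
    (hl : δ ≤ 2 * Real.pi) : |F (y, t) - F (x, t)| ≤ √(δ * A F t) := by
  rcases le_total x y with hle | hle
  · have e : |y - x| = y - x := abs_of_nonneg (by linarith)
    refine (h.osc ht hle (by linarith)).trans (Real.sqrt_le_sqrt ?_)
    exact mul_le_mul_of_nonneg_right (by linarith) (A_nonneg F t)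
  · have e : |y - x| = x - y := by rw [abs_sub_comm]; exact abs_of_nonneg (by linarith)
    rw [abs_sub_comm]
    refine (h.osc ht hle (by linarith)).trans (Real.sqrt_le_sqrt ?_)
    exact mul_le_mul_of_nonneg_right (by linarith) (A_nonneg F t)

lemma int_F (F : ℝ × ℝ → ℝ) (t : ℝ) :
    ∫ x in (0:ℝ)..(2 * Real.pi), F (x, t) = 2 * Real.pi * M F t := by
  unfold M
  have : (2 * Real.pi) ≠ 0 := by positivity
  field_simp

lemma sub_M (h : Sol T F) {t : ℝ} (ht : t ∈ Ioo 0 T) (x : ℝ) :
    |F (x, t) - M F t| ≤ √(2 * Real.pi * A F t) := by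
  set K := √(2 * Real.pi * A F t) with hK
  have hper : Function.Periodic (fun z => F (z, t)) (2 * Real.pi) := fun z => h.per t ht z
  have h1 : ∫ z in x..(x + 2 * Real.pi), F (z, t) = 2 * Real.pi * M F t := by
    have := hper.intervalIntegral_add_eq x 0
    rw [zero_add] at this
    rw [this, int_F]
  have hpi : 0 < 2 * Real.pi := by positivity
  have c : Continuous (fun z => F (z, t)) := h.c0 ht
  have hb : ∀ z ∈ Icc x (x + 2 * Real.pi), |F (z, t) - F (x, t)| ≤ K := by
    intro z hz
    refine (h.osc ht hz.1 (by linarith [hz.2])).trans (Real.sqrt_le_sqrt ?_)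
    exact mul_le_mul_of_nonneg_right (by linarith [hz.2]) (A_nonneg F t)
  have hup : ∫ z in x..(x + 2 * Real.pi), F (z, t) ≤
      ∫ _ in x..(x + 2 * Real.pi), (F (x, t) + K) := by
    apply intervalIntegral.integral_mono_on (by linarith) (c.intervalIntegrable _ _)
      intervalIntegrable_const
    intro z hz
    have := abs_le.1 (hb z hz)
    linarith [this.2]
  have hlo : ∫ _ in x..(x + 2 * Real.pi), (F (x, t) - K) ≤
      ∫ z in x..(x + 2 * Real.pi), F (z, t) := by
    apply intervalIntegral.integral_mono_on (by linarith) intervalIntegrable_const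
      (c.intervalIntegrable _ _)
    intro z hz
    have := abs_le.1 (hb z hz)
    linarith [this.1]
  rw [intervalIntegral.integral_const, smul_eq_mul, h1] at hup hlo
  have e : x + 2 * Real.pi - x = 2 * Real.pi := by ring
  rw [e] at hup hlo
  have u1 := le_of_mul_le_mul_left hup hpi
  have l1 := le_of_mul_le_mul_left hlo hpi
  rw [abs_le]
  constructor <;> linarith

lemma M_sq_le (h : Sol T F) {t : ℝ} (ht : t ∈ Ioo 0 T) : 2 * Real.pi * (M F t) ^ 2 ≤ B F t := by
  have hpi : 0 < 2 * Real.pi := by positivity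
  have h1 := sq_integral_abs_le (a := 0) (b := 2 * Real.pi) hpi.le (h.c0 ht).continuousOn
  have h2 : |∫ x in (0:ℝ)..(2 * Real.pi), F (x, t)| ≤ ∫ x in (0:ℝ)..(2 * Real.pi), |F (x, t)| :=
    intervalIntegral.abs_integral_le_integral_abs hpi.le
  rw [int_F] at h2
  have h3 : (2 * Real.pi * M F t) ^ 2 ≤ (∫ x in (0:ℝ)..(2 * Real.pi), |F (x, t)|) ^ 2 := by
    rw [← sq_abs (2 * Real.pi * M F t)]
    exact pow_le_pow_left₀ (abs_nonneg _) h2 2
  have h4 : (2 * Real.pi) * (2 * Real.pi * (M F t) ^ 2) ≤ (2 * Real.pi) * B F t := by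
    calc (2 * Real.pi) * (2 * Real.pi * (M F t) ^ 2) = (2 * Real.pi * M F t) ^ 2 := by ring
      _ ≤ _ := h3
      _ ≤ (2 * Real.pi - 0) * B F t := h1
      _ = (2 * Real.pi) * B F t := by ring
  exact le_of_mul_le_mul_left h4 hpi

lemma M_le (h : Sol T F) : ∀ t ∈ Ioo 0 T, (T - t) * M F t ≤ 1 := by
  apply riccati_bound (f := M F) (f' := fun t => (A F t + B F t) / (2 * Real.pi))
  · exact fun t ht => h.hasDerivAt_M ht
  · intro t ht
    have hpi : 0 < 2 * Real.pi := by positivity
    rw [le_div_iff₀ hpi]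
    have := h.M_sq_le ht
    have := A_nonneg F t
    linarith

lemma contA (h : Sol T F) : ContinuousOn (A F) (Ioo 0 T) := fun _ ht =>
  (h.hasDerivAt_A ht).continuousAt.continuousWithinAt

lemma contM (h : Sol T F) : ContinuousOn (M F) (Ioo 0 T) := fun _ ht =>
  (h.hasDerivAt_M ht).continuousAt.continuousWithinAt

lemma M_mono (h : Sol T F) : MonotoneOn (M F) (Ioo 0 T) := by
  apply monotoneOn_of_deriv_nonneg (convex_Ioo 0 T) h.contM
  · intro s hs
    rw [interior_Ioo] at hs
    exact (h.hasDerivAt_M hs).differentiableAt.differentiableWithinAt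
  · intro s hs
    rw [interior_Ioo] at hs
    rw [(h.hasDerivAt_M hs).deriv]
    have := A_nonneg F s
    have := B_nonneg F s
    positivity

/-- `∫ A ≤ 2π (M(t₂) - M(t₁))` -/
lemma int_A_le (h : Sol T F) {t₁ t₂ : ℝ} (h₁ : 0 < t₁) (h₁₂ : t₁ ≤ t₂) (h₂ : t₂ < T) :
    ∫ s in t₁..t₂, A F s ≤ 2 * Real.pi * (M F t₂ - M F t₁) := by
  have hsub : Icc t₁ t₂ ⊆ Ioo 0 T := fun s hs => ⟨lt_of_lt_of_le h₁ hs.1, lt_of_le_of_lt hs.2 h₂⟩
  have hpi : 0 < 2 * Real.pi := by positivity
  have hd : ∀ s ∈ Icc t₁ t₂, HasDerivAt (fun s => 2 * Real.pi * M F s - ∫ r in t₁..s, A F r)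
      (B F s) s := by
    intro s hs
    have hsI := hsub hs
    have hi : HasDerivAt (fun s => ∫ r in t₁..s, A F r) (A F s) s := by
      apply intervalIntegral.integral_hasDerivAt_right
      · apply ContinuousOn.intervalIntegrable
        rw [uIcc_of_le hs.1]
        exact h.contA.mono fun r hr => hsub ⟨hr.1, hr.2.trans hs.2⟩
      · exact ContinuousOn.stronglyMeasurableAtFilter isOpen_Ioo h.contA s hsI
      · exact h.contA.continuousAt (isOpen_Ioo.mem_nhds hsI)
    have := ((h.hasDerivAt_M hsI).const_mul (2 * Real.pi)).sub hi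
    refine HasDerivAt.congr_deriv this ?_
    field_simp
    ring
  have hmono : MonotoneOn (fun s => 2 * Real.pi * M F s - ∫ r in t₁..s, A F r) (Icc t₁ t₂) := by
    apply monotoneOn_of_deriv_nonneg (convex_Icc t₁ t₂)
    · exact fun s hs => (hd s hs).continuousAt.continuousWithinAt
    · intro s hs
      rw [interior_Icc] at hs
      exact (hd s (Ioo_subset_Icc_self hs)).differentiableAt.differentiableWithinAt
    · intro s hs
      rw [interior_Icc] at hs
      rw [(hd s (Ioo_subset_Icc_self hs)).deriv]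
      exact B_nonneg F s
  have := hmono ⟨le_rfl, h₁₂⟩ ⟨h₁₂, le_rfl⟩ h₁₂
  simp only [intervalIntegral.integral_same] at this
  linarith

/-- differential inequality for `A` -/
lemma A_deriv_le (h : Sol T F) {t : ℝ} (ht : t ∈ Ioo 0 T) :
    4 * ∫ x in (0:ℝ)..(2 * Real.pi), F (x, t) * (dx F (x, t)) ^ 2 ≤
      (4 * ((T - t)⁻¹ + √(2 * Real.pi * A F t))) * A F t := by
  have hpi : 0 < 2 * Real.pi := by positivity
  have hTt : 0 < T - t := by linarith [ht.2]
  have hM : M F t ≤ (T - t)⁻¹ := by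
    rw [← div_eq_mul_inv (1:ℝ) (T - t) |>.trans (one_mul _), le_div_iff₀ hTt]
    have := h.M_le t ht
    linarith [mul_comm (T - t) (M F t)]
  have hle : ∫ x in (0:ℝ)..(2 * Real.pi), F (x, t) * (dx F (x, t)) ^ 2 ≤
      ∫ x in (0:ℝ)..(2 * Real.pi), ((T - t)⁻¹ + √(2 * Real.pi * A F t)) * (dx F (x, t)) ^ 2 := by
    apply intervalIntegral.integral_mono_on hpi.le
      (((h.c0 ht).mul ((h.c1 ht).pow 2)).intervalIntegrable _ _)
      ((continuous_const.mul ((h.c1 ht).pow 2)).intervalIntegrable _ _)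
    intro x _
    apply mul_le_mul_of_nonneg_right _ (sq_nonneg _)
    have := (abs_le.1 (h.sub_M ht x)).2
    linarith
  rw [intervalIntegral.integral_const_mul] at hle
  change _ ≤ _ * A F t at hle
  nlinarith

/-- the key a priori bound in `Ḣ¹` -/
lemma A_bound (h : Sol T F) (hT : 0 < T) : ∃ C : ℝ, 0 ≤ C ∧ ∀ t ∈ Ico (3 * T / 4) T,
    (T - t) ^ 2 * A F t ≤ C := by
  have hpi : 0 < 2 * Real.pi := by positivity
  set m := |M F (T / 2)| with hm
  have hm0 : 0 ≤ m := abs_nonneg _
  set P := 2 * Real.pi * (1 + T * m) with hP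
  have hP0 : 0 ≤ P := by positivity
  set L := 4 + 4 * √(2 * Real.pi) * √P with hL
  refine ⟨Real.exp L * P, by positivity, ?_⟩
  intro t' ht'
  set d := T - t' with hd
  have hd0 : 0 < d := by rw [hd]; linarith [ht'.2]
  have hdT : d ≤ T := by rw [hd]; linarith [ht'.1]
  set t1 := t' - d with ht1
  have ht1' : T / 2 ≤ t1 := by rw [ht1, hd]; linarith [ht'.1]
  have h1pos : 0 < t1 := by linarith
  have ht'mem : t' ∈ Ioo 0 T := ⟨by linarith [ht'.1], ht'.2⟩
  have hMd : M F t' - M F t1 ≤ (1 + T * m) / d := by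
    rw [le_div_iff₀ hd0]
    have a1 := h.M_le t' ht'mem
    have a2 : M F (T / 2) ≤ M F t1 :=
      h.M_mono ⟨by linarith, by linarith⟩ ⟨h1pos, by linarith⟩ ht1'
    have a3 : -m ≤ M F (T / 2) := neg_abs_le _
    have a4 : -(d * M F t1) ≤ T * m := by
      have : -m ≤ M F t1 := a3.trans a2
      nlinarith
    rw [← hd] at a1
    nlinarith
  have hintA : ∫ s in t1..t', A F s ≤ P / d := by
    refine (h.int_A_le h1pos (by linarith) ht'.2).trans ?_
    rw [hP, mul_div_assoc]
    exact mul_le_mul_of_nonneg_left hMd hpi.le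
  have hsub : Icc t1 t' ⊆ Ioo 0 T := fun s hs => ⟨lt_of_lt_of_le h1pos hs.1, lt_of_le_of_lt hs.2 ht'.2⟩
  have hsq : ContinuousOn (fun s => √(A F s)) (Ioo 0 T) := h.contA.sqrt
  have hinv : ContinuousOn (fun s => (T - s)⁻¹) (Ioo 0 T) := by
    apply ContinuousOn.inv₀ (by fun_prop)
    intro s hs
    have := hs.2
    exact ne_of_gt (by linarith)
  set β : ℝ → ℝ := fun s => 4 * ((T - s)⁻¹ + √(2 * Real.pi * A F s)) with hβ
  have hβc : ContinuousOn β (Ioo 0 T) := by
    have : ContinuousOn (fun s => √(2 * Real.pi * A F s)) (Ioo 0 T) :=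
      (continuousOn_const.mul h.contA).sqrt
    exact continuousOn_const.mul (hinv.add this)
  -- bound on the exponent
  have hexp : ∀ t ∈ Icc t1 t', ∫ s in t..t', β s ≤ L := by
    intro t ht
    have hsubt : Icc t t' ⊆ Icc t1 t' := Icc_subset_Icc_left ht.1
    have hle : ∀ s ∈ Icc t t', β s ≤ 4 * d⁻¹ + 4 * √(2 * Real.pi) * |√(A F s)| := by
      intro s hs
      rw [hβ]
      simp only
      rw [Real.sqrt_mul hpi.le, abs_of_nonneg (Real.sqrt_nonneg _)]
      have : (T - s)⁻¹ ≤ d⁻¹ := by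
        apply inv_anti₀ hd0
        rw [hd]; linarith [hs.2]
      nlinarith
    have i1 : IntervalIntegrable β volume t t' := by
      apply ContinuousOn.intervalIntegrable
      rw [uIcc_of_le ht.2]
      exact hβc.mono (hsubt.trans hsub)
    have i3 : IntervalIntegrable (fun s => |√(A F s)|) volume t t' := by
      apply ContinuousOn.intervalIntegrable
      rw [uIcc_of_le ht.2]
      exact (hsq.mono (hsubt.trans hsub)).abs
    have i2 : IntervalIntegrable (fun s => 4 * d⁻¹ + 4 * √(2 * Real.pi) * |√(A F s)|)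
        volume t t' := intervalIntegrable_const.add (i3.const_mul _)
    have h1 := intervalIntegral.integral_mono_on ht.2 i1 i2 hle
    have e5 : ∫ s in t..t', 4 * √(2 * Real.pi) * |√(A F s)| =
        4 * √(2 * Real.pi) * ∫ s in t..t', |√(A F s)| := intervalIntegral.integral_const_mul _ _
    rw [intervalIntegral.integral_add intervalIntegrable_const (i3.const_mul _),
      intervalIntegral.integral_const, smul_eq_mul, e5] at h1
    have h2 : (∫ s in t..t', |√(A F s)|) ≤ √P := by
      refine (integral_abs_le_sqrt ht.2 (hsq.mono (hsubt.trans hsub))).trans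
        (Real.sqrt_le_sqrt ?_)
      have e : ∫ s in t..t', √(A F s) ^ 2 = ∫ s in t..t', A F s := by
        apply intervalIntegral.integral_congr
        intro s _
        exact Real.sq_sqrt (A_nonneg F s)
      rw [e]
      have h3 : ∫ s in t..t', A F s ≤ ∫ s in t1..t', A F s := by
        apply intervalIntegral.integral_mono_interval ht.1 ht.2 le_rfl
          (Filter.Eventually.of_forall fun _ => A_nonneg F _)
        apply ContinuousOn.intervalIntegrable
        rw [uIcc_of_le (ht.1.trans ht.2)]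
        exact h.contA.mono hsub
      have h4 : t' - t ≤ d := by linarith [ht.1]
      have h5 : 0 ≤ ∫ s in t..t', A F s :=
        intervalIntegral.integral_nonneg ht.2 fun _ _ => A_nonneg F _
      calc (t' - t) * ∫ s in t..t', A F s ≤ d * (P / d) :=
            mul_le_mul h4 (h3.trans hintA) h5 hd0.le
        _ = P := by field_simp
    have h6 : (t' - t) * (4 * d⁻¹) ≤ 4 := by
      have h4 : t' - t ≤ d := by linarith [ht.1]
      have : (t' - t) * (4 * d⁻¹) ≤ d * (4 * d⁻¹) :=
        mul_le_mul_of_nonneg_right h4 (by positivity)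
      have e : d * (4 * d⁻¹) = 4 := by field_simp
      linarith
    have h7 : 4 * √(2 * Real.pi) * (∫ s in t..t', |√(A F s)|) ≤ 4 * √(2 * Real.pi) * √P :=
      mul_le_mul_of_nonneg_left h2 (by positivity)
    rw [hL]
    linarith
  -- pointwise comparison
  have hcmp : ∀ t ∈ Icc t1 t', A F t' ≤ Real.exp L * A F t := by
    intro t ht
    have := gronwall (f := A F)
      (f' := fun t => 4 * ∫ x in (0:ℝ)..(2 * Real.pi), F (x, t) * (dx F (x, t)) ^ 2) (β := β)
      (fun t ht => h.hasDerivAt_A ht) hβc (fun t ht => h.A_deriv_le ht)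
      (lt_of_lt_of_le h1pos ht.1) ht.2 ht'.2
    refine this.trans ?_
    rw [mul_comm]
    exact mul_le_mul_of_nonneg_right (Real.exp_le_exp.2 (hexp t ht)) (A_nonneg F t)
  have hint : d * A F t' ≤ Real.exp L * ∫ s in t1..t', A F s := by
    have hc : IntervalIntegrable (A F) volume t1 t' := by
      apply ContinuousOn.intervalIntegrable
      rw [uIcc_of_le (by linarith)]
      exact h.contA.mono hsub
    have := intervalIntegral.integral_mono_on (by linarith : t1 ≤ t') intervalIntegrable_const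
      (hc.const_mul (Real.exp L)) hcmp
    rw [intervalIntegral.integral_const, intervalIntegral.integral_const_mul, smul_eq_mul] at this
    have e : t' - t1 = d := by rw [ht1]; ring
    rw [e] at this
    exact this
  have hfin : d * A F t' ≤ Real.exp L * (P / d) :=
    hint.trans (mul_le_mul_of_nonneg_left hintA (Real.exp_pos _).le)
  calc d ^ 2 * A F t' = d * (d * A F t') := by ring
    _ ≤ d * (Real.exp L * (P / d)) := mul_le_mul_of_nonneg_left hfin hd0.le
    _ = Real.exp L * P := by field_simp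

/-- bound for `(T-t)|u|` near the final time -/
lemma F_bound (h : Sol T F) (hT : 0 < T) : ∃ C : ℝ, 0 ≤ C ∧ ∀ t ∈ Ico (3 * T / 4) T, ∀ x,
    (T - t) * |F (x, t)| ≤ C := by
  obtain ⟨C, hC0, hC⟩ := h.A_bound hT
  set m := |M F (T / 2)| with hm
  have hm0 : 0 ≤ m := abs_nonneg _
  refine ⟨1 + T * m + √(2 * Real.pi * C), by positivity, ?_⟩
  intro t ht x
  have hpi : 0 < 2 * Real.pi := by positivity
  have htm : t ∈ Ioo 0 T := ⟨by linarith [ht.1], ht.2⟩
  have hd : 0 < T - t := by linarith [ht.2]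
  have h1 : (T - t) * |M F t| ≤ 1 + T * m := by
    rcases le_total 0 (M F t) with h0 | h0
    · rw [abs_of_nonneg h0]
      have := h.M_le t htm
      nlinarith
    · rw [abs_of_nonpos h0]
      have a2 : M F (T / 2) ≤ M F t :=
        h.M_mono ⟨by linarith, by linarith⟩ htm (by linarith [ht.1])
      have a3 : -m ≤ M F (T / 2) := neg_abs_le _
      have a5 : T - t ≤ T := by linarith [htm.1]
      nlinarith
  have h2 : |F (x, t)| ≤ |M F t| + √(2 * Real.pi * A F t) := by
    have := h.sub_M htm x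
    calc |F (x, t)| = |(F (x, t) - M F t) + M F t| := by ring_nf
      _ ≤ |F (x, t) - M F t| + |M F t| := abs_add_le _ _
      _ ≤ _ := by linarith
  have h3 : (T - t) * √(2 * Real.pi * A F t) ≤ √(2 * Real.pi * C) := by
    have e : (T - t) * √(2 * Real.pi * A F t) = √(2 * Real.pi * ((T - t) ^ 2 * A F t)) := by
      rw [show 2 * Real.pi * ((T - t) ^ 2 * A F t) = (T - t) ^ 2 * (2 * Real.pi * A F t) by ring,
        Real.sqrt_mul (sq_nonneg _), Real.sqrt_sq hd.le]
    rw [e]
    exact Real.sqrt_le_sqrt (mul_le_mul_of_nonneg_left (hC t ht) hpi.le)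
  calc (T - t) * |F (x, t)| ≤ (T - t) * (|M F t| + √(2 * Real.pi * A F t)) :=
        mul_le_mul_of_nonneg_left h2 hd.le
    _ = (T - t) * |M F t| + (T - t) * √(2 * Real.pi * A F t) := by ring
    _ ≤ _ := by linarith

end Sol

end

end Run7.h736
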